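import Mathlib

/-!
# An exponential inequality for sums of independent functions
-/

set_option autoImplicit false
set_option linter.unusedSectionVars false

namespace Q69.OD

open Finset

lemma exp_quad (z : ℝ) : Real.exp z ≤ 1 + z + z ^ 2 * Real.exp |z| := by
  have he : 1 ≤ Real.exp |z| := Real.one_le_exp (abs_nonneg z)
  rcases le_or_gt |z| 1 with h | h
  · have h1 := (abs_le.1 (Real.abs_exp_sub_one_sub_id_le h)).2
    have h2 : z ^ 2 * 1 ≤ z ^ 2 * Real.exp |z| := mul_le_mul_of_nonneg_left he (sq_nonneg z)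
    linarith
  · rcases le_total 0 z with h0 | h0
    · rw [abs_of_nonneg h0] at h he ⊢
      have h2 : 1 ≤ z ^ 2 := by nlinarith
      have h3 : 1 * Real.exp z ≤ z ^ 2 * Real.exp z := mul_le_mul_of_nonneg_right h2 (Real.exp_pos z).le
      linarith
    · have h1 : Real.exp z ≤ 1 := Real.exp_le_one_iff.2 h0
      rw [abs_of_nonpos h0] at h he ⊢
      have h2 : -z ≤ z ^ 2 := by nlinarith
      have h3 : z ^ 2 * 1 ≤ z ^ 2 * Real.exp (-z) := mul_le_mul_of_nonneg_left he (sq_nonneg z)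
      linarith

section

variable {S : Type} [Fintype S] [DecidableEq S] {Ω : S → Type} [∀ v, Fintype (Ω v)] [∀ v, Nonempty (Ω v)]

lemma local_exp {A : Type} [Fintype A] [Nonempty A] (f : A → ℝ) (C σ : ℝ) (hf : ∀ u, |f u| ≤ C)
    (hσ : (∑ u, f u ^ 2) / (Fintype.card A : ℝ) ≤ σ) (s : ℝ) (hs : 0 ≤ s) :
    (∑ u, Real.exp (s * (f u - (∑ u, f u) / (Fintype.card A : ℝ)))) / (Fintype.card A : ℝ) ≤ Real.exp (s ^ 2 * Real.exp (2 * s * C) * σ) := by
  obtain ⟨Q, hQ⟩ : ∃ Q : ℝ, Q = Fintype.card A := ⟨_, rfl⟩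
  have hQ0 : 0 < Q := by rw [hQ]; exact_mod_cast Fintype.card_pos
  rw [← hQ] at hσ ⊢
  obtain ⟨a, ha⟩ : ∃ a : ℝ, a = (∑ u, f u) / Q := ⟨_, rfl⟩
  rw [← ha]
  have haQ : ∑ u, f u = a * Q := by rw [ha, div_mul_cancel₀ _ hQ0.ne']
  have haC : |a| ≤ C := by
    rw [ha, abs_div, abs_of_pos hQ0, div_le_iff₀ hQ0]
    refine (abs_sum_le_sum_abs _ _).trans ((sum_le_sum fun u _ => hf u).trans (le_of_eq ?_))
    rw [sum_const, card_univ, nsmul_eq_mul, ← hQ, mul_comm]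
  have h1 : ∀ u, Real.exp (s * (f u - a)) ≤ 1 + s * (f u - a) + s ^ 2 * Real.exp (2 * s * C) * (f u - a) ^ 2 := by
    intro u
    refine (exp_quad _).trans ?_
    have h2 : |s * (f u - a)| ≤ 2 * s * C := by
      rw [abs_mul, abs_of_nonneg hs]
      have h3 : |f u - a| ≤ 2 * C := (abs_sub _ _).trans (by linarith [hf u])
      calc s * |f u - a| ≤ s * (2 * C) := mul_le_mul_of_nonneg_left h3 hs
        _ = _ := by ring
    have h3 := mul_le_mul_of_nonneg_left (Real.exp_le_exp.2 h2) (sq_nonneg (s * (f u - a)))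
    have e : (s * (f u - a)) ^ 2 * Real.exp (2 * s * C) = s ^ 2 * Real.exp (2 * s * C) * (f u - a) ^ 2 := by ring
    rw [e] at h3
    linarith
  have h2 : ∑ u, (1 + s * (f u - a) + s ^ 2 * Real.exp (2 * s * C) * (f u - a) ^ 2) =
      Q + s ^ 2 * Real.exp (2 * s * C) * (∑ u, f u ^ 2 - a ^ 2 * Q) := by
    obtain ⟨w, hw⟩ : ∃ w : ℝ, w = s ^ 2 * Real.exp (2 * s * C) := ⟨_, rfl⟩
    rw [← hw]
    have e : ∀ u, 1 + s * (f u - a) + w * (f u - a) ^ 2 = (1 - s * a + w * a ^ 2) + ((s - w * (2 * a)) * f u + w * f u ^ 2) :=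
      fun u => by ring
    obtain ⟨c, hc⟩ : ∃ c : ℝ, c = 1 - s * a + w * a ^ 2 := ⟨_, rfl⟩
    rw [sum_congr rfl fun u _ => e u, ← hc, sum_add_distrib, sum_add_distrib, ← mul_sum, ← mul_sum, sum_const, card_univ, nsmul_eq_mul, ← hQ,
      haQ, hc]
    ring
  have h3 : (∑ u, Real.exp (s * (f u - a))) / Q ≤ 1 + s ^ 2 * Real.exp (2 * s * C) * σ := by
    rw [div_le_iff₀ hQ0]
    refine (sum_le_sum fun u _ => h1 u).trans ?_
    rw [h2]
    have h4 : ∑ u, f u ^ 2 ≤ σ * Q := by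
      rw [← div_le_iff₀ hQ0]
      exact hσ
    have h5 : ∑ u, f u ^ 2 - a ^ 2 * Q ≤ σ * Q := by
      have : 0 ≤ a ^ 2 * Q := by positivity
      linarith
    have h6 := mul_le_mul_of_nonneg_left h5 (by positivity : 0 ≤ s ^ 2 * Real.exp (2 * s * C))
    linarith
  refine h3.trans ?_
  linarith [Real.add_one_le_exp (s ^ 2 * Real.exp (2 * s * C) * σ)]

open Classical in
/-- an exponential inequality -/
theorem chernoff (f : (v : S) → Ω v → ℝ) (C : ℝ) (σ : S → ℝ) (hf : ∀ v u, |f v u| ≤ C)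
    (hσ : ∀ v, (∑ u, f v u ^ 2) / (Fintype.card (Ω v) : ℝ) ≤ σ v) (s t : ℝ) (hs : 0 ≤ s) :
    (((univ : Finset ((v : S) → Ω v)).filter fun w => ∑ v, (∑ u, f v u) / (Fintype.card (Ω v) : ℝ) + t ≤ ∑ v, f v (w v)).card : ℝ) /
      Fintype.card ((v : S) → Ω v) ≤ Real.exp (s ^ 2 * Real.exp (2 * s * C) * (∑ v, σ v) - s * t) := by
  obtain ⟨a, ha⟩ : ∃ a : S → ℝ, ∀ v, a v = (∑ u, f v u) / (Fintype.card (Ω v) : ℝ) := ⟨_, fun _ => rfl⟩
  have hc : ∀ v, (0 : ℝ) < Fintype.card (Ω v) := fun v => by exact_mod_cast Fintype.card_pos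
  have hE : (Fintype.card ((v : S) → Ω v) : ℝ) = ∏ v, (Fintype.card (Ω v) : ℝ) := by
    rw [Fintype.card_pi]
    push_cast
    rfl
  have hE0 : (0 : ℝ) < Fintype.card ((v : S) → Ω v) := by
    rw [hE]
    exact prod_pos fun v _ => hc v
  have h1 : ∑ w : (v : S) → Ω v, Real.exp (s * ∑ v, (f v (w v) - a v)) = ∏ v, ∑ u, Real.exp (s * (f v u - a v)) := by
    rw [prod_univ_sum, Fintype.piFinset_univ]
    refine sum_congr rfl fun w _ => ?_
    rw [mul_sum, Real.exp_sum]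
  have h2 : ∏ v, ∑ u, Real.exp (s * (f v u - a v)) ≤ Real.exp (s ^ 2 * Real.exp (2 * s * C) * (∑ v, σ v)) *
      Fintype.card ((v : S) → Ω v) := by
    rw [hE, mul_sum, Real.exp_sum, ← prod_mul_distrib]
    refine prod_le_prod (fun v _ => sum_nonneg fun u _ => (Real.exp_pos _).le) fun v _ => ?_
    have h3 := local_exp (f v) C (σ v) (hf v) (hσ v) s hs
    rw [← ha, div_le_iff₀ (hc v)] at h3
    exact h3
  have h3 : (((univ : Finset ((v : S) → Ω v)).filter fun w => ∑ v, (∑ u, f v u) / (Fintype.card (Ω v) : ℝ) + t ≤ ∑ v, f v (w v)).card : ℝ) *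
      Real.exp (s * t) ≤ ∑ w : (v : S) → Ω v, Real.exp (s * ∑ v, (f v (w v) - a v)) := by
    rw [← nsmul_eq_mul, ← sum_const]
    refine (sum_le_sum fun w hw => ?_).trans (sum_le_sum_of_subset_of_nonneg (subset_univ _) fun w _ _ => (Real.exp_pos _).le)
    refine Real.exp_le_exp.2 (mul_le_mul_of_nonneg_left ?_ hs)
    have h4 := (mem_filter.1 hw).2
    rw [sum_sub_distrib, sum_congr rfl fun v _ => ha v]
    linarith
  rw [div_le_iff₀ hE0, Real.exp_sub, div_mul_eq_mul_div, le_div_iff₀ (Real.exp_pos _)]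
  exact h3.trans (h1.le.trans h2)

end

end Q69.OD
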