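import Pool.Agent.Q282.GK.NF
import Pool.Agent.Q282.NF.Red

/-!
# Equidistribution of a box in a finite quotient of the lattice
-/

set_option autoImplicit false
set_option linter.unusedSectionVars false

namespace Q69.OD

open Finset Q282.GK

section

variable {κ V : Type} [Fintype κ] [DecidableEq κ] [AddCommGroup V]

lemma cast_cong (M : ℕ) (ρ : (κ → ℤ) →+ V) (hM0 : ∀ x : V, M • x = 0) (n m : κ → ℤ)
    (h : ∀ k, ((n k : ℤ) : ZMod M) = ((m k : ℤ) : ZMod M)) : ρ n = ρ m := by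
  have h1 : ∀ k, ∃ z : ℤ, n k = m k + M * z := by
    intro k
    have h2 := (ZMod.intCast_eq_intCast_iff_dvd_sub (n k) (m k) M).1 (h k)
    obtain ⟨z, hz⟩ := h2
    exact ⟨-z, by linarith⟩
  choose z hz using h1
  have h2 : n = m + M • z := by
    funext k
    rw [Pi.add_apply, Pi.smul_apply, nsmul_eq_mul]
    exact hz k
  rw [h2, map_add, map_nsmul, hM0, add_zero]

/-- the number of the integers of an interval in a residue class -/
lemma ico_class (M : ℕ) (hM : 0 < M) (a : ℤ) (L : ℕ) (u : ZMod M) :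
    (L : ℝ) - M ≤ (((Ico a (a + L)).filter fun x : ℤ => (x : ZMod M) = u).card : ℝ) * M ∧
      (((Ico a (a + L)).filter fun x : ℤ => (x : ZMod M) = u).card : ℝ) * M ≤ (L : ℝ) + M := by
  have hne : NeZero M := ⟨hM.ne'⟩
  have h1 : ((Ico a (a + L)).filter fun x : ℤ => (x : ZMod M) = u) =
      (Ico a (a + L)).filter fun x : ℤ => x ≡ ((u.val : ℕ) : ℤ) [ZMOD (M : ℤ)] := by
    refine filter_congr fun x _ => ?_
    rw [← ZMod.intCast_eq_intCast_iff, Int.cast_natCast, ZMod.natCast_zmod_val]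
  have h2 := Int.Ico_filter_modEq_card a (a + L) (r := (M : ℤ)) (by exact_mod_cast hM) ((u.val : ℕ) : ℤ)
  rw [← h1] at h2
  obtain ⟨c, hc⟩ : ∃ c : ℕ, c = ((Ico a (a + L)).filter fun x : ℤ => (x : ZMod M) = u).card := ⟨_, rfl⟩
  rw [← hc] at h2 ⊢
  obtain ⟨w, hw⟩ : ∃ w : ℤ, w = ((u.val : ℕ) : ℤ) := ⟨_, rfl⟩
  rw [← hw] at h2
  have hMQ : (0 : ℚ) < (M : ℚ) := by exact_mod_cast hM
  have hM' : ((M : ℤ) : ℚ) = (M : ℚ) := by push_cast; rfl
  have e1 := Int.le_ceil (((a + L : ℤ) - w) / (M : ℚ))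
  have e2 := Int.ceil_lt_add_one (((a + L : ℤ) - w) / (M : ℚ))
  have e3 := Int.le_ceil (((a : ℤ) - w) / (M : ℚ))
  have e4 := Int.ceil_lt_add_one (((a : ℤ) - w) / (M : ℚ))
  rw [hM'] at h2
  obtain ⟨A, hA⟩ : ∃ A : ℤ, A = ⌈(((a + L : ℤ) : ℚ) - w) / (M : ℚ)⌉ := ⟨_, rfl⟩
  obtain ⟨B, hB⟩ : ∃ B : ℤ, B = ⌈((a : ℚ) - w) / (M : ℚ)⌉ := ⟨_, rfl⟩
  rw [← hA] at e1 e2 h2
  rw [← hB] at e3 e4 h2
  rw [div_le_iff₀ hMQ] at e1 e3
  have e2' : ((A : ℚ) - 1) * M < ((a + L : ℤ) : ℚ) - w := by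
    rw [← lt_div_iff₀ hMQ]
    linarith
  have e4' : ((B : ℚ) - 1) * M < (a : ℚ) - w := by
    rw [← lt_div_iff₀ hMQ]
    linarith
  push_cast at e1 e2'
  have f1 : (L : ℚ) - M ≤ ((A : ℚ) - B) * M := by nlinarith
  have f2 : ((A : ℚ) - B) * M ≤ (L : ℚ) + M := by nlinarith
  have f3 : (L : ℚ) - M ≤ (c : ℚ) * M := by
    have : (A - B : ℤ) ≤ (c : ℤ) := by rw [h2]; exact le_max_left _ _
    have h3 : ((A : ℚ) - B) ≤ (c : ℚ) := by exact_mod_cast this
    nlinarith
  have f4 : (c : ℚ) * M ≤ (L : ℚ) + M := by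
    rcases le_total (A - B) 0 with h | h
    · rw [max_eq_right h] at h2
      have h3 : (c : ℚ) = 0 := by exact_mod_cast h2
      rw [h3, zero_mul]
      positivity
    · rw [max_eq_left h] at h2
      have h3 : (c : ℚ) = (A : ℚ) - B := by exact_mod_cast h2
      rw [h3]
      exact f2
  exact ⟨by exact_mod_cast f3, by exact_mod_cast f4⟩

/-- a box in a finite quotient -/
theorem eq_box [Fintype V] [DecidableEq V] (M : ℕ) (hM : 0 < M) (ρ : (κ → ℤ) →+ V) (hρ : Function.Surjective ρ)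
    (hM0 : ∀ x : V, M • x = 0) (N : κ → ℤ) (L : κ → ℕ) (hL : ∀ k, M ≤ L k) (E : Finset V) :
    (∏ k, ((L k : ℝ) - M)) * ((E.card : ℝ) / Fintype.card V) ≤ (((kbox N L).filter fun n => ρ n ∈ E).card : ℝ) ∧
      (((kbox N L).filter fun n => ρ n ∈ E).card : ℝ) ≤ (∏ k, ((L k : ℝ) + M)) * ((E.card : ℝ) / Fintype.card V) := by
  classical
  have hne : NeZero M := ⟨hM.ne'⟩
  have hM1 : (0 : ℝ) < M := by exact_mod_cast hM
  -- the factorization through the residues
  obtain ⟨Φ, hΦ⟩ : ∃ Φ : (κ → ZMod M) →+ V, ∀ n : κ → ℤ, Φ (fun k => (n k : ZMod M)) = ρ n := by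
    have h1 : ∀ u : κ → ZMod M, ∀ k, ((((u k).val : ℕ) : ℤ) : ZMod M) = u k := fun u k => by
      rw [Int.cast_natCast, ZMod.natCast_zmod_val]
    refine ⟨{ toFun := fun u => ρ fun k => (((u k).val : ℕ) : ℤ)
              map_zero' := ?_
              map_add' := ?_ }, ?_⟩
    · rw [← map_zero ρ]
      refine cast_cong M ρ hM0 _ _ fun k => ?_
      rw [h1]
      simp
    · intro u w
      rw [← map_add]
      refine cast_cong M ρ hM0 _ _ fun k => ?_
      rw [h1, Pi.add_apply, Pi.add_apply, Int.cast_add, h1, h1]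
    · intro n
      exact cast_cong M ρ hM0 _ _ fun k => h1 (fun k => (n k : ZMod M)) k
  have hsurj : Function.Surjective Φ := by
    intro v
    obtain ⟨n, hn⟩ := hρ v
    exact ⟨fun k => (n k : ZMod M), by rw [hΦ, hn]⟩
  have h1 := Q282.NF.sum_surj Φ hsurj fun v => if v ∈ E then (1 : ℝ) else 0
  rw [← sum_filter, ← sum_filter, sum_const, sum_const, nsmul_one, nsmul_one, filter_mem_eq_inter, univ_inter] at h1
  have hV0 : (0 : ℝ) < Fintype.card V := by exact_mod_cast Fintype.card_pos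
  have h2 : (Fintype.card (κ → ZMod M) : ℝ) = (M : ℝ) ^ Fintype.card κ := by
    rw [Fintype.card_fun, ZMod.card]
    push_cast
    rfl
  have h3 : (((univ : Finset (κ → ZMod M)).filter fun u => Φ u ∈ E).card : ℝ) = (M : ℝ) ^ Fintype.card κ * ((E.card : ℝ) / Fintype.card V) := by
    rw [← h2, ← mul_div_assoc, eq_div_iff hV0.ne']
    exact h1
  -- the fibres over the residues
  have h4 : ((kbox N L).filter fun n => ρ n ∈ E).card = ∑ u ∈ (univ : Finset (κ → ZMod M)).filter fun u => Φ u ∈ E,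
      ∏ k, ((Ico (N k) (N k + L k)).filter fun x : ℤ => (x : ZMod M) = u k).card := by
    rw [card_eq_sum_card_fiberwise (f := fun n : κ → ℤ => fun k => (n k : ZMod M)) (t := (univ : Finset (κ → ZMod M)).filter fun u => Φ u ∈ E)]
    · refine sum_congr rfl fun u hu => ?_
      rw [← Fintype.card_piFinset]
      congr 1
      ext n
      rw [mem_filter, mem_filter, Fintype.mem_piFinset]
      unfold kbox
      rw [Fintype.mem_piFinset]
      constructor
      · rintro ⟨⟨a1, -⟩, a3⟩ k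
        rw [mem_filter]
        exact ⟨a1 k, congrFun a3 k⟩
      · intro a
        have a3 : (fun k => ((n k : ℤ) : ZMod M)) = u := funext fun k => (mem_filter.1 (a k)).2
        refine ⟨⟨fun k => (mem_filter.1 (a k)).1, ?_⟩, a3⟩
        rw [← hΦ, a3]
        exact (mem_filter.1 hu).2
    · intro n hn
      rw [mem_coe, mem_filter] at hn
      rw [mem_coe, mem_filter]
      exact ⟨mem_univ _, by rw [hΦ]; exact hn.2⟩
  rw [h4]
  push_cast
  have h5 : ∀ u : κ → ZMod M, ∏ k, (((L k : ℝ) - M) / M) ≤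
      ∏ k, (((Ico (N k) (N k + L k)).filter fun x : ℤ => (x : ZMod M) = u k).card : ℝ) := by
    intro u
    refine prod_le_prod (fun k _ => ?_) fun k _ => ?_
    · refine div_nonneg ?_ hM1.le
      have := (Nat.cast_le (α := ℝ)).2 (hL k)
      linarith
    · rw [div_le_iff₀ hM1]
      exact (ico_class M hM (N k) (L k) (u k)).1
  have h6 : ∀ u : κ → ZMod M, ∏ k, (((Ico (N k) (N k + L k)).filter fun x : ℤ => (x : ZMod M) = u k).card : ℝ) ≤
      ∏ k, (((L k : ℝ) + M) / M) := by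
    intro u
    refine prod_le_prod (fun k _ => Nat.cast_nonneg _) fun k _ => ?_
    rw [le_div_iff₀ hM1]
    exact (ico_class M hM (N k) (L k) (u k)).2
  have h7 : ∀ f : κ → ℝ, ∏ k, (f k / M) = (∏ k, f k) / (M : ℝ) ^ Fintype.card κ := by
    intro f
    rw [prod_div_distrib, prod_const, card_univ]
  have hMk : (0 : ℝ) < (M : ℝ) ^ Fintype.card κ := by positivity
  constructor
  · refine le_trans (le_of_eq ?_) (sum_le_sum fun u _ => h5 u)
    rw [sum_const, nsmul_eq_mul, h3, h7]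
    field_simp
  · refine (sum_le_sum fun u _ => h6 u).trans (le_of_eq ?_)
    rw [sum_const, nsmul_eq_mul, h3, h7]
    field_simp

end

end Q69.OD
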