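import Pool.Agent.Q69.OD.Eq
import Pool.Agent.Q282.JK.Val

/-!
# Equidistribution of the residues of vectors of integers of a number field
-/

set_option autoImplicit false
set_option linter.unusedSectionVars false

namespace Q69.OD

open Finset NumberField IsDedekindDomain Polynomial
open Q282.GK Q282.NF
open Q282.JK (Res red resField resFinite res_card res_char red_surj red_zero nm_pos)
open Pool.Agent.H921R2.TatePole (below deg nm nm_eq)

section

variable {K : Type} [Field K] [NumberField K]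

noncomputable instance resFt (v : HeightOneSpectrum (𝓞 K)) : Fintype (Res v) := Fintype.ofFinite _

noncomputable instance resDe (v : HeightOneSpectrum (𝓞 K)) : DecidableEq (Res v) := Classical.decEq _

noncomputable instance ixDe (X : ℕ) : DecidableEq {v : HeightOneSpectrum (𝓞 K) // v ∈ SX K X} := Classical.decEq _

/-- the vectors of residues modulo the primes of norm at most `X` -/
abbrev Om (K : Type) [Field K] [NumberField K] (ι : Type) (X : ℕ) : Type :=
  (v : {v : HeightOneSpectrum (𝓞 K) // v ∈ SX K X}) → ι → Res v.1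

variable {ι : Type} [Fintype ι] [DecidableEq ι] {X d : ℕ}

/-- the residues of a vector of integers -/
noncomputable def resid (X : ℕ) (t : ι → 𝓞 K) : Om K ι X := fun v i => red v.1 (t i)

noncomputable instance omDe : DecidableEq (Om K ι X) := Classical.decEq _

lemma below_le {v : HeightOneSpectrum (𝓞 K)} (hv : v ∈ SX K X) : (below v : ℕ) ≤ X := by
  rw [mem_SX, norm_eq] at hv
  exact (Nat.le_self_pow (nm_eq v).2.1.ne' _).trans hv

lemma primorial_zero {v : HeightOneSpectrum (𝓞 K)} (hv : v ∈ SX K X) : ((primorial X : ℕ) : Res v) = 0 := by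
  have h1 := res_char v
  rw [CharP.cast_eq_zero_iff (Res v) (below v : ℕ)]
  unfold primorial
  refine dvd_prod_of_mem _ ?_
  rw [mem_filter, mem_range]
  exact ⟨Nat.lt_succ_of_le (below_le hv), (below v).prop⟩

/-- the residues as a homomorphism -/
noncomputable def rho (X : ℕ) (b : Fin d → 𝓞 K) : (ι × Fin d → ℤ) →+ Om K ι X where
  toFun n := resid X (comb b n)
  map_zero' := by
    funext v i
    show red v.1 (∑ j, (((0 : ι × Fin d → ℤ) (i, j) : ℤ) : 𝓞 K) * b j) = 0
    simp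
  map_add' n m := by
    funext v i
    show red v.1 (∑ j, (((n + m) (i, j) : ℤ) : 𝓞 K) * b j) =
      red v.1 (∑ j, ((n (i, j) : ℤ) : 𝓞 K) * b j) + red v.1 (∑ j, ((m (i, j) : ℤ) : 𝓞 K) * b j)
    rw [← map_add, ← sum_add_distrib]
    congr 1
    refine sum_congr rfl fun j _ => ?_
    rw [Pi.add_apply]
    push_cast
    ring

lemma rho_surj (X : ℕ) (b : Fin d → 𝓞 K) (hb : ∀ x : 𝓞 K, ∃ a : Fin d → ℤ, x = ∑ j, (a j : 𝓞 K) * b j) :
    Function.Surjective (rho (ι := ι) X b) := by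
  intro w
  have h1 : ∀ i : ι, ∃ x : 𝓞 K, ∀ v : {v : HeightOneSpectrum (𝓞 K) // v ∈ SX K X}, red v.1 x = w v i := by
    intro i
    choose z hz using fun v : {v : HeightOneSpectrum (𝓞 K) // v ∈ SX K X} => red_surj v.1 (w v i)
    obtain ⟨x, hx⟩ := Ideal.exists_forall_sub_mem_ideal (R := 𝓞 K) (ι := {v : HeightOneSpectrum (𝓞 K) // v ∈ SX K X})
      (I := fun v => v.1.asIdeal) (by
        intro v v' hvv
        have m1 : v.1.asIdeal.IsMaximal := v.1.isPrime.isMaximal v.1.ne_bot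
        have m2 : v'.1.asIdeal.IsMaximal := v'.1.isPrime.isMaximal v'.1.ne_bot
        show IsCoprime v.1.asIdeal v'.1.asIdeal
        rw [Ideal.isCoprime_iff_sup_eq]
        refine Ideal.IsMaximal.coprime_of_ne m1 m2 fun h => hvv ?_
        exact Subtype.ext (HeightOneSpectrum.ext h)) z
    refine ⟨x, fun v => ?_⟩
    rw [← hz v, ← sub_eq_zero, ← map_sub, red_zero]
    exact hx v
  choose x hx using h1
  choose a ha using fun i => hb (x i)
  refine ⟨fun k => a k.1 k.2, ?_⟩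
  funext v i
  show red v.1 (∑ j, ((a i j : ℤ) : 𝓞 K) * b j) = w v i
  rw [← ha, hx]

lemma rho_kill (X : ℕ) (x : Om K ι X) : primorial X • x = 0 := by
  funext v i
  rw [Pi.smul_apply, Pi.smul_apply, nsmul_eq_mul, primorial_zero v.2, zero_mul]
  rfl

lemma prod_lower {κ : Type} [Fintype κ] (L : κ → ℕ) (M : ℝ) (hM : 0 ≤ M) (hL : ∀ k, 2 * M * Fintype.card κ ≤ L k) :
    (1 / 2) * ∏ k, (L k : ℝ) ≤ ∏ k, ((L k : ℝ) - M) := by
  rcases isEmpty_or_nonempty κ with h | h
  · simp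
    norm_num
  have hc : (0 : ℝ) < Fintype.card κ := by exact_mod_cast Fintype.card_pos
  have hc1 : (1 : ℝ) ≤ Fintype.card κ := by exact_mod_cast Fintype.card_pos
  have h1 : ∀ k, (L k : ℝ) * (1 + -(1 / (2 * Fintype.card κ))) ≤ (L k : ℝ) - M := by
    intro k
    have h2 := hL k
    have h3 : M ≤ (L k : ℝ) * (1 / (2 * Fintype.card κ)) := by
      rw [mul_one_div, le_div_iff₀ (by positivity)]
      linarith
    linarith
  have h0 : (0 : ℝ) ≤ 1 + -(1 / (2 * Fintype.card κ)) := by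
    have : 1 / (2 * (Fintype.card κ : ℝ)) ≤ 1 := by
      rw [div_le_one (by positivity)]
      linarith
    linarith
  have h4 : ∏ k, ((L k : ℝ) * (1 + -(1 / (2 * Fintype.card κ)))) ≤ ∏ k, ((L k : ℝ) - M) :=
    prod_le_prod (fun k _ => mul_nonneg (Nat.cast_nonneg _) h0) fun k _ => h1 k
  rw [prod_mul_distrib, prod_const, card_univ] at h4
  have h5 := one_add_mul_le_pow (a := -(1 / (2 * (Fintype.card κ : ℝ)))) (by
    have : 1 / (2 * (Fintype.card κ : ℝ)) ≤ 1 := by
      rw [div_le_one (by positivity)]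
      linarith
    linarith) (Fintype.card κ)
  have h6 : 1 + (Fintype.card κ : ℝ) * -(1 / (2 * (Fintype.card κ : ℝ))) = 1 / 2 := by
    field_simp
    ring
  rw [h6] at h5
  have h7 : 0 ≤ ∏ k, (L k : ℝ) := prod_nonneg fun k _ => Nat.cast_nonneg _
  calc (1 / 2) * ∏ k, (L k : ℝ) = (∏ k, (L k : ℝ)) * (1 / 2) := mul_comm _ _
    _ ≤ (∏ k, (L k : ℝ)) * (1 + -(1 / (2 * (Fintype.card κ : ℝ)))) ^ Fintype.card κ := mul_le_mul_of_nonneg_left h5 h7
    _ ≤ _ := h4

lemma prod_upper {κ : Type} [Fintype κ] (L : κ → ℕ) (M : ℝ) (hM : 0 ≤ M) (hL : ∀ k, 2 * M * Fintype.card κ ≤ L k) :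
    ∏ k, ((L k : ℝ) + M) ≤ 2 * ∏ k, (L k : ℝ) := by
  rcases isEmpty_or_nonempty κ with h | h
  · simp
  have hc : (0 : ℝ) < Fintype.card κ := by exact_mod_cast Fintype.card_pos
  have h1 : ∀ k, (L k : ℝ) + M ≤ (L k : ℝ) * Real.exp (1 / (2 * Fintype.card κ)) := by
    intro k
    have h2 := hL k
    have h3 : M ≤ (L k : ℝ) * (1 / (2 * Fintype.card κ)) := by
      rw [mul_one_div, le_div_iff₀ (by positivity)]
      linarith
    have h4 := Real.add_one_le_exp (1 / (2 * (Fintype.card κ : ℝ)))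
    have h5 := mul_le_mul_of_nonneg_left h4 (Nat.cast_nonneg (α := ℝ) (L k))
    linarith
  have h4 : ∏ k, ((L k : ℝ) + M) ≤ ∏ k, ((L k : ℝ) * Real.exp (1 / (2 * Fintype.card κ))) :=
    prod_le_prod (fun k _ => by positivity) fun k _ => h1 k
  rw [prod_mul_distrib, prod_const, card_univ, ← Real.exp_nat_mul] at h4
  have h6 : (Fintype.card κ : ℝ) * (1 / (2 * (Fintype.card κ : ℝ))) = 1 / 2 := by
    field_simp
  rw [h6] at h4
  have h7 : 0 ≤ ∏ k, (L k : ℝ) := prod_nonneg fun k _ => Nat.cast_nonneg _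
  have h8 : Real.exp (1 / 2) ≤ 2 := by
    have h9 : Real.exp (1 / 2) ^ 2 ≤ 2 ^ 2 := by
      rw [← Real.exp_nat_mul]
      have : ((2 : ℕ) : ℝ) * (1 / 2) = 1 := by norm_num
      rw [this]
      linarith [Real.exp_one_lt_three]
    exact (pow_le_pow_iff_left₀ (Real.exp_pos _).le (by norm_num) (by norm_num)).1 h9
  calc ∏ k, ((L k : ℝ) + M) ≤ (∏ k, (L k : ℝ)) * Real.exp (1 / 2) := h4
    _ ≤ (∏ k, (L k : ℝ)) * 2 := mul_le_mul_of_nonneg_left h8 h7
    _ = _ := mul_comm _ _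

/-- the residues of the members of a box -/
theorem eq_K (X : ℕ) (b : Fin d → 𝓞 K) (hb : ∀ x : 𝓞 K, ∃ a : Fin d → ℤ, x = ∑ j, (a j : 𝓞 K) * b j)
    (N : ι × Fin d → ℤ) (L : ι × Fin d → ℕ) (hL : ∀ k, 2 * (4 : ℝ) ^ X * Fintype.card (ι × Fin d) ≤ L k) (E : Finset (Om K ι X)) :
    (1 / 2) * (∏ k, (L k : ℝ)) * ((E.card : ℝ) / Fintype.card (Om K ι X)) ≤
        (((kbox N L).filter fun n => resid X (comb b n) ∈ E).card : ℝ) ∧
      (((kbox N L).filter fun n => resid X (comb b n) ∈ E).card : ℝ) ≤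
        2 * (∏ k, (L k : ℝ)) * ((E.card : ℝ) / Fintype.card (Om K ι X)) := by
  have hM : 0 < primorial X := primorial_pos X
  have hM4 : ((primorial X : ℕ) : ℝ) ≤ (4 : ℝ) ^ X := by exact_mod_cast primorial_le_four_pow X
  have hL' : ∀ k, 2 * ((primorial X : ℕ) : ℝ) * Fintype.card (ι × Fin d) ≤ L k := fun k =>
    (mul_le_mul_of_nonneg_right (mul_le_mul_of_nonneg_left hM4 (by norm_num)) (Nat.cast_nonneg _)).trans (hL k)
  have hL2 : ∀ k, primorial X ≤ L k := by
    intro k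
    have h1 := hL' k
    have h2 : (1 : ℝ) ≤ Fintype.card (ι × Fin d) := by
      have : 0 < Fintype.card (ι × Fin d) := Fintype.card_pos_iff.2 ⟨k⟩
      exact_mod_cast this
    have h3 : ((primorial X : ℕ) : ℝ) ≤ L k := by
      have h4 : (0 : ℝ) ≤ ((primorial X : ℕ) : ℝ) := Nat.cast_nonneg _
      nlinarith
    exact_mod_cast h3
  obtain ⟨h1, h2⟩ := eq_box (primorial X) hM (rho (K := K) (ι := ι) X b) (rho_surj X b hb) (rho_kill X) N L hL2 E
  have hq : 0 ≤ (E.card : ℝ) / Fintype.card (Om K ι X) := by positivity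
  constructor
  · exact (mul_le_mul_of_nonneg_right (prod_lower L _ (Nat.cast_nonneg _) hL') hq).trans h1
  · exact h2.trans (mul_le_mul_of_nonneg_right (prod_upper L _ (Nat.cast_nonneg _) hL') hq)

end

end Q69.OD
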