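import Pool.Agent.Q282.JK.Irr

/-!
# The number of the members of a family with a given polynomial
-/

set_option autoImplicit false
set_option linter.unusedSectionVars false

namespace Q69.OD

open Polynomial Finset
open Q282.JK
open Pool.Agent.H341R2.Sharp

section

variable {F : Type} [Field F] [Fintype F] [DecidableEq F] {r m : ℕ}

open Classical in
/-- the members with the polynomial `P` -/
noncomputable def fibS (r m : ℕ) (P : F[X]) : Finset (Idx r m → F) := univ.filter fun u => fpol u = P

open Classical in
lemma mem_fibS {P : F[X]} {u : Idx r m → F} : u ∈ fibS r m P ↔ fpol u = P := by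
  unfold fibS
  rw [mem_filter]
  simp

open Classical in
/-- the affine points of the curve -/
noncomputable def ptS (P : F[X]) : Finset (F × F) := univ.filter fun p => p.2 ^ 2 = P.eval p.1

lemma mem_ptS {P : F[X]} {p : F × F} : p ∈ ptS P ↔ p.2 ^ 2 = P.eval p.1 := by
  unfold ptS
  rw [mem_filter]
  simp

/-- the number of the square roots -/
lemma card_sqrt (hF : ringChar F ≠ 2) (a : F) :
    (((univ : Finset F).filter fun y => y ^ 2 = a).card : ℝ) = 1 + (quadraticChar F a : ℝ) := by
  have h := quadraticChar_card_sqrts hF a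
  have h2 : (((univ : Finset F).filter fun y => y ^ 2 = a).card : ℤ) = quadraticChar F a + 1 := by
    rw [← h]
    congr 2
    ext y
    simp
  have h3 : (((univ : Finset F).filter fun y => y ^ 2 = a).card : ℝ) = ((quadraticChar F a + 1 : ℤ) : ℝ) := by
    exact_mod_cast h2
  rw [h3]
  push_cast
  ring

lemma sqrt_le_two (a : F) : ((univ : Finset F).filter fun y => y ^ 2 = a).card ≤ 2 := by
  have h1 : ((univ : Finset F).filter fun y => y ^ 2 = a) ⊆ (X ^ 2 - C a : F[X]).roots.toFinset := by
    intro y hy
    rw [mem_filter] at hy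
    rw [Multiset.mem_toFinset, mem_roots (X_pow_sub_C_ne_zero two_pos a), IsRoot.def]
    simp [hy.2]
  refine (card_le_card h1).trans ((Multiset.toFinset_card_le _).trans ((card_roots' _).trans ?_))
  rw [natDegree_X_pow_sub_C]

/-- the number of the affine points -/
lemma card_ptS (hF : ringChar F ≠ 2) (P : F[X]) : ((ptS P).card : ℝ) = Fintype.card F + (T P 1 : ℝ) := by
  have h1 : ptS P = (univ : Finset F).biUnion fun x => ((univ : Finset F).filter fun y => y ^ 2 = P.eval x).image fun y => (x, y) := by
    ext p
    rw [mem_ptS, mem_biUnion]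
    constructor
    · intro h
      exact ⟨p.1, mem_univ _, mem_image.2 ⟨p.2, mem_filter.2 ⟨mem_univ _, h⟩, rfl⟩⟩
    · rintro ⟨x, -, h⟩
      obtain ⟨y, hy, rfl⟩ := mem_image.1 h
      exact (mem_filter.1 hy).2
  have h2 : (ptS P).card = ∑ x : F, ((univ : Finset F).filter fun y => y ^ 2 = P.eval x).card := by
    rw [h1, card_biUnion]
    · refine sum_congr rfl fun x _ => card_image_of_injective _ fun y z h => ?_
      exact (Prod.mk.inj h).2
    · intro x _ y _ hxy
      rw [Function.onFun, disjoint_left]
      intro p hp hp'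
      obtain ⟨z, -, rfl⟩ := mem_image.1 hp
      obtain ⟨w, -, hw⟩ := mem_image.1 hp'
      exact hxy (Prod.mk.inj hw).1.symm
  rw [h2]
  push_cast
  rw [sum_congr rfl fun x _ => card_sqrt hF (P.eval x), sum_add_distrib, sum_const, card_univ, nsmul_eq_mul, mul_one,
    ← T_one hF]

lemma card_ptS_le (P : F[X]) : (ptS P).card ≤ 2 * Fintype.card F := by
  have h1 : ptS P ⊆ (univ : Finset F).biUnion fun x => ((univ : Finset F).filter fun y => y ^ 2 = P.eval x).image fun y => (x, y) := by
    intro p h
    rw [mem_ptS] at h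
    rw [mem_biUnion]
    exact ⟨p.1, mem_univ _, mem_image.2 ⟨p.2, mem_filter.2 ⟨mem_univ _, h⟩, rfl⟩⟩
  refine (card_le_card h1).trans (card_biUnion_le.trans ?_)
  refine (sum_le_sum fun x _ => card_image_le.trans (sqrt_le_two (P.eval x))).trans ?_
  rw [sum_const, card_univ, smul_eq_mul, mul_comm]

/-- the parameters are determined by the three polynomials -/
lemma ext_u {u w : Idx r m → F} (ha : ∀ i, u (Sum.inl i) = w (Sum.inl i)) (hh : hpt u = hpt w) (hl : lpt u = lpt w) : u = w := by
  have low : ∀ {D : ℕ} (c d : Fin D → F), (∑ i, C (c i) * X ^ (i : ℕ) : F[X]) = ∑ i, C (d i) * X ^ (i : ℕ) → ∀ i, c i = d i := by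
    intro D c d h i
    have h1 := congrArg (fun f => f.coeff (i : ℕ)) h
    simp only [finsetSum_coeff, coeff_C_mul_X_pow] at h1
    have h2 : ∀ e : Fin D → F, (∑ j : Fin D, if (i : ℕ) = (j : ℕ) then e j else 0) = e i := by
      intro e
      rw [sum_eq_single i]
      · rw [if_pos rfl]
      · intro j _ hj
        rw [if_neg]
        exact fun h => hj (Fin.ext h.symm)
      · intro h
        exact absurd (mem_univ i) h
    rw [h2, h2] at h1
    exact h1
  funext k
  rcases k with i | i | i
  · exact ha i
  · unfold hpt at hh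
    exact low _ _ (add_left_cancel hh) i
  · exact low _ _ hl i

/-- members with the same abscissas and the same `l` -/
lemma eq_of_a_l {P : F[X]} {u w : Idx r m → F} (hu : fpol u = P) (hw : fpol w = P) (ha : ∀ i, u (Sum.inl i) = w (Sum.inl i))
    (hl : lpt u = lpt w) : u = w := by
  refine ext_u ha ?_ hl
  have hm : mpt u = mpt w := by
    unfold mpt
    exact prod_congr rfl fun i _ => by rw [ha i]
  unfold fpol at hu hw
  rw [← hw, ← hl, ← hm] at hu
  exact mul_left_cancel₀ (mpt_monic u).ne_zero (add_right_cancel hu)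

/-- the value at a marked abscissa -/
lemma fpol_eval (u : Idx r m → F) (i : Fin r) : (fpol u).eval (u (Sum.inl i)) = (lpt u).eval (u (Sum.inl i)) ^ 2 := by
  unfold fpol
  rw [eval_add, eval_mul, mpt_eval, eval_pow, prod_eq_zero (mem_univ i) (sub_self _), zero_mul, zero_add]

/-- injectivity for different abscissas -/
lemma eq_of_points {P : F[X]} {u w : Idx r m → F} (hu : fpol u = P) (hw : fpol w = P) (ha : ∀ i, u (Sum.inl i) = w (Sum.inl i))
    (hinj : Function.Injective fun i => u (Sum.inl i)) (hl : ∀ i, (lpt u).eval (u (Sum.inl i)) = (lpt w).eval (u (Sum.inl i))) : u = w := by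
  refine eq_of_a_l hu hw ha ?_
  refine Polynomial.eq_of_degrees_lt_of_eval_index_eq (univ : Finset (Fin r)) (v := fun i => u (Sum.inl i)) hinj.injOn ?_ ?_
    fun i _ => hl i
  · rw [card_univ, Fintype.card_fin]
    exact lpt_degree u
  · rw [card_univ, Fintype.card_fin]
    exact lpt_degree w

open Classical in
/-- the members with different abscissas: upper bound -/
lemma inj_le (P : F[X]) :
    ((fibS r m P).filter fun u => Function.Injective fun i : Fin r => u (Sum.inl i)).card ≤ (ptS P).card ^ r := by
  have h1 : ((fibS r m P).filter fun u => Function.Injective fun i : Fin r => u (Sum.inl i)).card ≤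
      (Fintype.piFinset fun _ : Fin r => ptS P).card := by
    refine card_le_card_of_injOn (fun u i => (u (Sum.inl i), (lpt u).eval (u (Sum.inl i)))) ?_ ?_
    · intro u hu
      rw [mem_coe, mem_filter, mem_fibS] at hu
      rw [mem_coe, Fintype.mem_piFinset]
      intro i
      rw [mem_ptS]
      show (lpt u).eval (u (Sum.inl i)) ^ 2 = P.eval (u (Sum.inl i))
      rw [← hu.1, fpol_eval]
    · intro u hu w hw h
      rw [mem_coe, mem_filter, mem_fibS] at hu hw
      have ha : ∀ i, u (Sum.inl i) = w (Sum.inl i) := fun i => (Prod.mk.inj (congrFun h i)).1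
      refine eq_of_points hu.1 hw.1 ha hu.2 fun i => ?_
      have h2 := (Prod.mk.inj (congrFun h i)).2
      rw [← ha i] at h2
      exact h2
  refine h1.trans (le_of_eq ?_)
  rw [Fintype.card_piFinset_const]

end

end Q69.OD
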