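import Pool.Agent.Q69.OD.Fib

/-!
# The number of the members of a family with a given polynomial: both bounds
-/

set_option autoImplicit false
set_option linter.unusedSectionVars false

namespace Q69.OD

open Polynomial Finset
open Q282.JK
open Pool.Agent.H341R2.Sharp

section

variable {F : Type} [Field F] [Fintype F] [DecidableEq F] {r m : ℕ}

/-- interpolation with given ordinates -/
lemma exists_uy (hrm : r ≤ m) (P : F[X]) (hP : P.Monic) (hd : P.natDegree = r + m) (a y : Fin r → F) (ha : Function.Injective a)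
    (hy : ∀ i, y i ^ 2 = P.eval (a i)) :
    ∃ u : Idx r m → F, fpol u = P ∧ (∀ i, u (Sum.inl i) = a i) ∧ ∀ i, (lpt u).eval (a i) = y i := by
  obtain ⟨L, hL⟩ : ∃ L : F[X], L = Lagrange.interpolate univ a y := ⟨_, rfl⟩
  have hinj : Set.InjOn a (univ : Finset (Fin r)) := ha.injOn
  have hLd : L.degree < r := by
    rw [hL]
    have := Lagrange.degree_interpolate_lt y hinj
    rwa [card_univ, Fintype.card_fin] at this
  have hLe : ∀ i, L.eval (a i) = y i := by
    intro i
    rw [hL]
    exact Lagrange.eval_interpolate_at_node y hinj (mem_univ i)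
  obtain ⟨c, hc⟩ := Q282.HL.exists_low hLd
  -- the quotient
  have hdvd : (∏ i : Fin r, (X - C (a i))) ∣ P - L ^ 2 := by
    refine Finset.prod_dvd_of_coprime ?_ ?_
    · intro i _ j _ hij
      exact isCoprime_X_sub_C_of_isUnit_sub (sub_ne_zero.2 fun h => hij (ha h)).isUnit
    · intro i _
      rw [dvd_iff_isRoot, IsRoot.def, eval_sub, eval_pow, hLe, hy, sub_self]
  obtain ⟨H, hH⟩ := hdvd
  have hMm : (∏ i : Fin r, (X - C (a i))).Monic := monic_prod_of_monic _ _ fun _ _ => monic_X_sub_C _
  have hMd : (∏ i : Fin r, (X - C (a i))).natDegree = r := by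
    rw [natDegree_prod_of_monic _ _ fun _ _ => monic_X_sub_C _]
    simp
  have hL2 : (L ^ 2).degree < P.degree := by
    have := lpt_sq_degree (R := F) hrm (Sum.elim a (Sum.elim (fun _ : Fin m => (0 : F)) c))
    rw [degree_eq_natDegree hP.ne_zero, hd]
    have e : lpt (Sum.elim a (Sum.elim (fun _ : Fin m => (0 : F)) c)) = L := by
      rw [← hc]
      rfl
    rw [e] at this
    exact this
  have hPm : (P - L ^ 2).Monic := by
    rw [sub_eq_add_neg]
    refine hP.add_of_left ?_
    rw [degree_neg]
    exact hL2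
  have hPd : (P - L ^ 2).natDegree = r + m := by
    rw [← hd]
    exact natDegree_eq_of_degree_eq (degree_sub_eq_left_of_degree_lt hL2)
  have hHm : H.Monic := hMm.of_mul_monic_left (by rw [← hH]; exact hPm)
  have hHd : H.natDegree = m := by
    rw [hH, hMm.natDegree_mul hHm, hMd] at hPd
    omega
  have hHX : (H - X ^ m).degree < (m : WithBot ℕ) := by
    have h3 : (H - X ^ m).degree < H.degree := by
      refine degree_sub_lt_left ?_ hHm.ne_zero ?_
      · rw [degree_X_pow, degree_eq_natDegree hHm.ne_zero, hHd]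
      · rw [hHm.leadingCoeff, leadingCoeff_X_pow]
    rwa [degree_eq_natDegree hHm.ne_zero, hHd] at h3
  obtain ⟨b, hb⟩ := Q282.HL.exists_low hHX
  have e1 : mpt (Sum.elim a (Sum.elim b c)) = ∏ i : Fin r, (X - C (a i)) := rfl
  have e2 : lpt (Sum.elim a (Sum.elim b c)) = L := by
    rw [← hc]
    rfl
  have e3 : hpt (Sum.elim a (Sum.elim b c)) = H := by
    have h4 : hpt (Sum.elim a (Sum.elim b c)) = X ^ m + Q282.HL.low m b := rfl
    rw [h4, hb]
    ring
  refine ⟨Sum.elim a (Sum.elim b c), ?_, fun i => rfl, fun i => by rw [e2]; exact hLe i⟩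
  unfold fpol
  rw [e1, e2, e3, ← hH]
  ring

open Classical in
/-- tuples of points with an equal abscissa -/
lemma coll_le (P : F[X]) (n : ℕ) (i j : Fin (n + 1)) (hij : i ≠ j) :
    ((Fintype.piFinset fun _ : Fin (n + 1) => ptS P).filter fun t => (t i).1 = (t j).1).card ≤ 2 * (ptS P).card ^ n := by
  have h1 := Finset.card_le_mul_card_image
    (s := (Fintype.piFinset fun _ : Fin (n + 1) => ptS P).filter fun t => (t i).1 = (t j).1)
    (f := fun t : Fin (n + 1) → F × F => j.removeNth t) 2 ?_
  · refine h1.trans (Nat.mul_le_mul_left 2 ?_)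
    have h2 : (((Fintype.piFinset fun _ : Fin (n + 1) => ptS P).filter fun t => (t i).1 = (t j).1).image
        fun t : Fin (n + 1) → F × F => j.removeNth t) ⊆ Fintype.piFinset fun _ : Fin n => ptS P := by
      intro s hs
      obtain ⟨t, ht, rfl⟩ := mem_image.1 hs
      rw [mem_filter, Fintype.mem_piFinset] at ht
      rw [Fintype.mem_piFinset]
      intro a
      exact ht.1 _
    refine (card_le_card h2).trans (le_of_eq ?_)
    rw [Fintype.card_piFinset_const]
  · intro s _
    obtain ⟨a, ha⟩ : ∃ a : Fin n, j.succAbove a = i := Fin.exists_succAbove_eq hij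
    refine le_trans ?_ (sqrt_le_two (P.eval (s a).1))
    refine card_le_card_of_injOn (fun t => (t j).2) ?_ ?_
    · intro t ht
      rw [mem_coe, mem_filter, mem_filter, Fintype.mem_piFinset] at ht
      rw [mem_coe, mem_filter]
      refine ⟨mem_univ _, ?_⟩
      have h3 := mem_ptS.1 (ht.1.1 j)
      have h4 : s a = t i := by
        rw [← ht.2, ← ha]
        rfl
      rw [h4, ht.1.2]
      exact h3
    · intro t ht t' ht' h
      rw [mem_coe, mem_filter, mem_filter] at ht ht'
      have h4 : ∀ b, t (j.succAbove b) = t' (j.succAbove b) := fun b => by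
        have e1 := congrFun ht.2 b
        have e2 := congrFun ht'.2 b
        exact e1.trans e2.symm
      have h5 : t i = t' i := by rw [← ha]; exact h4 a
      funext b
      by_cases hb : b = j
      · rw [hb]
        refine Prod.ext ?_ h
        rw [← ht.1.2, ← ht'.1.2, h5]
      · obtain ⟨c, hc⟩ := Fin.exists_succAbove_eq hb
        rw [← hc]
        exact h4 c

open Classical in
/-- the members with different abscissas: lower bound -/
lemma inj_ge (hrm : r ≤ m) (P : F[X]) (hP : P.Monic) (hd : P.natDegree = r + m) :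
    ((ptS P).card : ℝ) ^ r - (r ^ 2 * 2 ^ r) * (Fintype.card F : ℝ) ^ (r - 1) ≤
      (((fibS r m P).filter fun u => Function.Injective fun i : Fin r => u (Sum.inl i)).card : ℝ) := by
  rcases Nat.eq_zero_or_pos r with rfl | hr
  · have h1 : (ptS P).card ^ 0 ≤ ((fibS 0 m P).filter fun u => Function.Injective fun i : Fin 0 => u (Sum.inl i)).card := by
      rw [pow_zero]
      obtain ⟨u, hu, -, -⟩ := exists_uy hrm P hP hd (fun i : Fin 0 => i.elim0) (fun i => i.elim0) (fun i => i.elim0)
        (fun i => i.elim0)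
      exact card_pos.2 ⟨u, mem_filter.2 ⟨mem_fibS.2 hu, fun i => i.elim0⟩⟩
    have h2 : (((ptS P).card ^ 0 : ℕ) : ℝ) ≤ _ := (Nat.cast_le (α := ℝ)).2 h1
    push_cast at h2
    simpa using h2
  obtain ⟨n, rfl⟩ : ∃ n, r = n + 1 := ⟨r - 1, by omega⟩
  obtain ⟨A, hA⟩ : ∃ A : Finset (Fin (n + 1) → F × F), A = Fintype.piFinset fun _ : Fin (n + 1) => ptS P := ⟨_, rfl⟩
  have hAc : A.card = (ptS P).card ^ (n + 1) := by
    rw [hA, Fintype.card_piFinset_const]
  -- the tuples with different abscissas
  have h1 : (A.filter fun t => Function.Injective fun i => (t i).1).card ≤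
      ((fibS (n + 1) m P).filter fun u => Function.Injective fun i : Fin (n + 1) => u (Sum.inl i)).card := by
    have h2 : (A.filter fun t => Function.Injective fun i => (t i).1) ⊆
        ((fibS (n + 1) m P).filter fun u => Function.Injective fun i : Fin (n + 1) => u (Sum.inl i)).image
          (fun u i => (u (Sum.inl i), (lpt u).eval (u (Sum.inl i)))) := by
      intro t ht
      rw [mem_filter, hA, Fintype.mem_piFinset] at ht
      obtain ⟨u, hu, hua, huy⟩ := exists_uy hrm P hP hd (fun i => (t i).1) (fun i => (t i).2) ht.2 fun i => mem_ptS.1 (ht.1 i)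
      rw [mem_image]
      refine ⟨u, mem_filter.2 ⟨mem_fibS.2 hu, ?_⟩, ?_⟩
      · have : (fun i : Fin (n + 1) => u (Sum.inl i)) = fun i => (t i).1 := funext hua
        rw [this]
        exact ht.2
      · funext i
        rw [hua i, huy i]
    exact (card_le_card h2).trans card_image_le
  have h3 : A ⊆ (A.filter fun t => Function.Injective fun i => (t i).1) ∪
      ((univ : Finset (Fin (n + 1) × Fin (n + 1))).filter fun p => p.1 ≠ p.2).biUnion fun p => A.filter fun t => (t p.1).1 = (t p.2).1 := by
    intro t ht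
    rw [mem_union, mem_biUnion]
    by_cases hi : Function.Injective fun i => (t i).1
    · exact Or.inl (mem_filter.2 ⟨ht, hi⟩)
    · right
      unfold Function.Injective at hi
      push Not at hi
      obtain ⟨i, j, h4, h5⟩ := hi
      exact ⟨(i, j), mem_filter.2 ⟨mem_univ _, h5⟩, mem_filter.2 ⟨ht, h4⟩⟩
  have h4 := (card_le_card h3).trans ((card_union_le _ _).trans (add_le_add h1 card_biUnion_le))
  have h5 : ∑ p ∈ (univ : Finset (Fin (n + 1) × Fin (n + 1))).filter (fun p => p.1 ≠ p.2),
      (A.filter fun t => (t p.1).1 = (t p.2).1).card ≤ (n + 1) ^ 2 * (2 * (2 * Fintype.card F) ^ n) := by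
    have h6 : ∀ p ∈ (univ : Finset (Fin (n + 1) × Fin (n + 1))).filter (fun p => p.1 ≠ p.2),
        (A.filter fun t => (t p.1).1 = (t p.2).1).card ≤ 2 * (2 * Fintype.card F) ^ n := by
      intro p hp
      rw [hA]
      refine (coll_le P n p.1 p.2 (mem_filter.1 hp).2).trans ?_
      exact Nat.mul_le_mul_left 2 (Nat.pow_le_pow_left (card_ptS_le P) n)
    refine (sum_le_sum h6).trans ?_
    rw [sum_const, smul_eq_mul]
    refine Nat.mul_le_mul_right _ ?_
    refine (card_le_univ _).trans (le_of_eq ?_)
    rw [Fintype.card_prod, Fintype.card_fin, sq]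
  have h7 := (Nat.cast_le (α := ℝ)).2 (h4.trans (add_le_add le_rfl h5))
  rw [hAc] at h7
  push_cast at h7 ⊢
  have h8 : ((n : ℝ) + 1) ^ 2 * (2 * (2 * (Fintype.card F : ℝ)) ^ n) = ((n : ℝ) + 1) ^ 2 * 2 ^ (n + 1) * (Fintype.card F : ℝ) ^ n := by
    rw [mul_pow, pow_succ]
    ring
  rw [h8] at h7
  linarith

/-- the sum with the constant term taken out -/
lemma lpoly_succ (n : ℕ) (w : Fin (n + 1) → F) :
    (∑ i : Fin (n + 1), C (w i) * X ^ (i : ℕ) : F[X]) = C (w 0) + X * ∑ i : Fin n, C (w i.succ) * X ^ (i : ℕ) := by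
  rw [Fin.sum_univ_succ, mul_sum]
  congr 1
  · simp
  · refine sum_congr rfl fun i _ => ?_
    rw [Fin.val_succ, pow_succ]
    ring

/-- the polynomial with the coefficients `w` -/
noncomputable def lp {n : ℕ} (w : Fin n → F) : F[X] := ∑ i : Fin n, C (w i) * X ^ (i : ℕ)

lemma lp_succ (n : ℕ) (w : Fin (n + 1) → F) : lp w = C (w 0) + X * lp (fun i : Fin n => w i.succ) := lpoly_succ n w

lemma lp_natDegree (n : ℕ) (w : Fin n → F) : (lp w).natDegree ≤ n := by
  have h : (lp w).degree < n := sum_degree w
  exact natDegree_le_of_degree_le h.le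

/-- the polynomial whose roots are the possible multiple roots -/
noncomputable def Wp (P lo : F[X]) : F[X] := derivative P ^ 2 - C 4 * P * (derivative (X * lo)) ^ 2

lemma Wp_ne (hF : ringChar F ≠ 2) (g : ℕ) (hg : ((2 * g + 1 : ℕ) : F) ≠ 0) (P : F[X]) (hP : P.Monic) (hd : P.natDegree = 2 * g + 1)
    (lo : F[X]) (hlo : lo.natDegree ≤ g) : Wp P lo ≠ 0 ∧ (Wp P lo).natDegree ≤ 4 * g + 1 := by
  have h2F : (2 : F) ≠ 0 := Ring.two_ne_zero hF
  have h4F : (4 : F) ≠ 0 := by
    have : (4 : F) = 2 * 2 := by norm_num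
    rw [this]
    exact mul_ne_zero h2F h2F
  have h3 : (derivative P).coeff (2 * g) ≠ 0 := by
    rw [coeff_derivative, ← hd, hP.coeff_natDegree, one_mul]
    exact_mod_cast hg
  have hP'd : (derivative P).natDegree = 2 * g := by
    refine le_antisymm ?_ (le_natDegree_of_ne_zero h3)
    have := natDegree_derivative_le P
    omega
  have hP'0 : derivative P ≠ 0 := by
    intro h0
    rw [h0, coeff_zero] at h3
    exact h3 rfl
  obtain ⟨D, hD⟩ : ∃ D : F[X], D = derivative (X * lo) := ⟨_, rfl⟩
  have hDd : D.natDegree ≤ g := by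
    rw [hD]
    have h5 := natDegree_derivative_le (X * lo)
    have h6 : (X * lo).natDegree ≤ 1 + lo.natDegree := by
      refine natDegree_mul_le.trans ?_
      rw [natDegree_X]
    omega
  unfold Wp
  rw [← hD]
  constructor
  · intro h0
    rw [sub_eq_zero] at h0
    have hD0 : D ≠ 0 := by
      intro hD0
      rw [hD0, zero_pow two_ne_zero, mul_zero] at h0
      exact hP'0 (pow_eq_zero_iff two_ne_zero |>.1 h0)
    have h7 := congrArg natDegree h0
    rw [natDegree_pow, hP'd, natDegree_mul (mul_ne_zero (C_ne_zero.2 h4F) hP.ne_zero) (pow_ne_zero 2 hD0),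
      natDegree_C_mul h4F, natDegree_pow, hd] at h7
    omega
  · refine (natDegree_sub_le _ _).trans (max_le ?_ ?_)
    · rw [natDegree_pow, hP'd]
      omega
    · refine natDegree_mul_le.trans ?_
      rw [natDegree_pow]
      have h8 : (C 4 * P).natDegree ≤ 2 * g + 1 := by
        rw [natDegree_C_mul h4F, hd]
      omega

lemma Wp_root (P lo : F[X]) (w0 c : F) (h : (X - C c) ^ 2 ∣ P - (C w0 + X * lo) ^ 2) :
    (Wp P lo).eval c = 0 ∧ (w0 + c * lo.eval c) ^ 2 = P.eval c := by
  obtain ⟨H, hH⟩ := h
  have e1 : P.eval c = (w0 + c * lo.eval c) ^ 2 := by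
    have h1 := congrArg (fun f => f.eval c) hH
    simp only [eval_sub, eval_pow, eval_add, eval_mul, eval_C, eval_X, sub_self] at h1
    rw [zero_pow two_ne_zero, zero_mul, sub_eq_zero] at h1
    exact h1
  have e2 : (derivative P).eval c = 2 * (w0 + c * lo.eval c) * (derivative (X * lo)).eval c := by
    have h1 := congrArg (fun f => (derivative f).eval c) hH
    simp only [derivative_sub, derivative_pow, derivative_add, derivative_C, zero_add, eval_sub, eval_mul, eval_pow,
      eval_add, eval_C, eval_X, derivative_mul, derivative_X, sub_self] at h1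
    simp only [derivative_mul, derivative_X, eval_add, eval_mul, eval_X, one_mul, eval_one] at h1 ⊢
    norm_num at h1 ⊢
    linear_combination h1
  refine ⟨?_, e1.symm⟩
  unfold Wp
  simp only [eval_sub, eval_pow, eval_mul, eval_C]
  rw [e2, e1]
  ring

end

end Q69.OD
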