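import Pool.Agent.Q69.OD.FibB

/-!
# The number of the members of a family with a given polynomial: the estimate
-/

set_option autoImplicit false
set_option linter.unusedSectionVars false

namespace Q69.OD

open Polynomial Finset
open Q282.JK
open Pool.Agent.H341R2.Sharp

section

variable {F : Type} [Field F] [Fintype F] [DecidableEq F] {r m : ℕ}

open Classical in
/-- the coefficient vectors which lead to a multiple root -/
noncomputable def badW (n : ℕ) (P : F[X]) : Finset (Fin n → F) :=
  univ.filter fun w => ∃ c : F, (X - C c) ^ 2 ∣ P - lp w ^ 2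

open Classical in
lemma mem_badW {n : ℕ} {P : F[X]} {w : Fin n → F} : w ∈ badW n P ↔ ∃ c : F, (X - C c) ^ 2 ∣ P - lp w ^ 2 := by
  unfold badW
  rw [mem_filter]
  simp

lemma card_badW (hF : ringChar F ≠ 2) (g n : ℕ) (hn : n ≤ g) (hg : ((2 * g + 1 : ℕ) : F) ≠ 0) (P : F[X]) (hP : P.Monic)
    (hd : P.natDegree = 2 * g + 1) : (badW (n + 1) P).card ≤ (2 * (4 * g + 1)) * Fintype.card F ^ n := by
  classical
  obtain ⟨φ, hφ⟩ : ∃ φ : (Fin (n + 1) → F) → (Fin n → F), φ = fun w i => w i.succ := ⟨_, rfl⟩
  have h1 := Finset.card_le_mul_card_image (s := badW (n + 1) P) (f := φ) (2 * (4 * g + 1)) ?_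
  · refine h1.trans (Nat.mul_le_mul_left _ ?_)
    refine (card_le_univ _).trans (le_of_eq ?_)
    rw [Fintype.card_fun, Fintype.card_fin]
  · intro v _
    obtain ⟨hW0, hWd⟩ := Wp_ne hF g hg P hP hd (lp v) ((lp_natDegree n v).trans hn)
    obtain ⟨Z, hZ⟩ : ∃ Z : Finset F, Z = (Wp P (lp v)).roots.toFinset.biUnion fun c =>
      ((univ : Finset F).filter fun y => y ^ 2 = P.eval c).image fun y => y - c * (lp v).eval c := ⟨_, rfl⟩
    have hZc : Z.card ≤ 2 * (4 * g + 1) := by
      rw [hZ]
      refine card_biUnion_le.trans ((sum_le_sum fun c _ => card_image_le.trans (sqrt_le_two (P.eval c))).trans ?_)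
      rw [sum_const, smul_eq_mul, mul_comm]
      refine Nat.mul_le_mul_left 2 ?_
      exact (Multiset.toFinset_card_le _).trans ((card_roots' _).trans hWd)
    refine le_trans ?_ hZc
    refine card_le_card_of_injOn (fun w => w 0) ?_ ?_
    · intro w hw
      rw [mem_coe, mem_filter, mem_badW] at hw
      obtain ⟨⟨c, hc⟩, hv⟩ := hw
      rw [hφ] at hv
      have hlp : lp w = C (w 0) + X * lp v := by
        rw [lp_succ, ← hv]
      rw [hlp] at hc
      obtain ⟨h2, h3⟩ := Wp_root P (lp v) (w 0) c hc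
      rw [mem_coe, hZ, mem_biUnion]
      refine ⟨c, ?_, ?_⟩
      · rw [Multiset.mem_toFinset, mem_roots hW0]
        exact h2
      · rw [mem_image]
        refine ⟨w 0 + c * (lp v).eval c, mem_filter.2 ⟨mem_univ _, h3⟩, ?_⟩
        ring
    · intro w hw w' hw' h
      rw [mem_coe, mem_filter] at hw hw'
      have h4 : φ w = φ w' := hw.2.trans hw'.2.symm
      rw [hφ] at h4
      funext i
      refine Fin.cases ?_ (fun j => ?_) i
      · exact h
      · exact congrFun h4 j

open Classical in
/-- the members with equal abscissas -/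
lemma noninj_le (hF : ringChar F ≠ 2) (g n : ℕ) (hn : n + 1 ≤ g) (hrm : n + 1 + m = 2 * g + 1) (hg : ((2 * g + 1 : ℕ) : F) ≠ 0) (P : F[X])
    (hP : P.Monic) (hd : P.natDegree = 2 * g + 1) :
    ((fibS (n + 1) m P).filter fun u => ¬ Function.Injective fun i : Fin (n + 1) => u (Sum.inl i)).card ≤
      (2 * g + 1) ^ (n + 1) * ((2 * (4 * g + 1)) * Fintype.card F ^ n) := by
  obtain ⟨U, hU⟩ : ∃ U : Finset (Idx (n + 1) m → F),
    U = (fibS (n + 1) m P).filter fun u => ¬ Function.Injective fun i : Fin (n + 1) => u (Sum.inl i) := ⟨_, rfl⟩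
  rw [← hU]
  have hlpt : ∀ u : Idx (n + 1) m → F, lpt u = lp fun i => u (Sum.inr (Sum.inr i)) := fun u => rfl
  have h1 := Finset.card_le_mul_card_image (s := U) (f := fun (u : Idx (n + 1) m → F) (i : Fin (n + 1)) => u (Sum.inr (Sum.inr i)))
    ((2 * g + 1) ^ (n + 1)) ?_
  · refine h1.trans (Nat.mul_le_mul_left _ ?_)
    refine le_trans (card_le_card ?_) (card_badW hF g n (by omega) hg P hP hd)
    intro w hw
    obtain ⟨u, hu, rfl⟩ := mem_image.1 hw
    rw [hU, mem_filter, mem_fibS] at hu
    rw [mem_badW]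
    obtain ⟨hu1, hu2⟩ := hu
    unfold Function.Injective at hu2
    push Not at hu2
    obtain ⟨i, j, hij, hne⟩ := hu2
    refine ⟨u (Sum.inl i), ?_⟩
    rw [← hlpt, ← hu1]
    have h2 : fpol u - lpt u ^ 2 = mpt u * hpt u := by
      unfold fpol
      ring
    rw [h2]
    refine Dvd.dvd.mul_right ?_ _
    unfold mpt
    have h3 : ∏ k ∈ ({i, j} : Finset (Fin (n + 1))), (X - C (u (Sum.inl k))) ∣ ∏ k : Fin (n + 1), (X - C (u (Sum.inl k))) :=
      prod_dvd_prod_of_subset _ _ _ (subset_univ _)
    rw [prod_pair hne] at h3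
    have hij' : u (Sum.inl i) = u (Sum.inl j) := hij
    rw [← hij'] at h3
    rw [sq]
    exact h3
  · intro w _
    have hPl : (P - lp w ^ 2).Monic ∧ (P - lp w ^ 2).natDegree = 2 * g + 1 := by
      have hL2 : (lp w ^ 2).degree < P.degree := by
        have := lpt_sq_degree (R := F) (by omega : n + 1 ≤ m) (Sum.elim (fun _ => (0 : F)) (Sum.elim (fun _ : Fin m => (0 : F)) w))
        rw [degree_eq_natDegree hP.ne_zero, hd, ← hrm]
        exact this
      constructor
      · rw [sub_eq_add_neg]
        refine hP.add_of_left ?_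
        rw [degree_neg]
        exact hL2
      · rw [← hd]
        exact natDegree_eq_of_degree_eq (degree_sub_eq_left_of_degree_lt hL2)
    have h4 : (U.filter fun u => (fun i : Fin (n + 1) => u (Sum.inr (Sum.inr i))) = w).card ≤
        (Fintype.piFinset fun _ : Fin (n + 1) => (P - lp w ^ 2).roots.toFinset).card := by
      refine card_le_card_of_injOn (fun u i => u (Sum.inl i)) ?_ ?_
      · intro u hu
        rw [mem_coe, mem_filter, hU, mem_filter, mem_fibS] at hu
        rw [mem_coe, Fintype.mem_piFinset]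
        intro i
        rw [Multiset.mem_toFinset, mem_roots hPl.1.ne_zero, IsRoot.def, eval_sub, eval_pow]
        have h5 := fpol_eval u i
        rw [hu.1.1, hlpt, hu.2] at h5
        rw [h5, sub_self]
      · intro u hu u' hu' h
        rw [mem_coe, mem_filter, hU, mem_filter, mem_fibS] at hu hu'
        refine eq_of_a_l hu.1.1 hu'.1.1 (fun i => congrFun h i) ?_
        rw [hlpt, hlpt, hu.2, hu'.2]
    refine h4.trans ?_
    rw [Fintype.card_piFinset_const]
    refine Nat.pow_le_pow_left ?_ _
    exact (Multiset.toFinset_card_le _).trans ((card_roots' _).trans hPl.2.le)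

open Classical in
/-- the number of the members with a given polynomial -/
theorem fib_bound (hF : ringChar F ≠ 2) (g : ℕ) (hrm : r + m = 2 * g + 1) (hr : r ≤ g) (hg : ((2 * g + 1 : ℕ) : F) ≠ 0) (P : F[X])
    (hP : P.Monic) (hd : P.natDegree = 2 * g + 1) :
    |((fibS r m P).card : ℝ) - ((ptS P).card : ℝ) ^ r| ≤
      (r ^ 2 * 2 ^ r + (2 * g + 1) ^ r * (2 * (4 * g + 1))) * (Fintype.card F : ℝ) ^ (r - 1) := by
  have hsplit : ((fibS r m P).card : ℝ) = (((fibS r m P).filter fun u => Function.Injective fun i : Fin r => u (Sum.inl i)).card : ℝ) +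
      (((fibS r m P).filter fun u => ¬ Function.Injective fun i : Fin r => u (Sum.inl i)).card : ℝ) := by
    have h := card_filter_add_card_filter_not (s := fibS r m P) (fun u => Function.Injective fun i : Fin r => u (Sum.inl i))
    exact_mod_cast h.symm
  have h1 := inj_ge (by omega : r ≤ m) P hP (by rw [hd, hrm])
  have h2 : (((fibS r m P).filter fun u => Function.Injective fun i : Fin r => u (Sum.inl i)).card : ℝ) ≤ ((ptS P).card : ℝ) ^ r := by
    exact_mod_cast inj_le P
  have h3 : (((fibS r m P).filter fun u => ¬ Function.Injective fun i : Fin r => u (Sum.inl i)).card : ℝ) ≤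
      ((2 * g + 1) ^ r * (2 * (4 * g + 1))) * (Fintype.card F : ℝ) ^ (r - 1) := by
    rcases Nat.eq_zero_or_pos r with rfl | hr0
    · have h4 : ((fibS 0 m P).filter fun u => ¬ Function.Injective fun i : Fin 0 => u (Sum.inl i)) = ∅ := by
        rw [filter_eq_empty_iff]
        intro u _ h
        exact h fun i => i.elim0
      rw [h4, card_empty, Nat.cast_zero]
      positivity
    · obtain ⟨n, rfl⟩ : ∃ n, r = n + 1 := ⟨r - 1, by omega⟩
      have h4 := (Nat.cast_le (α := ℝ)).2 (noninj_le hF g n hr hrm hg P hP hd)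
      push_cast at h4 ⊢
      rw [mul_assoc]
      simpa using h4
  have h4 : (0 : ℝ) ≤ (((fibS r m P).filter fun u => ¬ Function.Injective fun i : Fin r => u (Sum.inl i)).card : ℝ) := Nat.cast_nonneg _
  have hq : (0 : ℝ) ≤ (Fintype.card F : ℝ) ^ (r - 1) := by positivity
  have h5 : (0 : ℝ) ≤ (r ^ 2 * 2 ^ r) * (Fintype.card F : ℝ) ^ (r - 1) := by positivity
  have h6 : (0 : ℝ) ≤ ((2 * g + 1) ^ r * (2 * (4 * g + 1))) * (Fintype.card F : ℝ) ^ (r - 1) := by positivity
  rw [hsplit, abs_le, add_mul]
  constructor <;> linarith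

end

end Q69.OD
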