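import Pool.Agent.Q69.OD.FibC

/-!
# The local likelihood ratio
-/

set_option autoImplicit false
set_option linter.unusedSectionVars false

namespace Q69.OD

open Polynomial Finset
open Q282.JK
open Pool.Agent.H341R2.Sharp

lemma pow_taylor (t : ℝ) (ht : |t| ≤ 1) (r : ℕ) : |(1 + t) ^ r - 1 - r * t| ≤ 4 ^ r * t ^ 2 := by
  induction r with
  | zero => simp; positivity
  | succ r ih =>
    have e : (1 + t) ^ (r + 1) - 1 - ((r + 1 : ℕ) : ℝ) * t = (1 + t) * ((1 + t) ^ r - 1 - r * t) + r * t ^ 2 := by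
      push_cast
      ring
    rw [e]
    refine (abs_add_le _ _).trans ?_
    rw [abs_mul, abs_mul, abs_of_nonneg (sq_nonneg t), abs_of_nonneg (Nat.cast_nonneg r : (0 : ℝ) ≤ r)]
    have h1 : |1 + t| ≤ 2 := by
      refine (abs_add_le _ _).trans ?_
      rw [abs_one]
      linarith
    have h2 : |1 + t| * |(1 + t) ^ r - 1 - r * t| ≤ 2 * (4 ^ r * t ^ 2) := mul_le_mul h1 ih (abs_nonneg _) two_pos.le
    have h3 : (r : ℝ) ≤ 2 * 4 ^ r := by
      have h4 : r < 4 ^ r := Nat.lt_pow_self (by norm_num)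
      have h5 : (r : ℝ) < 4 ^ r := by exact_mod_cast h4
      have h6 : (0 : ℝ) ≤ 4 ^ r := by positivity
      linarith
    have h4 := mul_le_mul_of_nonneg_right h3 (sq_nonneg t)
    have h5 : (4 : ℝ) ^ (r + 1) = 4 ^ r * 4 := pow_succ 4 r
    rw [h5]
    linarith

lemma log_near (z : ℝ) (hz : |z| ≤ 1 / 2) : |Real.log (1 + z) - z| ≤ 2 * z ^ 2 := by
  have h1 := abs_le.1 hz
  have h0 : 0 < 1 + z := by linarith [h1.1]
  have h2 : Real.log (1 + z) ≤ z := by
    have := Real.log_le_sub_one_of_pos h0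
    linarith
  have h3 : z - 2 * z ^ 2 ≤ Real.log (1 + z) := by
    have h4 := Real.one_sub_inv_le_log_of_pos h0
    refine le_trans ?_ h4
    have h5 : 1 - (1 + z)⁻¹ = z / (1 + z) := by
      field_simp
      ring
    rw [h5, le_div_iff₀ h0]
    nlinarith [sq_nonneg z, h1.1]
  rw [abs_le]
  constructor <;> nlinarith [sq_nonneg z]

/-- the logarithm of a perturbed power -/
lemma log_pert (r : ℕ) (a C s ψ t : ℝ) (ha : 0 ≤ a) (hC : 0 ≤ C) (hs : 1 ≤ s) (ht : |t| ≤ a / s) (hψ : |ψ - (1 + t) ^ r| ≤ C / s ^ 2)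
    (hs2 : 2 * (a + r * a + (4 ^ r * a ^ 2 + C)) ≤ s) :
    0 < ψ ∧ |Real.log ψ - r * t| ≤ ((4 ^ r * a ^ 2 + C) + 2 * (r * a + (4 ^ r * a ^ 2 + C)) ^ 2) / s ^ 2 := by
  have hs0 : 0 < s := by linarith
  obtain ⟨E, hE⟩ : ∃ E : ℝ, E = 4 ^ r * a ^ 2 + C := ⟨_, rfl⟩
  rw [← hE] at hs2 ⊢
  have hE0 : 0 ≤ E := by rw [hE]; positivity
  have hra : 0 ≤ r * a := by positivity
  have ht1 : |t| ≤ 1 := by
    refine ht.trans ?_
    rw [div_le_one hs0]
    linarith
  have h1 := pow_taylor t ht1 r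
  have ht2 : t ^ 2 ≤ a ^ 2 / s ^ 2 := by
    rw [← sq_abs t, ← div_pow]
    exact pow_le_pow_left₀ (abs_nonneg _) ht 2
  obtain ⟨z, hz⟩ : ∃ z : ℝ, z = ψ - 1 := ⟨_, rfl⟩
  have hψz : ψ = 1 + z := by rw [hz]; ring
  have h2 : |z - r * t| ≤ E / s ^ 2 := by
    have e : z - r * t = (ψ - (1 + t) ^ r) + ((1 + t) ^ r - 1 - r * t) := by rw [hz]; ring
    rw [e]
    refine (abs_add_le _ _).trans ?_
    have h3 : 4 ^ r * t ^ 2 ≤ 4 ^ r * (a ^ 2 / s ^ 2) := mul_le_mul_of_nonneg_left ht2 (by positivity)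
    have h4 : E / s ^ 2 = C / s ^ 2 + 4 ^ r * (a ^ 2 / s ^ 2) := by rw [hE]; ring
    rw [h4]
    linarith
  have h3 : |z| ≤ (r * a + E) / s := by
    have e : z = r * t + (z - r * t) := by ring
    rw [e]
    refine (abs_add_le _ _).trans ?_
    rw [abs_mul, abs_of_nonneg (Nat.cast_nonneg r : (0 : ℝ) ≤ r), add_div]
    refine add_le_add ?_ (h2.trans ?_)
    · rw [mul_div_assoc]
      exact mul_le_mul_of_nonneg_left ht (Nat.cast_nonneg r)
    · exact div_le_div_of_nonneg_left hE0 hs0 (le_self_pow₀ hs two_ne_zero)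
  have h4 : |z| ≤ 1 / 2 := by
    refine h3.trans ?_
    rw [div_le_div_iff₀ hs0 two_pos]
    linarith
  have h5 := log_near z h4
  have hz1 := (abs_le.1 h4).1
  refine ⟨by rw [hψz]; linarith, ?_⟩
  have e : Real.log ψ - r * t = (Real.log (1 + z) - z) + (z - r * t) := by rw [hψz]; ring
  rw [e]
  refine (abs_add_le _ _).trans ?_
  have h6 : z ^ 2 ≤ (r * a + E) ^ 2 / s ^ 2 := by
    rw [← sq_abs z, ← div_pow]
    exact pow_le_pow_left₀ (abs_nonneg _) h3 2
  have h7 : (E + 2 * (r * a + E) ^ 2) / s ^ 2 = E / s ^ 2 + 2 * ((r * a + E) ^ 2 / s ^ 2) := by ring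
  rw [h7]
  linarith

section

variable {F : Type} [Field F] [Fintype F] [DecidableEq F] {r m : ℕ}

/-- members from polynomials -/
lemma exists_of_dvd (hrm : r ≤ m) (P : F[X]) (hP : P.Monic) (hd : P.natDegree = r + m) (a : Fin r → F) (L : F[X])
    (hLd : L.degree < r) (hdvd : (∏ i : Fin r, (X - C (a i))) ∣ P - L ^ 2) : ∃ u : Idx r m → F, fpol u = P := by
  obtain ⟨c, hc⟩ := Q282.HL.exists_low hLd
  obtain ⟨H, hH⟩ := hdvd
  have hMm : (∏ i : Fin r, (X - C (a i))).Monic := monic_prod_of_monic _ _ fun _ _ => monic_X_sub_C _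
  have hMd : (∏ i : Fin r, (X - C (a i))).natDegree = r := by
    rw [natDegree_prod_of_monic _ _ fun _ _ => monic_X_sub_C _]
    simp
  have hL2 : (L ^ 2).degree < P.degree := by
    have := lpt_sq_degree (R := F) hrm (Sum.elim a (Sum.elim (fun _ : Fin m => (0 : F)) c))
    rw [degree_eq_natDegree hP.ne_zero, hd]
    have e : lpt (Sum.elim a (Sum.elim (fun _ : Fin m => (0 : F)) c)) = L := by
      rw [← hc]
      rfl
    rw [e] at this
    exact this
  have hPm : (P - L ^ 2).Monic := by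
    rw [sub_eq_add_neg]
    refine hP.add_of_left ?_
    rw [degree_neg]
    exact hL2
  have hPd : (P - L ^ 2).natDegree = r + m := by
    rw [← hd]
    exact natDegree_eq_of_degree_eq (degree_sub_eq_left_of_degree_lt hL2)
  have hHm : H.Monic := hMm.of_mul_monic_left (by rw [← hH]; exact hPm)
  have hHd : H.natDegree = m := by
    rw [hH, hMm.natDegree_mul hHm, hMd] at hPd
    omega
  have hHX : (H - X ^ m).degree < (m : WithBot ℕ) := by
    have h3 : (H - X ^ m).degree < H.degree := by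
      refine degree_sub_lt_left ?_ hHm.ne_zero ?_
      · rw [degree_X_pow, degree_eq_natDegree hHm.ne_zero, hHd]
      · rw [hHm.leadingCoeff, leadingCoeff_X_pow]
    rwa [degree_eq_natDegree hHm.ne_zero, hHd] at h3
  obtain ⟨b, hb⟩ := Q282.HL.exists_low hHX
  have e1 : mpt (Sum.elim a (Sum.elim b c)) = ∏ i : Fin r, (X - C (a i)) := rfl
  have e2 : lpt (Sum.elim a (Sum.elim b c)) = L := by
    rw [← hc]
    rfl
  have e3 : hpt (Sum.elim a (Sum.elim b c)) = H := by
    have h4 : hpt (Sum.elim a (Sum.elim b c)) = X ^ m + Q282.HL.low m b := rfl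
    rw [h4, hb]
    ring
  refine ⟨Sum.elim a (Sum.elim b c), ?_⟩
  unfold fpol
  rw [e1, e2, e3, ← hH]
  ring

/-- fewer marked points -/
lemma fib_pos_of_le {r' m' : ℕ} (hrr : r ≤ r') (hrm : r ≤ m) (hrm' : r' ≤ m') (hs : r + m = r' + m') (u' : Idx r' m' → F) :
    ∃ u : Idx r m → F, fpol u = fpol u' := by
  have hmon := fpol_monic (R := F) hrm' u'
  have hdeg := fpol_natDegree (R := F) hrm' u'
  obtain ⟨M, hM⟩ : ∃ M : F[X], M = ∏ i : Fin r, (X - C (u' (Sum.inl (Fin.castLE hrr i)))) := ⟨_, rfl⟩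
  have hMm : M.Monic := by rw [hM]; exact monic_prod_of_monic _ _ fun _ _ => monic_X_sub_C _
  have hMd : M.natDegree = r := by
    rw [hM, natDegree_prod_of_monic _ _ fun _ _ => monic_X_sub_C _]
    simp
  refine exists_of_dvd hrm (fpol u') hmon (by rw [hdeg, hs]) (fun i => u' (Sum.inl (Fin.castLE hrr i))) (lpt u' %ₘ M) ?_ ?_
  · have h1 := degree_modByMonic_lt (lpt u') hMm
    rwa [degree_eq_natDegree hMm.ne_zero, hMd] at h1
  · rw [← hM]
    have h1 : M ∣ mpt u' := by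
      rw [hM]
      unfold mpt
      have h2 := prod_dvd_prod_of_subset (univ.image (Fin.castLE hrr)) (univ : Finset (Fin r'))
        (fun i => (X - C (u' (Sum.inl i)) : F[X])) (subset_univ _)
      rwa [prod_image (fun i _ j _ h => Fin.castLE_injective hrr h)] at h2
    have h2 : M ∣ lpt u' - lpt u' %ₘ M := by
      have h3 := modByMonic_add_div (lpt u') M
      refine ⟨lpt u' /ₘ M, ?_⟩
      linear_combination -h3
    have h3 : fpol u' - (lpt u' %ₘ M) ^ 2 = mpt u' * hpt u' + (lpt u' - lpt u' %ₘ M) * (lpt u' + lpt u' %ₘ M) := by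
      unfold fpol
      ring
    rw [h3]
    exact dvd_add (h1.mul_right _) (h2.mul_right _)

/-- the normalised number of the members with the polynomial `P` -/
noncomputable def psi (r m : ℕ) (P : F[X]) : ℝ := ((fibS r m P).card : ℝ) / (Fintype.card F : ℝ) ^ r

open Classical in
/-- the local value -/
noncomputable def locv (g : ℕ) (P : F[X]) : ℝ := if (2 : F) ≠ 0 ∧ Squarefree P then Real.log (lv g P) else 0

lemma locv_locJ (g : ℕ) (u : Idx r m → F) : locv g (fpol u) = locJ g u := rfl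

end

/-- the logarithm of the number of the members with the polynomial `P` -/
theorem psi_log (g r m : ℕ) (hrm : r + m = 2 * g + 1) (hr : r ≤ g) : ∃ C : ℝ, 0 ≤ C ∧ ∃ s₀ : ℝ, 1 ≤ s₀ ∧
    ∀ (F : Type) [Field F] [Fintype F] [DecidableEq F], ringChar F ≠ 2 → ((2 * g + 1 : ℕ) : F) ≠ 0 → s₀ ≤ Real.sqrt (Fintype.card F) →
    ∀ P : F[X], P.Monic → P.natDegree = 2 * g + 1 →
      0 < psi r m P ∧ |Real.log (psi r m P) - r * ((T P 1 : ℝ) / Fintype.card F)| ≤ C / Fintype.card F := by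
  obtain ⟨a, ha⟩ : ∃ a : ℝ, a = 5 * (2 * g + 1) := ⟨_, rfl⟩
  obtain ⟨C₀, hC₀⟩ : ∃ C₀ : ℝ, C₀ = r ^ 2 * 2 ^ r + (2 * g + 1) ^ r * (2 * (4 * g + 1)) := ⟨_, rfl⟩
  have ha0 : 0 ≤ a := by rw [ha]; positivity
  have hC₀0 : 0 ≤ C₀ := by rw [hC₀]; positivity
  refine ⟨(4 ^ r * a ^ 2 + C₀) + 2 * (r * a + (4 ^ r * a ^ 2 + C₀)) ^ 2, by positivity,
    1 + 2 * (a + r * a + (4 ^ r * a ^ 2 + C₀)), le_add_of_nonneg_right (by positivity), ?_⟩
  intro F _ _ _ hF hg hs₀ P hP hd
  obtain ⟨q, hq⟩ : ∃ q : ℝ, q = Fintype.card F := ⟨_, rfl⟩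
  obtain ⟨s, hs⟩ : ∃ s : ℝ, s = Real.sqrt q := ⟨_, rfl⟩
  rw [← hq, ← hs] at hs₀
  have hq0 : 0 < q := by rw [hq]; exact_mod_cast Fintype.card_pos
  have hsq : s ^ 2 = q := by
    rw [hs]
    exact Real.sq_sqrt hq0.le
  have hs1 : 1 ≤ s := by
    have : 0 ≤ 2 * (a + r * a + (4 ^ r * a ^ 2 + C₀)) := by positivity
    linarith
  have hs0 : 0 < s := by linarith
  obtain ⟨t, ht⟩ : ∃ t : ℝ, t = (T P 1 : ℝ) / q := ⟨_, rfl⟩
  have htb : |t| ≤ a / s := by
    have h1 := (T_bound hF hP (by omega) (odd_ns hP hd) 1 le_rfl).1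
    rw [← hq, ← hs, hd, pow_one] at h1
    rw [ht, abs_div, abs_of_pos hq0, div_le_div_iff₀ hq0 hs0]
    have h2 := mul_le_mul_of_nonneg_right h1 hs0.le
    refine h2.trans (le_of_eq ?_)
    rw [ha, ← hsq]
    push_cast
    ring
  have hN : ((ptS P).card : ℝ) / q = 1 + t := by
    rw [card_ptS hF P, ← hq, ht]
    field_simp
  have hψ : |psi r m P - (1 + t) ^ r| ≤ C₀ / s ^ 2 := by
    rw [← hN, hsq]
    unfold psi
    rw [← hq, div_pow, ← sub_div, abs_div, abs_of_pos (by positivity : 0 < q ^ r), div_le_div_iff₀ (by positivity) hq0]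
    have h1 := fib_bound hF g hrm hr hg P hP hd
    rw [← hq, ← hC₀] at h1
    rcases Nat.eq_zero_or_pos r with rfl | hr0
    · -- no marked points
      have h2 : (fibS 0 m P).card = 1 := by
        refine card_eq_one.2 ?_
        obtain ⟨u, hu, -, -⟩ := exists_uy (by omega : 0 ≤ m) P hP (by rw [hd, hrm]) (fun i : Fin 0 => i.elim0) (fun i => i.elim0)
          (fun i => i.elim0) (fun i => i.elim0)
        refine ⟨u, ?_⟩
        ext w
        rw [mem_fibS, mem_singleton]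
        constructor
        · intro hw
          refine eq_of_a_l hw hu (fun i => i.elim0) ?_
          unfold lpt
          simp
        · rintro rfl
          exact hu
      have h3 : |((1 : ℕ) : ℝ) - ((ptS P).card : ℝ) ^ 0| * q = 0 := by simp
      rw [h2, h3]
      exact mul_nonneg hC₀0 (by positivity)
    · have h2 : q ^ r = q ^ (r - 1) * q := by
        rw [← pow_succ]
        congr 1
        omega
      rw [h2]
      calc |((fibS r m P).card : ℝ) - ((ptS P).card : ℝ) ^ r| * q ≤ C₀ * q ^ (r - 1) * q := mul_le_mul_of_nonneg_right h1 hq0.le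
        _ = C₀ * (q ^ (r - 1) * q) := by ring
  have h := log_pert r a C₀ s (psi r m P) t ha0 hC₀0 hs1 htb hψ (by linarith)
  rw [hsq, ht, hq] at h
  exact h

/-- the local likelihood ratio -/
theorem loc_bounds (g r r' m m' : ℕ) (hrm : r + m = 2 * g + 1) (hrm' : r' + m' = 2 * g + 1) (hr : r ≤ g) (hr' : r' ≤ g) :
    ∃ C : ℝ, 0 ≤ C ∧ ∃ s₀ : ℝ, 1 ≤ s₀ ∧
    ∀ (F : Type) [Field F] [Fintype F] [DecidableEq F], ringChar F ≠ 2 → ((2 * g + 1 : ℕ) : F) ≠ 0 → s₀ ≤ Real.sqrt (Fintype.card F) →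
    ∀ P : F[X], P.Monic → P.natDegree = 2 * g + 1 →
      0 < psi r m P ∧ 0 < psi r' m' P ∧
      |Real.log (psi r' m' P / psi r m P) - ((r' : ℝ) - r) * locv g P| ≤ C / Real.sqrt (Fintype.card F) ∧
      (Squarefree P → |Real.log (psi r' m' P / psi r m P) - ((r' : ℝ) - r) * locv g P| ≤ C / Fintype.card F) ∧
      |psi r' m' P / psi r m P - 1| ≤ C / Real.sqrt (Fintype.card F) := by
  obtain ⟨C₁, hC₁, s₁, hs₁, h1⟩ := psi_log g r m hrm hr
  obtain ⟨C₂, hC₂, s₂, hs₂, h2⟩ := psi_log g r' m' hrm' hr'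
  obtain ⟨B, hB, h3⟩ := lv_log g
  obtain ⟨a, ha⟩ : ∃ a : ℝ, a = 5 * (2 * g + 1) := ⟨_, rfl⟩
  have ha0 : 0 ≤ a := by rw [ha]; positivity
  obtain ⟨κ, hκ⟩ : ∃ κ : ℝ, κ = |(r' : ℝ) - r| := ⟨_, rfl⟩
  have hκ0 : 0 ≤ κ := by rw [hκ]; exact abs_nonneg _
  obtain ⟨D, hD⟩ : ∃ D : ℝ, D = C₁ + C₂ + κ * (a + B) := ⟨_, rfl⟩
  have hD0 : 0 ≤ D := by rw [hD]; positivity
  refine ⟨D + D * Real.exp D, by positivity, max s₁ s₂, hs₁.trans (le_max_left _ _), ?_⟩
  intro F _ _ _ hF hg hs₀ P hP hd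
  obtain ⟨p1, g1⟩ := h1 F hF hg ((le_max_left _ _).trans hs₀) P hP hd
  obtain ⟨p2, g2⟩ := h2 F hF hg ((le_max_right _ _).trans hs₀) P hP hd
  obtain ⟨g3, g4⟩ := h3 F hF P hP hd
  obtain ⟨q, hq⟩ : ∃ q : ℝ, q = Fintype.card F := ⟨_, rfl⟩
  obtain ⟨s, hs⟩ : ∃ s : ℝ, s = Real.sqrt q := ⟨_, rfl⟩
  have hs1 : 1 ≤ s := by
    rw [hs, hq]
    exact hs₁.trans ((le_max_left _ _).trans hs₀)
  have hs0 : 0 < s := by linarith
  have hq0 : 0 < q := by rw [hq]; exact_mod_cast Fintype.card_pos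
  have hsq : s ^ 2 = q := by
    rw [hs]
    exact Real.sq_sqrt hq0.le
  have hsle : s ≤ q := by
    rw [← hsq]
    nlinarith
  obtain ⟨t, ht⟩ : ∃ t : ℝ, t = (T P 1 : ℝ) / q := ⟨_, rfl⟩
  have hT : ∀ k : ℕ, 1 ≤ k → |(T P k : ℝ)| ≤ a * s ^ k := by
    intro k hk
    have h4 := (T_bound hF hP (by omega) (odd_ns hP hd) k hk).1
    rw [hd, ← hq, ← hs] at h4
    refine h4.trans (le_of_eq ?_)
    rw [ha]
    push_cast
    ring
  have htb : |t| ≤ a / s := by
    rw [ht, abs_div, abs_of_pos hq0, div_le_div_iff₀ hq0 hs0]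
    have h2 := mul_le_mul_of_nonneg_right (hT 1 le_rfl) hs0.le
    refine h2.trans (le_of_eq ?_)
    rw [← hsq]
    ring
  rw [← hq, ← ht] at g1 g2 g4
  rw [← hq, ← hs] at g3
  rw [← hs] at g4
  rw [← hq, ← hs]
  have hlog : Real.log (psi r' m' P / psi r m P) = Real.log (psi r' m' P) - Real.log (psi r m P) :=
    Real.log_div p2.ne' p1.ne'
  have h5 : |Real.log (psi r' m' P / psi r m P) - ((r' : ℝ) - r) * t| ≤ (C₁ + C₂) / q := by
    rw [hlog]
    have e : Real.log (psi r' m' P) - Real.log (psi r m P) - ((r' : ℝ) - r) * t =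
        (Real.log (psi r' m' P) - r' * t) - (Real.log (psi r m P) - r * t) := by ring
    rw [e, add_div]
    refine (abs_sub _ _).trans ?_
    linarith
  have hle : ∀ x : ℝ, 0 ≤ x → x / q ≤ x / s := fun x hx => div_le_div_of_nonneg_left hx hs0 hsle
  have hDle : D ≤ D + D * Real.exp D := le_add_of_nonneg_right (by positivity)
  have h6 : |Real.log (psi r' m' P / psi r m P)| ≤ D / s := by
    have e : Real.log (psi r' m' P / psi r m P) = (Real.log (psi r' m' P / psi r m P) - ((r' : ℝ) - r) * t) + ((r' : ℝ) - r) * t := by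
      ring
    rw [e]
    refine (abs_add_le _ _).trans ?_
    rw [abs_mul, ← hκ]
    have h7 : κ * |t| ≤ κ * (a / s) := mul_le_mul_of_nonneg_left htb hκ0
    have h8 := h5.trans (hle _ (by positivity))
    have h9 : D / s = (C₁ + C₂) / s + κ * (a / s) + κ * B / s := by
      rw [hD]
      ring
    have h10 : 0 ≤ κ * B / s := by positivity
    rw [h9]
    linarith
  refine ⟨p1, p2, ?_, ?_, ?_⟩
  · -- all polynomials
    unfold locv
    split_ifs with hc
    · have e : Real.log (psi r' m' P / psi r m P) - ((r' : ℝ) - r) * Real.log (lv g P) =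
          (Real.log (psi r' m' P / psi r m P) - ((r' : ℝ) - r) * t) + ((r' : ℝ) - r) * (t - Real.log (lv g P)) := by ring
      rw [e]
      refine (abs_add_le _ _).trans ?_
      rw [abs_mul, ← hκ]
      have h7 : |t - Real.log (lv g P)| ≤ (a + B) / s := by
        refine (abs_sub _ _).trans ?_
        rw [add_div]
        linarith
      have h8 := h5.trans (hle _ (by positivity))
      have h9 := mul_le_mul_of_nonneg_left h7 hκ0
      have h10 : (D + D * Real.exp D) / s = (C₁ + C₂) / s + κ * ((a + B) / s) + D * Real.exp D / s := by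
        rw [add_div, hD]
        ring
      have h11 : 0 ≤ D * Real.exp D / s := by positivity
      rw [h10]
      linarith
    · rw [mul_zero, sub_zero]
      exact h6.trans (div_le_div_of_nonneg_right hDle hs0.le)
  · -- squarefree polynomials
    intro hsf
    unfold locv
    rw [if_pos ⟨Ring.two_ne_zero hF, hsf⟩]
    have e : Real.log (psi r' m' P / psi r m P) - ((r' : ℝ) - r) * Real.log (lv g P) =
        (Real.log (psi r' m' P / psi r m P) - ((r' : ℝ) - r) * t) + ((r' : ℝ) - r) * (t - Real.log (lv g P)) := by ring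
    rw [e]
    refine (abs_add_le _ _).trans ?_
    rw [abs_mul, ← hκ]
    have h7 : |t - Real.log (lv g P)| ≤ (a + B) / q := by
      have e2 : t - Real.log (lv g P) = -((T P 2 : ℝ) / (2 * q ^ 2)) - (Real.log (lv g P) - (t + (T P 2 : ℝ) / (2 * q ^ 2))) := by ring
      rw [e2]
      refine (abs_sub _ _).trans ?_
      rw [abs_neg]
      have h8 : |(T P 2 : ℝ) / (2 * q ^ 2)| ≤ a / q := by
        rw [abs_div, abs_of_pos (by positivity : 0 < 2 * q ^ 2), div_le_div_iff₀ (by positivity) hq0]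
        have h9 := hT 2 (by norm_num)
        rw [hsq] at h9
        have h10 := mul_le_mul_of_nonneg_right h9 hq0.le
        have h11 : 0 ≤ a * q ^ 2 := by positivity
        nlinarith
      have h9 : B / s ^ 3 ≤ B / q := by
        rw [← hsq]
        exact div_le_div_of_nonneg_left hB (by positivity) (pow_le_pow_right₀ hs1 (by norm_num))
      rw [add_div]
      linarith
    have h9 := mul_le_mul_of_nonneg_left h7 hκ0
    have h10 : (D + D * Real.exp D) / q = (C₁ + C₂) / q + κ * ((a + B) / q) + D * Real.exp D / q := by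
      rw [add_div, hD]
      ring
    have h11 : 0 ≤ D * Real.exp D / q := by positivity
    rw [h10]
    linarith
  · -- the ratio
    have hpos : 0 < psi r' m' P / psi r m P := div_pos p2 p1
    obtain ⟨x, hx⟩ : ∃ x : ℝ, x = Real.log (psi r' m' P / psi r m P) := ⟨_, rfl⟩
    have hex : psi r' m' P / psi r m P = Real.exp x := by rw [hx, Real.exp_log hpos]
    rw [← hx] at h6
    rw [hex]
    have h7 : |x| ≤ D := h6.trans (div_le_self hD0 hs1)
    have h8 : |Real.exp x - 1| ≤ |x| * Real.exp |x| := by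
      rcases le_total 0 x with h | h
      · rw [abs_of_nonneg h, abs_of_nonneg (by linarith [Real.add_one_le_exp x])]
        have h9 := Real.one_sub_le_exp_neg x
        have h10 : Real.exp x * Real.exp (-x) = 1 := by rw [← Real.exp_add]; simp
        nlinarith [Real.exp_pos x]
      · rw [abs_of_nonpos h]
        have h9 := Real.add_one_le_exp x
        have h10 : Real.exp x ≤ 1 := Real.exp_le_one_iff.2 h
        rw [abs_of_nonpos (by linarith)]
        have h11 : 1 ≤ Real.exp (-x) := Real.one_le_exp (by linarith)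
        nlinarith
    refine h8.trans ?_
    have h9 : |x| * Real.exp |x| ≤ D / s * Real.exp D :=
      mul_le_mul h6 (Real.exp_le_exp.2 h7) (Real.exp_pos _).le (by positivity)
    refine h9.trans ?_
    have h10 : (D + D * Real.exp D) / s = D / s + D / s * Real.exp D := by ring
    have h11 : 0 ≤ D / s := by positivity
    rw [h10]
    linarith

end Q69.OD
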