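import Pool.Agent.Q69.OD.Xi

/-!
# The likelihood ratio of two families in a product of finite fields
-/

set_option autoImplicit false
set_option linter.unusedSectionVars false

namespace Q69.OD

open Polynomial Finset
open Q282.JK
open Pool.Agent.H341R2.Sharp

section

variable {S : Type} [Fintype S] [DecidableEq S] {F : S → Type} [∀ v, Field (F v)] [∀ v, Fintype (F v)] [∀ v, DecidableEq (F v)]
  {r m r' m' : ℕ}

/-- the polynomials -/
noncomputable def DD (u : (v : S) → Idx r m → F v) : (v : S) → (F v)[X] := fun v => fpol (u v)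

open Classical in
lemma fib_prod (P : (v : S) → (F v)[X]) :
    ((univ : Finset ((v : S) → Idx r m → F v)).filter fun u => DD u = P).card = ∏ v, (fibS r m (P v)).card := by
  rw [← Fintype.card_piFinset]
  congr 1
  ext u
  rw [mem_filter, Fintype.mem_piFinset]
  constructor
  · rintro ⟨-, h⟩ v
    rw [mem_fibS, ← h]
    rfl
  · intro h
    refine ⟨mem_univ _, funext fun v => ?_⟩
    exact mem_fibS.1 (h v)

lemma card_om : (Fintype.card ((v : S) → Idx r m → F v) : ℝ) =
    (∏ v, (Fintype.card (F v) : ℝ) ^ (r + m)) * ∏ v, (Fintype.card (F v) : ℝ) ^ r := by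
  rw [Fintype.card_pi, ← prod_mul_distrib]
  push_cast
  refine prod_congr rfl fun v _ => ?_
  rw [Fintype.card_fun, ← pow_add]
  push_cast
  congr 1
  simp only [Fintype.card_sum, Fintype.card_fin]
  omega

open Classical in
/-- the comparison of the laws of two families -/
theorem lr (hs : r + m = r' + m') (C : Set ((v : S) → (F v)[X])) (W : ℝ) (hW0 : 0 ≤ W)
    (hW : ∀ u : (v : S) → Idx r' m' → F v, DD u ∈ C → ∏ v, psi r' m' (DD u v) ≤ W * ∏ v, psi r m (DD u v)) :
    (((univ : Finset ((v : S) → Idx r' m' → F v)).filter fun u => DD u ∈ C).card : ℝ) / Fintype.card ((v : S) → Idx r' m' → F v) ≤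
      W * ((((univ : Finset ((v : S) → Idx r m → F v)).filter fun u => DD u ∈ C).card : ℝ) /
        Fintype.card ((v : S) → Idx r m → F v)) := by
  obtain ⟨I, hI⟩ : ∃ I : Finset ((v : S) → (F v)[X]), I = ((univ : Finset ((v : S) → Idx r' m' → F v)).filter fun u => DD u ∈ C).image DD :=
    ⟨_, rfl⟩
  obtain ⟨A, hA⟩ : ∃ A : ℝ, A = ∏ v, (Fintype.card (F v) : ℝ) ^ (r + m) := ⟨_, rfl⟩
  have hq : ∀ v, (0 : ℝ) < Fintype.card (F v) := fun v => by exact_mod_cast Fintype.card_pos
  have hA0 : 0 < A := by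
    rw [hA]
    exact prod_pos fun v _ => pow_pos (hq v) _
  have hr0 : ∀ k : ℕ, 0 < ∏ v, (Fintype.card (F v) : ℝ) ^ k := fun k => prod_pos fun v _ => pow_pos (hq v) _
  have h1 : (((univ : Finset ((v : S) → Idx r' m' → F v)).filter fun u => DD u ∈ C).card : ℝ) =
      ∑ P ∈ I, ∏ v, ((fibS r' m' (P v)).card : ℝ) := by
    rw [card_eq_sum_card_image DD, ← hI]
    push_cast
    refine sum_congr rfl fun P hP => ?_
    rw [← Nat.cast_prod, ← fib_prod]
    congr 2
    ext u
    rw [mem_filter, mem_filter, mem_filter]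
    constructor
    · rintro ⟨⟨a, -⟩, b⟩
      exact ⟨a, b⟩
    · rintro ⟨a, b⟩
      refine ⟨⟨a, ?_⟩, b⟩
      rw [hI, mem_image] at hP
      obtain ⟨w, hw, hwP⟩ := hP
      rw [b, ← hwP]
      exact (mem_filter.1 hw).2
  have h2 : ∑ P ∈ I, ∏ v, ((fibS r m (P v)).card : ℝ) ≤
      (((univ : Finset ((v : S) → Idx r m → F v)).filter fun u => DD u ∈ C).card : ℝ) := by
    have h3 : (((univ : Finset ((v : S) → Idx r m → F v)).filter fun u => DD u ∈ I).card : ℝ) =
        ∑ P ∈ I, ∏ v, ((fibS r m (P v)).card : ℝ) := by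
      have h8 : ∀ u ∈ (univ : Finset ((v : S) → Idx r m → F v)).filter fun u => DD u ∈ I, DD u ∈ I := fun u hu => (mem_filter.1 hu).2
      rw [card_eq_sum_card_fiberwise (f := DD) (s := (univ : Finset ((v : S) → Idx r m → F v)).filter fun u => DD u ∈ I) (t := I) h8]
      push_cast
      refine sum_congr rfl fun P hP => ?_
      rw [← Nat.cast_prod, ← fib_prod]
      congr 2
      ext u
      rw [mem_filter, mem_filter, mem_filter]
      constructor
      · rintro ⟨⟨a, -⟩, b⟩
        exact ⟨a, b⟩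
      · rintro ⟨a, b⟩
        exact ⟨⟨a, by rw [b]; exact hP⟩, b⟩
    rw [← h3]
    refine Nat.cast_le.2 (card_le_card fun u hu => ?_)
    rw [mem_filter] at hu ⊢
    refine ⟨hu.1, ?_⟩
    rw [hI, mem_image] at hu
    obtain ⟨w, hw, hwP⟩ := hu.2
    rw [← hwP]
    exact (mem_filter.1 hw).2
  have h3 : ∀ (k l : ℕ) (P : (v : S) → (F v)[X]), ∏ v, ((fibS k l (P v)).card : ℝ) = (∏ v, psi k l (P v)) * ∏ v, (Fintype.card (F v) : ℝ) ^ k := by
    intro k l P
    rw [← prod_mul_distrib]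
    refine prod_congr rfl fun v _ => ?_
    unfold psi
    rw [div_mul_cancel₀ _ (pow_pos (hq v) _).ne']
  have h4 : ∑ P ∈ I, ∏ v, psi r' m' (P v) ≤ W * ∑ P ∈ I, ∏ v, psi r m (P v) := by
    rw [mul_sum]
    refine sum_le_sum fun P hP => ?_
    rw [hI, mem_image] at hP
    obtain ⟨w, hw, hwP⟩ := hP
    rw [← hwP]
    exact hW w (mem_filter.1 hw).2
  rw [card_om, card_om, ← hs, ← hA, h1]
  rw [sum_congr rfl fun P _ => h3 r' m' P, ← sum_mul, mul_div_mul_right _ _ (hr0 r').ne']
  rw [sum_congr rfl fun P _ => h3 r m P, ← sum_mul] at h2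
  have h5 : ∑ P ∈ I, ∏ v, psi r m (P v) ≤
      (((univ : Finset ((v : S) → Idx r m → F v)).filter fun u => DD u ∈ C).card : ℝ) / ∏ v, (Fintype.card (F v) : ℝ) ^ r := by
    rw [le_div_iff₀ (hr0 r)]
    exact h2
  calc (∑ P ∈ I, ∏ v, psi r' m' (P v)) / A ≤ (W * ∑ P ∈ I, ∏ v, psi r m (P v)) / A := div_le_div_of_nonneg_right h4 hA0.le
    _ ≤ (W * ((((univ : Finset ((v : S) → Idx r m → F v)).filter fun u => DD u ∈ C).card : ℝ) / ∏ v, (Fintype.card (F v) : ℝ) ^ r)) / A :=
        div_le_div_of_nonneg_right (mul_le_mul_of_nonneg_left h5 hW0) hA0.le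
    _ = _ := by
      have h6 := (hr0 r).ne'
      have h7 := hA0.ne'
      field_simp

end

end Q69.OD
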