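import Pool.Agent.Q69.OD.Prim

/-!
# The comparison of two families over a number field
-/

set_option autoImplicit false
set_option linter.unusedSectionVars false

namespace Q69.OD

open Finset NumberField IsDedekindDomain Polynomial
open Q282.GK Q282.NF Q282.JK
open Pool.Agent.H921R2.TatePole (below deg nm nm_eq)

lemma small_case {F : Type} [Field F] [Fintype F] [DecidableEq F] (g r r' m m' : ℕ) (hrm : r + m = 2 * g + 1)
    (hrm' : r' + m' = 2 * g + 1) (hrr : r ≤ r') (hr' : r' ≤ g) (B Q₀ : ℝ) (hQ : (Fintype.card F : ℝ) ≤ Q₀) (u : Idx r' m' → F)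
    (hB : |locv g (fpol u)| ≤ B) :
    psi r' m' (fpol u) ≤ (Q₀ ^ (2 * g + 1 + r) * Real.exp (((r' : ℝ) - r) * B)) * Real.exp (((r' : ℝ) - r) * locv g (fpol u)) *
      psi r m (fpol u) := by
  obtain ⟨q, hq⟩ : ∃ q : ℝ, q = Fintype.card F := ⟨_, rfl⟩
  have hq1 : 1 ≤ q := by rw [hq]; exact_mod_cast Fintype.card_pos
  have hq0 : 0 < q := by linarith
  have hk : (0 : ℝ) ≤ (r' : ℝ) - r := by
    have : (r : ℝ) ≤ r' := by exact_mod_cast hrr
    linarith
  have h1 : psi r' m' (fpol u) ≤ q ^ (2 * g + 1) := by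
    unfold psi
    rw [← hq, div_le_iff₀ (by positivity)]
    have h2 : (fibS r' m' (fpol u)).card ≤ Fintype.card (Idx r' m' → F) := card_le_univ _
    have h3 := (Nat.cast_le (α := ℝ)).2 h2
    refine h3.trans (le_of_eq ?_)
    rw [Fintype.card_fun]
    push_cast
    rw [← hq, ← pow_add]
    congr 1
    simp only [Fintype.card_sum, Fintype.card_fin]
    omega
  have h2 : 1 / q ^ r ≤ psi r m (fpol u) := by
    unfold psi
    rw [← hq]
    refine div_le_div_of_nonneg_right ?_ (by positivity)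
    obtain ⟨w, hw⟩ := fib_pos_of_le (F := F) (r := r) (m := m) (r' := r') (m' := m') hrr (by omega) (by omega) (by omega) u
    have h3 : 0 < (fibS r m (fpol u)).card := card_pos.2 ⟨w, mem_fibS.2 hw⟩
    exact_mod_cast h3
  have h3 : 1 ≤ Real.exp (((r' : ℝ) - r) * B) * Real.exp (((r' : ℝ) - r) * locv g (fpol u)) := by
    rw [← Real.exp_add, ← mul_add]
    refine Real.one_le_exp (mul_nonneg hk ?_)
    linarith [(abs_le.1 hB).1]
  have h4 : q ^ (2 * g + 1) ≤ Q₀ ^ (2 * g + 1 + r) * psi r m (fpol u) := by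
    calc q ^ (2 * g + 1) = q ^ (2 * g + 1 + r) * (1 / q ^ r) := by
          have e : q ^ (2 * g + 1 + r) = q ^ (2 * g + 1) * q ^ r := pow_add _ _ _
          have e2 : q ^ r ≠ 0 := by positivity
          rw [e]
          field_simp
      _ ≤ Q₀ ^ (2 * g + 1 + r) * psi r m (fpol u) := by
          refine mul_le_mul (pow_le_pow_left₀ hq0.le (by rw [hq]; exact hQ) _) h2 (by positivity) ?_
          have : 0 ≤ Q₀ := hq0.le.trans (by rw [hq]; exact hQ)
          positivity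
  have h5 : 0 ≤ Q₀ ^ (2 * g + 1 + r) * psi r m (fpol u) := le_trans (by positivity) h4
  calc psi r' m' (fpol u) ≤ q ^ (2 * g + 1) := h1
    _ ≤ Q₀ ^ (2 * g + 1 + r) * psi r m (fpol u) := h4
    _ = Q₀ ^ (2 * g + 1 + r) * psi r m (fpol u) * 1 := (mul_one _).symm
    _ ≤ Q₀ ^ (2 * g + 1 + r) * psi r m (fpol u) * (Real.exp (((r' : ℝ) - r) * B) * Real.exp (((r' : ℝ) - r) * locv g (fpol u))) :=
        mul_le_mul_of_nonneg_left h3 h5
    _ = _ := by ring

/-- the likelihood ratio and the product of the local values -/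
theorem lr_W (K : Type) [Field K] [NumberField K] (g r r' m m' : ℕ) (hrm : r + m = 2 * g + 1) (hrm' : r' + m' = 2 * g + 1) (hrr : r ≤ r')
    (hr' : r' ≤ g) (hg1 : 1 ≤ g) (Q₀ : ℕ) (hQ₀ : 1 ≤ Q₀)
    (hQ : ∀ v : HeightOneSpectrum (𝓞 K), Q₀ < Ideal.absNorm v.asIdeal → ringChar (Res v) ≠ 2 ∧
      ∀ P : (Res v)[X], P.Monic → P.natDegree = 2 * g + 1 → 0 < psi r m P ∧ 0 < psi r' m' P) :
    ∃ D₀ : ℝ, 0 ≤ D₀ ∧ ∀ X : ℕ, ∀ u : Om K (Idx r' m') X,
      ∏ v : {v : HeightOneSpectrum (𝓞 K) // v ∈ SX K X}, psi r' m' (fpol (u v)) ≤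
        Real.exp (D₀ + ∑ v : {v : HeightOneSpectrum (𝓞 K) // v ∈ SX K X}, fv Q₀ g r m r' m' v.1 (fpol (u v)) +
          ((r' : ℝ) - r) * ∑ v : {v : HeightOneSpectrum (𝓞 K) // v ∈ SX K X}, locv g (fpol (u v))) *
        ∏ v : {v : HeightOneSpectrum (𝓞 K) // v ∈ SX K X}, psi r m (fpol (u v)) := by
  obtain ⟨B, hB, h1⟩ := locJ_mean g r' m' hrm' hr' hg1
  obtain ⟨k, hk⟩ : ∃ k : ℝ, k = (r' : ℝ) - r := ⟨_, rfl⟩
  have hk0 : 0 ≤ k := by
    have : (r : ℝ) ≤ r' := by exact_mod_cast hrr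
    rw [hk]
    linarith
  have hQr : (1 : ℝ) ≤ Q₀ := by exact_mod_cast hQ₀
  obtain ⟨a₀, ha₀⟩ : ∃ a₀ : ℝ, a₀ = Real.log ((Q₀ : ℝ) ^ (2 * g + 1 + r) * Real.exp (k * B)) := ⟨_, rfl⟩
  have hA1 : 1 ≤ (Q₀ : ℝ) ^ (2 * g + 1 + r) * Real.exp (k * B) := by
    have h2 : 1 ≤ (Q₀ : ℝ) ^ (2 * g + 1 + r) := one_le_pow₀ hQr
    have h3 : 1 ≤ Real.exp (k * B) := Real.one_le_exp (by positivity)
    nlinarith
  have ha₀0 : 0 ≤ a₀ := by rw [ha₀]; exact Real.log_nonneg hA1
  have ha₀e : Real.exp a₀ = (Q₀ : ℝ) ^ (2 * g + 1 + r) * Real.exp (k * B) := by rw [ha₀, Real.exp_log (by linarith)]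
  refine ⟨(SX K Q₀).card * a₀, by positivity, fun X u => ?_⟩
  rw [← hk]
  have hloc : ∀ v : {v : HeightOneSpectrum (𝓞 K) // v ∈ SX K X}, psi r' m' (fpol (u v)) ≤
      Real.exp ((if Q₀ < Ideal.absNorm v.1.asIdeal then 0 else a₀) + fv Q₀ g r m r' m' v.1 (fpol (u v)) + k * locv g (fpol (u v))) *
        psi r m (fpol (u v)) := by
    intro v
    unfold fv
    split_ifs with h2
    · obtain ⟨p1, p2⟩ := (hQ v.1 h2).2 (fpol (u v)) (fpol_monic (by omega) _) (by rw [fpol_natDegree (by omega : r' ≤ m'), hrm'])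
      refine le_of_eq ?_
      have e : (0 : ℝ) + xi g r m r' m' (fpol (u v)) + k * locv g (fpol (u v)) = Real.log (psi r' m' (fpol (u v)) / psi r m (fpol (u v))) := by
        unfold xi
        rw [hk]
        ring
      rw [e, Real.exp_log (div_pos p2 p1), div_mul_cancel₀ _ p1.ne']
    · have h3 : |locv g (fpol (u v))| ≤ B := by
        rw [locv_locJ]
        refine ((h1 (Res v.1)).1 (u v)).trans ?_
        refine div_le_self hB (Real.one_le_sqrt.2 ?_)
        exact_mod_cast Fintype.card_pos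
      have h4 := small_case g r r' m m' hrm hrm' hrr hr' B Q₀ (by
        rw [res_card]
        exact_mod_cast not_lt.1 h2) (u v) h3
      rw [← hk, ← ha₀e, ← Real.exp_add] at h4
      rw [add_zero]
      exact h4
  have h2 : ∏ v : {v : HeightOneSpectrum (𝓞 K) // v ∈ SX K X}, psi r' m' (fpol (u v)) ≤
      ∏ v : {v : HeightOneSpectrum (𝓞 K) // v ∈ SX K X},
        (Real.exp ((if Q₀ < Ideal.absNorm v.1.asIdeal then 0 else a₀) + fv Q₀ g r m r' m' v.1 (fpol (u v)) + k * locv g (fpol (u v))) *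
          psi r m (fpol (u v))) := by
    refine prod_le_prod (fun v _ => ?_) fun v _ => hloc v
    unfold psi
    positivity
  rw [prod_mul_distrib, ← Real.exp_sum, sum_add_distrib, sum_add_distrib, ← mul_sum] at h2
  refine h2.trans (mul_le_mul_of_nonneg_right (Real.exp_le_exp.2 ?_) (prod_nonneg fun v _ => by unfold psi; positivity))
  have h3 : ∑ v : {v : HeightOneSpectrum (𝓞 K) // v ∈ SX K X}, (if Q₀ < Ideal.absNorm v.1.asIdeal then (0 : ℝ) else a₀) ≤
      (SX K Q₀).card * a₀ := by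
    rw [sum_coe_sort (SX K X) fun v => if Q₀ < Ideal.absNorm v.asIdeal then (0 : ℝ) else a₀]
    have h6 : ∑ v ∈ SX K X, (if Q₀ < Ideal.absNorm v.asIdeal then (0 : ℝ) else a₀) =
        (((SX K X).filter fun v => ¬ Q₀ < Ideal.absNorm v.asIdeal).card : ℝ) * a₀ := by
      rw [← nsmul_eq_mul, ← sum_const, sum_filter]
      refine sum_congr rfl fun v _ => ?_
      by_cases h7 : Q₀ < Ideal.absNorm v.asIdeal
      · rw [if_pos h7, if_neg (not_not.2 h7)]
      · rw [if_neg h7, if_pos h7]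
    rw [h6]
    refine mul_le_mul_of_nonneg_right ?_ ha₀0
    exact Nat.cast_le.2 (card_le_card fun v hv => mem_SX.2 (not_lt.1 (mem_filter.1 hv).2))
  linarith

end Q69.OD
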