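import Pool.Agent.Q69.OD.Lrk
import Pool.Agent.Q69.LJ.Jac

/-!
# The optimality of the product of the local values as a test of the rank
-/

set_option autoImplicit false
set_option linter.unusedSectionVars false

namespace Q69.OD

open Finset NumberField IsDedekindDomain Polynomial
open Q282.GK Q282.NF Q282.JK
open Q69.LJ (loglog_large one_lt_log loglog_nonneg x_pow)
open Pool.Agent.H921R2.TatePole (below deg nm nm_eq)

section

variable {K : Type} [Field K] [NumberField K]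

/-- the local value as a function of the residues -/
lemma val_locv (g r m : ℕ) (hrm : r + m = 2 * g + 1) (hle : r ≤ m) (t : Idx r m → 𝓞 K) (v : HeightOneSpectrum (𝓞 K)) :
    val (fpol t) v = locv g (fpol fun i => red v (t i)) := by
  have hmon : (fpol t).Monic := fpol_monic hle t
  have hdeg : (fpol t).natDegree = 2 * g + 1 := by rw [fpol_natDegree hle t, hrm]
  unfold Q282.JK.val locv Q282.JK.Good
  rw [← fpol_map, two_iff]
  by_cases hg2 : (2 : Res v) ≠ 0 ∧ Squarefree ((fpol t).map (red v))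
  · rw [if_pos hg2, if_pos hg2, factor_eq (fpol t) hmon g hdeg v hg2.1]
  · rw [if_neg hg2, if_neg hg2]

lemma log_prod_locv (g r m : ℕ) (hrm : r + m = 2 * g + 1) (hle : r ≤ m) (t : Idx r m → 𝓞 K) (X : ℕ) :
    Real.log (product (fpol t) X) = ∑ v : {v : HeightOneSpectrum (𝓞 K) // v ∈ SX K X}, locv g (fpol (resid X t v)) := by
  rw [(log_product (fpol t) (fpol_monic hle t) g (by rw [fpol_natDegree hle t, hrm]) X).2,
    ← sum_coe_sort (SX K X) fun v => val (fpol t) v]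
  exact sum_congr rfl fun v _ => val_locv g r m hrm hle t v.1

/-- the sets of the reductions -/
def redSet (X : ℕ) (A : Set (𝓞 K)[X]) : Set ((v : {v : HeightOneSpectrum (𝓞 K) // v ∈ SX K X}) → (Res v.1)[X]) :=
  {P | ∃ f ∈ A, ∀ v : {v : HeightOneSpectrum (𝓞 K) // v ∈ SX K X}, f.map (red v.1) = P v}

lemma mem_redSet (X : ℕ) (A : Set (𝓞 K)[X]) (hA : ∀ f f' : (𝓞 K)[X], (∀ v ∈ SX K X, f.map (red v) = f'.map (red v)) → f ∈ A → f' ∈ A)
    {r m : ℕ} (t : Idx r m → 𝓞 K) : fpol t ∈ A ↔ DD (resid X t) ∈ redSet X A := by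
  constructor
  · intro h
    exact ⟨fpol t, h, fun v => fpol_map _ _⟩
  · rintro ⟨f, hf, h⟩
    refine hA f (fpol t) (fun v hv => ?_) hf
    rw [h ⟨v, hv⟩, fpol_map]
    rfl

end

lemma big_T (c : ℕ) : ∃ X₁ : ℕ, ∀ X : ℕ, X₁ ≤ X → ∀ T : ℝ, Real.exp (2 * X) ≤ T →
    2 * (4 : ℝ) ^ X * c ≤ T ∧ (X : ℝ) ^ ((Real.log (Real.log X)) ^ 3) ≤ T := by
  obtain ⟨X₂, hX₂⟩ := loglog_large 120
  refine ⟨max 16 (max (4 * c) X₂), fun X hX T hT => ?_⟩
  rw [max_le_iff, max_le_iff] at hX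
  obtain ⟨h16, h4c, h2⟩ := hX
  have hX0 : (16 : ℝ) ≤ X := by exact_mod_cast h16
  constructor
  · refine le_trans ?_ hT
    have h5 : (6 : ℝ) ≤ Real.exp 2 := by
      have h6 := Real.exp_one_gt_d9
      have h7 : Real.exp 2 = Real.exp 1 * Real.exp 1 := by
        rw [← Real.exp_add]
        norm_num
      rw [h7]
      nlinarith
    have h6 : Real.exp (2 * X) = Real.exp 2 ^ X := by
      rw [← Real.exp_nat_mul, mul_comm]
    have h7 : (6 : ℝ) ^ X ≤ Real.exp 2 ^ X := pow_le_pow_left₀ (by norm_num) h5 X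
    have h8 : (6 : ℝ) ^ X = 4 ^ X * (1 + 1 / 2) ^ X := by
      rw [← mul_pow]
      norm_num
    have h9 : 1 + (X : ℝ) * (1 / 2) ≤ (1 + 1 / 2) ^ X := one_add_mul_le_pow (by norm_num) X
    have h10 : (4 : ℝ) * c ≤ X := by exact_mod_cast h4c
    have h11 : (2 : ℝ) * c ≤ (1 + 1 / 2) ^ X := by linarith
    rw [h6]
    refine le_trans ?_ h7
    rw [h8]
    have h12 : (0 : ℝ) ≤ 4 ^ X := by positivity
    nlinarith
  · have hV := hX₂ X h2
    obtain ⟨V, hVe⟩ : ∃ V : ℝ, V = Real.log (Real.log X) := ⟨_, rfl⟩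
    have hl := one_lt_log X h16
    rw [x_pow (by linarith)]
    rw [← hVe] at hV ⊢
    refine le_trans (Real.exp_le_exp.2 ?_) hT
    have hw : Real.exp V = Real.log X := by rw [hVe, Real.exp_log (by linarith)]
    rw [hw]
    obtain ⟨w, hwe⟩ : ∃ w : ℝ, w = Real.log X := ⟨_, rfl⟩
    rw [← hwe] at hw ⊢
    have hVw : V ≤ w := by
      rw [← hw]
      linarith [Real.add_one_le_exp V]
    have hX' : (X : ℝ) = Real.exp w := by rw [hwe, Real.exp_log (by linarith)]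
    have h1 := Real.pow_div_factorial_le_exp w (by linarith) 5
    rw [← hX'] at h1
    have h3 : ((Nat.factorial 5 : ℕ) : ℝ) = 120 := by norm_num [Nat.factorial]
    rw [h3] at h1
    have h4 : V ^ 3 * w ≤ w ^ 4 := by
      have h5 : V ^ 3 ≤ w ^ 3 := pow_le_pow_left₀ (by linarith) hVw 3
      calc V ^ 3 * w ≤ w ^ 3 * w := mul_le_mul_of_nonneg_right h5 (by linarith)
        _ = w ^ 4 := by ring
    have h5 : w ^ 4 ≤ w ^ 5 / 120 := by
      rw [le_div_iff₀ (by norm_num)]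
      have : w ^ 4 * 120 ≤ w ^ 4 * w := mul_le_mul_of_nonneg_left (by linarith) (by have : 0 ≤ w := by linarith
                                                                                    positivity)
      calc w ^ 4 * 120 ≤ w ^ 4 * w := this
        _ = w ^ 5 := by ring
    linarith

/-- the final numerical step -/
lemma final_num {E₁ E₂ A V D₀ P γ : ℝ} (hP : 0 ≤ P) (hA : A = E₁ + 1) (hE : E₁ + γ ≤ E₂) (h1 : Real.log 16 ≤ V)
    (h2 : D₀ + Real.log 16 ≤ γ * V) :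
    (1 / 2) * (Real.exp (-(E₁ * V)) * P) ≤ Real.exp (-(E₁ * V)) * P - 2 * P * Real.exp (-(A * V)) - 4 * P * Real.exp (D₀ - E₂ * V) := by
  have hV : 0 ≤ V := (Real.log_nonneg (by norm_num)).trans h1
  have e1 : Real.exp (-(A * V)) = Real.exp (-(E₁ * V)) * Real.exp (-V) := by
    rw [← Real.exp_add, hA]
    congr 1
    ring
  have e2 : Real.exp (-V) ≤ 1 / 16 := by
    have : Real.exp (-V) ≤ Real.exp (-Real.log 16) := Real.exp_le_exp.2 (by linarith)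
    rwa [Real.exp_neg (Real.log 16), Real.exp_log (by norm_num), ← one_div] at this
  have e3 : Real.exp (D₀ - E₂ * V) ≤ Real.exp (-(E₁ * V)) * (1 / 16) := by
    have h3 : D₀ - E₂ * V ≤ -(E₁ * V) + -Real.log 16 := by
      have : (E₁ + γ) * V ≤ E₂ * V := mul_le_mul_of_nonneg_right hE hV
      linarith
    have h4 := Real.exp_le_exp.2 h3
    rwa [Real.exp_add, Real.exp_neg (Real.log 16), Real.exp_log (by norm_num), ← one_div] at h4
  rw [e1]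
  obtain ⟨x, hx⟩ : ∃ x : ℝ, x = Real.exp (-(E₁ * V)) := ⟨_, rfl⟩
  have hx0 : 0 ≤ x := by rw [hx]; exact (Real.exp_pos _).le
  rw [← hx] at e3 ⊢
  have h5 : 2 * P * (x * Real.exp (-V)) ≤ 2 * P * (x * (1 / 16)) :=
    mul_le_mul_of_nonneg_left (mul_le_mul_of_nonneg_left e2 hx0) (by positivity)
  have h6 : 4 * P * Real.exp (D₀ - E₂ * V) ≤ 4 * P * (x * (1 / 16)) := mul_le_mul_of_nonneg_left e3 (by positivity)
  nlinarith [mul_nonneg hP hx0]

open Classical in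
/-- the optimality of the product of the local values -/
theorem opt_K (K : Type) [Field K] [NumberField K] (g r r' : ℕ) (hg1 : 1 ≤ g) (hrr : r ≤ r') (hr' : r' ≤ g) (y ε : ℝ) (hy : 0 < y)
    (hyk : y ≤ (r' : ℝ) - r) (hε : 0 < ε) :
    ∃ X₁ : ℕ, 16 ≤ X₁ ∧ ∀ X : ℕ, X₁ ≤ X → ∀ T : ℝ, Real.exp (2 * X) ≤ T →
    ∀ (b b' : Fin (Module.finrank ℚ K) → 𝓞 K), (∀ x : 𝓞 K, ∃ a : Fin (Module.finrank ℚ K) → ℤ, x = ∑ j, (a j : 𝓞 K) * b j) →
    (∀ x : 𝓞 K, ∃ a : Fin (Module.finrank ℚ K) → ℤ, x = ∑ j, (a j : 𝓞 K) * b' j) →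
    ∀ (N : Idx r (2 * g + 1 - r) × Fin (Module.finrank ℚ K) → ℤ) (L : Idx r (2 * g + 1 - r) × Fin (Module.finrank ℚ K) → ℕ),
    (∀ k, T ≤ L k) →
    ∀ (N' : Idx r' (2 * g + 1 - r') × Fin (Module.finrank ℚ K) → ℤ) (L' : Idx r' (2 * g + 1 - r') × Fin (Module.finrank ℚ K) → ℕ),
    (∀ k, T ≤ L' k) →
    ∀ A : Set (𝓞 K)[X], (∀ f f' : (𝓞 K)[X], (∀ v ∈ SX K X, f.map (red v) = f'.map (red v)) → f ∈ A → f' ∈ A) →
      (((kbox N L).filter fun n => fpol (comb b n) ∈ A).card : ℝ) ≤ Real.exp (-(y ^ 2 / 2 * Real.log (Real.log X))) * ∏ k, (L k : ℝ) →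
      Real.exp (-(((((r' : ℝ) - r) - y) ^ 2 / 2 + ε) * Real.log (Real.log X))) * ∏ k, (L' k : ℝ) ≤
        (((kbox N' L').filter fun n => Ok K (comb b' n) ∧ fpol (comb b' n) ∉ A).card : ℝ) := by
  obtain ⟨m, hm⟩ : ∃ m : ℕ, m = 2 * g + 1 - r := ⟨_, rfl⟩
  obtain ⟨m', hm'⟩ : ∃ m' : ℕ, m' = 2 * g + 1 - r' := ⟨_, rfl⟩
  have hrm : r + m = 2 * g + 1 := by omega
  have hrm' : r' + m' = 2 * g + 1 := by omega
  have hr : r ≤ g := hrr.trans hr'
  obtain ⟨k, hk⟩ : ∃ k : ℝ, k = (r' : ℝ) - r := ⟨_, rfl⟩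
  rw [← hk] at hyk ⊢
  have hk0 : 0 < k := lt_of_lt_of_le hy hyk
  obtain ⟨δ, hδ⟩ : ∃ δ : ℝ, δ = min y (ε / (4 * k + 4)) := ⟨_, rfl⟩
  have hδ0 : 0 < δ := by
    rw [hδ]
    exact lt_min hy (by positivity)
  have hδy : δ ≤ y := by
    rw [hδ]
    exact min_le_left _ _
  have hδε : k * δ ≤ ε / 4 := by
    have h1 : δ ≤ ε / (4 * k + 4) := by
      rw [hδ]
      exact min_le_right _ _
    rw [le_div_iff₀ (by positivity)] at h1
    nlinarith
  obtain ⟨ρ, hρ⟩ : ∃ ρ : ℝ, ρ = y * δ / 8 := ⟨_, rfl⟩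
  have hρ0 : 0 < ρ := by rw [hρ]; positivity
  obtain ⟨E₁, hE₁⟩ : ∃ E₁ : ℝ, E₁ = (k - y + δ) ^ 2 / 2 + ρ := ⟨_, rfl⟩
  obtain ⟨E₂, hE₂⟩ : ∃ E₂ : ℝ, E₂ = (k - y) ^ 2 / 2 + k * δ - ρ := ⟨_, rfl⟩
  have hE12 : E₁ + y * δ / 4 ≤ E₂ := by
    rw [hE₁, hE₂, hρ]
    have h1 : δ ^ 2 ≤ y * δ := by nlinarith
    nlinarith
  have hE10 : 0 ≤ E₁ := by rw [hE₁]; positivity
  have hE1ε : E₁ ≤ (k - y) ^ 2 / 2 + ε / 2 := by
    rw [hE₁, hρ]
    have h1 : δ ^ 2 ≤ y * δ := by nlinarith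
    have h2 : y * δ ≤ k * δ := mul_le_mul_of_nonneg_right hyk hδ0.le
    nlinarith
  obtain ⟨Q₀, hQ₀, hQ, hlaw⟩ := fv_law K g r r' m m' hrm hrm' hr hr' hg1
  obtain ⟨X₂, hX₂⟩ := hlaw ρ (E₁ + 1) hρ0 (by positivity)
  obtain ⟨D₀, hD₀, hW⟩ := lr_W K g r r' m m' hrm hrm' hrr hr' hg1 Q₀ hQ₀ hQ
  obtain ⟨X₃, hX₃16, hX₃⟩ := Q69.LJ.ldp_Ju K g r' hg1 hr' k 1 ρ hk0.le one_pos hρ0
  obtain ⟨X₄, hX₄⟩ := big_T (Fintype.card (Idx r m × Fin (Module.finrank ℚ K)) + Fintype.card (Idx r' m' × Fin (Module.finrank ℚ K)))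
  obtain ⟨X₅, hX₅⟩ := loglog_large (max (max (Real.log 16) ((D₀ + Real.log 16) / (y * δ / 4))) (Real.log 2 / (ε / 2)))
  refine ⟨max X₃ (max X₂ (max X₄ X₅)), hX₃16.trans (le_max_left _ _), ?_⟩
  rw [← hm'] at hX₃
  rw [← hm, ← hm']
  clear hm hm'
  intro X hX T hT b b' hb hb' N L hL N' L' hL' A hA hcount
  rw [max_le_iff, max_le_iff, max_le_iff] at hX
  obtain ⟨hx3, hx2, hx4, hx5⟩ := hX
  obtain ⟨hT4, hTX⟩ := hX₄ X hx4 T hT
  have hV5 := hX₅ X hx5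
  rw [max_le_iff, max_le_iff] at hV5
  obtain ⟨⟨hV1, hV2⟩, hV3⟩ := hV5
  have h2 := hX₂ X hx2
  have h3 := (hX₃ X hx3 T hTX b' hb' N' L' hL').1 (k - y + δ) (by linarith) (by linarith) (-1) (Or.inr rfl)
  have h3' := h3.1
  obtain ⟨V, hV⟩ : ∃ V : ℝ, V = Real.log (Real.log X) := ⟨_, rfl⟩
  rw [← hV] at hV1 hV2 hV3 h2 h3' hcount ⊢
  rw [div_le_iff₀ (by positivity)] at hV2 hV3
  rw [← hE₁] at h3'
  clear h3
  -- the sides
  have hcN : ∀ (c c' : ℕ), 2 * (4 : ℝ) ^ X * ((c + c' : ℕ) : ℝ) ≤ T → 2 * (4 : ℝ) ^ X * (c : ℝ) ≤ T ∧ 2 * (4 : ℝ) ^ X * (c' : ℝ) ≤ T := by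
    intro c c' h
    push_cast at h
    have h4 : (0 : ℝ) ≤ 4 ^ X := by positivity
    have h5 : (0 : ℝ) ≤ (4 : ℝ) ^ X * c := by positivity
    have h6 : (0 : ℝ) ≤ (4 : ℝ) ^ X * c' := by positivity
    constructor <;> nlinarith
  obtain ⟨hT5, hT6⟩ := hcN _ _ hT4
  have hT0 : 0 < T := (Real.exp_pos _).trans_le hT
  have hP0 : 0 < ∏ k, (L k : ℝ) := prod_pos fun k _ => hT0.trans_le (hL k)
  have hP0' : 0 < ∏ k, (L' k : ℝ) := prod_pos fun k _ => hT0.trans_le (hL' k)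
  -- the first family
  obtain ⟨α, hα⟩ : ∃ α : ℝ, α = Real.exp (-(y ^ 2 / 2 * V)) := ⟨_, rfl⟩
  rw [← hα] at hcount
  obtain ⟨μ, hμ⟩ : ∃ μ : ℝ, μ = (((univ : Finset (Om K (Idx r m) X)).filter fun u => DD u ∈ redSet X A).card : ℝ) /
    Fintype.card (Om K (Idx r m) X) := ⟨_, rfl⟩
  have hμα : μ ≤ 2 * α := by
    have h4 := (eq_K X b hb N L (fun k => hT5.trans (hL k)) ((univ : Finset (Om K (Idx r m) X)).filter fun u => DD u ∈ redSet X A)).1
    rw [← hμ] at h4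
    have h5 : ((kbox N L).filter fun n => resid X (comb b n) ∈ (univ : Finset (Om K (Idx r m) X)).filter fun u => DD u ∈ redSet X A) =
        (kbox N L).filter fun n => fpol (comb b n) ∈ A := by
      refine filter_congr fun n _ => ?_
      rw [mem_filter, mem_redSet X A hA (comb b n)]
      exact ⟨fun h => h.2, fun h => ⟨mem_univ _, h⟩⟩
    rw [h5] at h4
    have h6 := h4.trans hcount
    have h7 : (∏ k, (L k : ℝ)) * μ ≤ (∏ k, (L k : ℝ)) * (2 * α) := by linarith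
    exact le_of_mul_le_mul_left h7 hP0
  -- the comparison
  obtain ⟨c, hc⟩ : ∃ c : ℝ, c = k ^ 2 / 2 - k * (r' + 1 / 2) := ⟨_, rfl⟩
  rw [← hk, ← hc] at h2
  obtain ⟨z, hz⟩ : ∃ z : ℝ, z = (r : ℝ) + 1 / 2 + y - δ := ⟨_, rfl⟩
  obtain ⟨Cs, hCs⟩ : ∃ Cs : Set ((v : {v : HeightOneSpectrum (𝓞 K) // v ∈ SX K X}) → (Res v.1)[X]),
      ∀ P, P ∈ Cs ↔ P ∈ redSet X A ∧ ∑ v : {v : HeightOneSpectrum (𝓞 K) // v ∈ SX K X}, fv Q₀ g r m r' m' v.1 (P v) ≤ (c + ρ) * V ∧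
        ∑ v : {v : HeightOneSpectrum (𝓞 K) // v ∈ SX K X}, locv g (P v) ≤ z * V :=
    ⟨{P | P ∈ redSet X A ∧ ∑ v : {v : HeightOneSpectrum (𝓞 K) // v ∈ SX K X}, fv Q₀ g r m r' m' v.1 (P v) ≤ (c + ρ) * V ∧
        ∑ v : {v : HeightOneSpectrum (𝓞 K) // v ∈ SX K X}, locv g (P v) ≤ z * V}, fun P => Iff.rfl⟩
  obtain ⟨W, hWe⟩ : ∃ W : ℝ, W = Real.exp (D₀ + (c + ρ) * V + k * (z * V)) := ⟨_, rfl⟩
  have hW0 : 0 ≤ W := by rw [hWe]; exact (Real.exp_pos _).le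
  have hlr := lr (F := fun v : {v : HeightOneSpectrum (𝓞 K) // v ∈ SX K X} => Res v.1) (r := r) (m := m) (r' := r') (m' := m')
    (by omega) Cs W hW0 (by
      intro u hu
      obtain ⟨-, h4, h5⟩ := (hCs _).1 hu
      have h4' : ∑ v : {v : HeightOneSpectrum (𝓞 K) // v ∈ SX K X}, fv Q₀ g r m r' m' v.1 (fpol (u v)) ≤ (c + ρ) * V := h4
      have h5' : ∑ v : {v : HeightOneSpectrum (𝓞 K) // v ∈ SX K X}, locv g (fpol (u v)) ≤ z * V := h5
      have h6 := hW X u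
      rw [← hk] at h6
      have h7 : ∏ v : {v : HeightOneSpectrum (𝓞 K) // v ∈ SX K X}, psi r' m' (fpol (u v)) ≤
          W * ∏ v : {v : HeightOneSpectrum (𝓞 K) // v ∈ SX K X}, psi r m (fpol (u v)) := by
        refine h6.trans (mul_le_mul_of_nonneg_right ?_ (prod_nonneg fun v _ => by unfold psi; positivity))
        rw [hWe]
        refine Real.exp_le_exp.2 ?_
        have h8 := mul_le_mul_of_nonneg_left h5' hk0.le
        linarith
      exact h7)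
  have hμC : (((univ : Finset (Om K (Idx r m) X)).filter fun u => DD u ∈ Cs).card : ℝ) / Fintype.card (Om K (Idx r m) X) ≤ μ := by
    refine frac_le (le_of_eq hμ.symm) fun u hu => ?_
    exact ((hCs _).1 hu).1
  obtain ⟨ν, hν⟩ : ∃ ν : ℝ, ν = (((univ : Finset (Om K (Idx r' m') X)).filter fun u => DD u ∈ Cs).card : ℝ) /
    Fintype.card (Om K (Idx r' m') X) := ⟨_, rfl⟩
  have hν1 : ν ≤ 2 * Real.exp (D₀ - E₂ * V) := by
    have h4 : ν ≤ W * (2 * α) := by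
      rw [hν]
      exact hlr.trans (mul_le_mul_of_nonneg_left (hμC.trans hμα) hW0)
    refine h4.trans (le_of_eq ?_)
    rw [hWe, hα]
    have h5 : Real.exp (D₀ + (c + ρ) * V + k * (z * V)) * (2 * Real.exp (-(y ^ 2 / 2 * V))) =
        2 * (Real.exp (D₀ + (c + ρ) * V + k * (z * V)) * Real.exp (-(y ^ 2 / 2 * V))) := by ring
    rw [h5, ← Real.exp_add]
    congr 2
    have h6 : (r' : ℝ) = r + k := by rw [hk]; ring
    rw [hc, hz, hE₂, h6]
    ring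
  -- the counts in the second family
  obtain ⟨G₁, hG₁⟩ : ∃ G₁ : Finset (Idx r' m' × Fin (Module.finrank ℚ K) → ℤ), G₁ = (kbox N' L').filter fun n => Ok K (comb b' n) ∧
    (-1 * ((r' : ℝ) + 1 / 2) + (k - y + δ)) * V ≤ -1 * Real.log (product (fpol (comb b' n)) X) := ⟨_, rfl⟩
  rw [← hG₁] at h3'
  have hR := (eq_K X b' hb' N' L' (fun k => hT6.trans (hL' k)) ((univ : Finset (Om K (Idx r' m') X)).filter fun u =>
    (c + ρ) * V ≤ ∑ v : {v : HeightOneSpectrum (𝓞 K) // v ∈ SX K X}, fv Q₀ g r m r' m' v.1 (fpol (u v)))).2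
  have hS := (eq_K X b' hb' N' L' (fun k => hT6.trans (hL' k)) ((univ : Finset (Om K (Idx r' m') X)).filter fun u => DD u ∈ Cs)).2
  rw [← hν] at hS
  obtain ⟨G₂, hG₂⟩ : ∃ G₂ : Finset (Idx r' m' × Fin (Module.finrank ℚ K) → ℤ), G₂ = (kbox N' L').filter fun n => resid X (comb b' n) ∈
    (univ : Finset (Om K (Idx r' m') X)).filter fun u =>
      (c + ρ) * V ≤ ∑ v : {v : HeightOneSpectrum (𝓞 K) // v ∈ SX K X}, fv Q₀ g r m r' m' v.1 (fpol (u v)) := ⟨_, rfl⟩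
  obtain ⟨G₃, hG₃⟩ : ∃ G₃ : Finset (Idx r' m' × Fin (Module.finrank ℚ K) → ℤ), G₃ = (kbox N' L').filter fun n => resid X (comb b' n) ∈
    (univ : Finset (Om K (Idx r' m') X)).filter fun u => DD u ∈ Cs := ⟨_, rfl⟩
  obtain ⟨G₄, hG₄⟩ : ∃ G₄ : Finset (Idx r' m' × Fin (Module.finrank ℚ K) → ℤ), G₄ = (kbox N' L').filter fun n => Ok K (comb b' n) ∧
    fpol (comb b' n) ∉ A := ⟨_, rfl⟩
  rw [← hG₂] at hR
  rw [← hG₃] at hS
  rw [← hG₄]
  have hsub : G₁ ⊆ G₄ ∪ (G₂ ∪ G₃) := by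
    intro n hn
    rw [hG₁, mem_filter] at hn
    obtain ⟨n1, n2, n3⟩ := hn
    rw [mem_union, mem_union, hG₂, hG₃, hG₄, mem_filter, mem_filter, mem_filter, mem_filter, mem_filter]
    by_cases h4 : fpol (comb b' n) ∈ A
    · right
      by_cases h5 : (c + ρ) * V ≤ ∑ v : {v : HeightOneSpectrum (𝓞 K) // v ∈ SX K X}, fv Q₀ g r m r' m' v.1 (fpol (resid X (comb b' n) v))
      · exact Or.inl ⟨n1, mem_univ _, h5⟩
      · refine Or.inr ⟨n1, mem_univ _, (hCs _).2 ⟨(mem_redSet X A hA (comb b' n)).1 h4, (not_le.1 h5).le, ?_⟩⟩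
        have h6 := log_prod_locv g r' m' hrm' (by omega) (comb b' n) X
        have h7 : ∑ v : {v : HeightOneSpectrum (𝓞 K) // v ∈ SX K X}, locv g (fpol (resid X (comb b' n) v)) ≤ z * V := by
          rw [← h6]
          have h8 : (r' : ℝ) = r + k := by rw [hk]; ring
          rw [h8] at n3
          rw [hz]
          linarith
        exact h7
    · exact Or.inl ⟨n1, n2, h4⟩
  have hcard := (Nat.cast_le (α := ℝ)).2 ((card_le_card hsub).trans ((card_union_le _ _).trans (Nat.add_le_add_left (card_union_le _ _) _)))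
  push_cast at hcard
  have hR' : (G₂.card : ℝ) ≤ 2 * (∏ k, (L' k : ℝ)) * Real.exp (-((E₁ + 1) * V)) :=
    hR.trans (mul_le_mul_of_nonneg_left h2 (by positivity))
  have hS' : (G₃.card : ℝ) ≤ 4 * (∏ k, (L' k : ℝ)) * Real.exp (D₀ - E₂ * V) := by
    refine hS.trans ((mul_le_mul_of_nonneg_left hν1 (by positivity)).trans (le_of_eq ?_))
    ring
  have hfin := final_num (A := E₁ + 1) (γ := y * δ / 4) (D₀ := D₀) (V := V) hP0'.le rfl hE12 hV1 (by linarith)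
  have hhalf : Real.exp (-(((k - y) ^ 2 / 2 + ε) * V)) * ∏ k, (L' k : ℝ) ≤ (1 / 2) * (Real.exp (-(E₁ * V)) * ∏ k, (L' k : ℝ)) := by
    rw [← mul_assoc]
    refine mul_le_mul_of_nonneg_right ?_ hP0'.le
    have hVn : 0 ≤ V := (Real.log_nonneg (by norm_num)).trans hV1
    have h4 : -(((k - y) ^ 2 / 2 + ε) * V) ≤ -Real.log 2 + -(E₁ * V) := by
      have h5 : (E₁ + ε / 2) * V ≤ ((k - y) ^ 2 / 2 + ε) * V := mul_le_mul_of_nonneg_right (by linarith) hVn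
      linarith
    refine (Real.exp_le_exp.2 h4).trans (le_of_eq ?_)
    rw [Real.exp_add, Real.exp_neg (Real.log 2), Real.exp_log (by norm_num)]
    ring
  linarith

end Q69.OD
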