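import Pool.Agent.Q282.GK.NF
import Pool.Agent.Q282.MN.Loc

/-!
# Sums over the primes of a number field
-/

set_option autoImplicit false
set_option linter.unusedSectionVars false

namespace Q69.OD

open Finset NumberField IsDedekindDomain
open Q282.GK Q282.NF Q282.MN
open Q282.BP (PP)
open Q282.CL (summ)
open Pool.Agent.H921R2.TatePole (below deg nm nm_eq)

section

variable (K : Type) [Field K] [NumberField K]

lemma ghd_le (g : HeightOneSpectrum (𝓞 K) → ℝ) (B : ℕ → ℝ) (hB : ∀ p, 0 ≤ B p) (f : ℕ)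
    (hg : ∀ v, deg v = f → |g v| ≤ B (below v)) (p : ℕ) : |ghd g f p| ≤ Module.finrank ℚ K * B p := by
  unfold ghd
  split_ifs with hp
  · unfold gfib
    refine (abs_sum_le_sum_abs _ _).trans ?_
    have h1 : ∀ v ∈ (univ : Finset {v : HeightOneSpectrum (𝓞 K) // below v = ⟨p, hp⟩}), |if deg v.1 = f then g v.1 else 0| ≤ B p := by
      intro v _
      split_ifs with h
      · have h2 := hg v.1 h
        rw [v.2] at h2
        exact h2
      · rw [abs_zero]
        exact hB p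
    refine (sum_le_sum h1).trans ?_
    rw [sum_const, card_univ, nsmul_eq_mul]
    exact mul_le_mul_of_nonneg_right (fib_card (K := K) ⟨p, hp⟩) (hB p)
  · rw [abs_zero]
    exact mul_nonneg (Nat.cast_nonneg _) (hB p)

/-- the sum of the inverse three halves powers -/
theorem sum_three : ∃ C : ℝ, 0 ≤ C ∧ ∀ X : ℕ, ∑ v ∈ SX K X, 1 / (Real.sqrt (Ideal.absNorm v.asIdeal)) ^ 3 ≤ C := by
  obtain ⟨C₀, hC₀, h⟩ := summ
  refine ⟨∑ f ∈ Icc 1 (Module.finrank ℚ K), Module.finrank ℚ K * C₀, by positivity, fun X => ?_⟩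
  rw [sum_SX (K := K) (fun v => 1 / (Real.sqrt (Ideal.absNorm v.asIdeal)) ^ 3) X]
  refine sum_le_sum fun f hf => ?_
  have hf1 := (mem_Icc.1 hf).1
  have h1 : ∀ p ∈ PP (rt f X), ghd (K := K) (fun v => 1 / (Real.sqrt (Ideal.absNorm v.asIdeal)) ^ 3) f p ≤
      Module.finrank ℚ K * (1 / (Real.sqrt p) ^ 3) := by
    intro p hp
    refine (le_abs_self _).trans (ghd_le K _ (fun p => 1 / (Real.sqrt p) ^ 3) (fun p => by positivity) f (fun v hv => ?_) p)
    rw [abs_of_nonneg (by positivity)]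
    have h2 : (1 : ℝ) ≤ (below v : ℕ) := by exact_mod_cast (below v).prop.one_lt.le
    have h3 : ((below v : ℕ) : ℝ) ≤ Ideal.absNorm v.asIdeal := by
      rw [norm_eq]
      push_cast
      exact le_self_pow₀ h2 (nm_eq v).2.1.ne'
    have h4 : 0 < Real.sqrt (below v : ℕ) := Real.sqrt_pos.2 (by linarith)
    exact one_div_le_one_div_of_le (by positivity) (pow_le_pow_left₀ (Real.sqrt_nonneg _) (Real.sqrt_le_sqrt h3) 3)
  refine (sum_le_sum h1).trans ?_
  rw [← mul_sum]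
  exact mul_le_mul_of_nonneg_left (h _ fun p hp => (mem_filter.1 hp).2) (Nat.cast_nonneg _)

lemma rt_one (X : ℕ) : rt 1 X = X := by
  refine le_antisymm ?_ ?_
  · have h1 := (le_rt (X := X) (y := rt 1 X) le_rfl).1 le_rfl
    rwa [pow_one] at h1
  · rw [le_rt le_rfl, pow_one]

/-- the sum of the inverses -/
theorem sum_one : ∃ C : ℝ, 0 ≤ C ∧ ∀ X : ℕ, 3 ≤ X →
    |∑ v ∈ SX K X, 1 / (Ideal.absNorm v.asIdeal : ℝ) - Real.log (Real.log X)| ≤ C := by
  obtain ⟨C₀, hC₀, h⟩ := summ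
  obtain ⟨M, hM, h'⟩ := nu_sum K
  refine ⟨M + ∑ f ∈ Ioc 1 (Module.finrank ℚ K), Module.finrank ℚ K * C₀, by positivity, fun X hX => ?_⟩
  rw [sum_SX (K := K) (fun v => 1 / (Ideal.absNorm v.asIdeal : ℝ)) X]
  have hd : 1 ≤ Module.finrank ℚ K := Module.finrank_pos
  rw [← add_sum_Ioc_eq_sum_Icc hd, rt_one]
  have h1 : ∑ p ∈ PP X, ghd (K := K) (fun v => 1 / (Ideal.absNorm v.asIdeal : ℝ)) 1 p = ∑ p ∈ PP X, nu K p / p := by
    refine sum_congr rfl fun p hp => ?_
    have hpp : p.Prime := (mem_filter.1 hp).2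
    unfold ghd
    rw [dif_pos hpp]
    unfold gfib
    have h2 := nu_sum_one (K := K) ⟨p, hpp⟩ (1 / (p : ℝ))
    rw [mul_one_div] at h2
    rw [← h2]
    refine sum_congr rfl fun v _ => ?_
    split_ifs with h3
    · have h4 : (below v.1 : ℕ) = p := congrArg (fun x : Nat.Primes => (x : ℕ)) v.2
      show 1 / ((Ideal.absNorm v.1.asIdeal : ℕ) : ℝ) = 1 / (p : ℝ)
      rw [norm_eq, h3, pow_one, h4]
    · rfl
  rw [h1]
  have h2 : |∑ f ∈ Ioc 1 (Module.finrank ℚ K), ∑ p ∈ PP (rt f X), ghd (K := K) (fun v => 1 / (Ideal.absNorm v.asIdeal : ℝ)) f p| ≤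
      ∑ f ∈ Ioc 1 (Module.finrank ℚ K), Module.finrank ℚ K * C₀ := by
    refine (abs_sum_le_sum_abs _ _).trans (sum_le_sum fun f hf => ?_)
    refine (abs_sum_le_sum_abs _ _).trans ?_
    have hf1 : 2 ≤ f := (mem_Ioc.1 hf).1
    have h3 : ∀ p ∈ PP (rt f X), |ghd (K := K) (fun v => 1 / (Ideal.absNorm v.asIdeal : ℝ)) f p| ≤
        Module.finrank ℚ K * (1 / (Real.sqrt p) ^ 3) := by
      intro p hp
      refine ghd_le K _ (fun p => 1 / (Real.sqrt p) ^ 3) (fun p => by positivity) f (fun v hv => ?_) p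
      rw [abs_of_nonneg (by positivity)]
      have h2 : (1 : ℝ) ≤ (below v : ℕ) := by exact_mod_cast (below v).prop.one_lt.le
      have h4 : 1 ≤ Real.sqrt (below v : ℕ) := Real.one_le_sqrt.2 h2
      refine one_div_le_one_div_of_le (by positivity) ?_
      rw [norm_eq, hv]
      push_cast
      calc Real.sqrt (below v : ℕ) ^ 3 ≤ Real.sqrt (below v : ℕ) ^ 4 := pow_le_pow_right₀ h4 (by norm_num)
        _ = ((below v : ℕ) : ℝ) ^ 2 := by
          rw [show (4 : ℕ) = 2 * 2 from rfl, pow_mul, Real.sq_sqrt (by linarith)]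
        _ ≤ _ := pow_le_pow_right₀ h2 hf1
    refine (sum_le_sum h3).trans ?_
    rw [← mul_sum]
    exact mul_le_mul_of_nonneg_left (h _ fun p hp => (mem_filter.1 hp).2) (Nat.cast_nonneg _)
  rw [add_sub_right_comm]
  exact (abs_add_le _ _).trans (add_le_add (h' X hX) h2)

end

end Q69.OD
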