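import Pool.Agent.Q69.OD.EqK
import Pool.Agent.Q69.OD.Lr
import Pool.Agent.Q69.OD.Chern
import Pool.Agent.Q69.OD.Sums
import Pool.Agent.Q282.JK.Prod
import Pool.Agent.Q69.LJ.Gen

/-!
# The likelihood ratio of two families and the product of the local values
-/

set_option autoImplicit false
set_option linter.unusedSectionVars false

namespace Q69.OD

open Finset NumberField IsDedekindDomain Polynomial
open Q282.GK Q282.NF Q282.JK
open Pool.Agent.H921R2.TatePole (below deg nm nm_eq)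

section

variable {K : Type} [Field K] [NumberField K]

/-- the primes of large norm -/
lemma large_v (g : ℕ) (hg : 1 ≤ g) (s₀ : ℝ) : ∃ Q₀ : ℕ, 1 ≤ Q₀ ∧ ∀ v : HeightOneSpectrum (𝓞 K), Q₀ < Ideal.absNorm v.asIdeal →
    ringChar (Res v) ≠ 2 ∧ ((2 * g + 1 : ℕ) : Res v) ≠ 0 ∧ s₀ ≤ Real.sqrt (Ideal.absNorm v.asIdeal) := by
  obtain ⟨n₀, hn₀⟩ := exists_nat_ge (s₀ ^ 2)
  refine ⟨max ((2 * g + 1) ^ Module.finrank ℚ K) n₀, ?_, fun v hv => ?_⟩
  · exact (Nat.one_le_pow _ _ (by omega)).trans (le_max_left _ _)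
  · rw [max_lt_iff] at hv
    have h1 : 2 * g + 1 < (below v : ℕ) := by
      by_contra h
      rw [not_lt] at h
      have h2 : Ideal.absNorm v.asIdeal ≤ (2 * g + 1) ^ Module.finrank ℚ K := by
        rw [norm_eq]
        exact (Nat.pow_le_pow_left h _).trans (Nat.pow_le_pow_right (by omega) (deg_le v))
      omega
    refine ⟨ring_two v (by omega), ?_, ?_⟩
    · intro h
      have h2 := res_char v
      rw [CharP.cast_eq_zero_iff (Res v) (below v : ℕ)] at h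
      have := Nat.le_of_dvd (by omega) h
      omega
    · refine Real.le_sqrt_of_sq_le ?_
      exact hn₀.trans (by exact_mod_cast hv.2.le)

/-- the difference at the primes of large norm -/
noncomputable def fv (Q₀ g r m r' m' : ℕ) (v : HeightOneSpectrum (𝓞 K)) (P : (Res v)[X]) : ℝ :=
  if Q₀ < Ideal.absNorm v.asIdeal then xi g r m r' m' P else 0

lemma frac_le {α : Type} [Fintype α] {p q : α → Prop} [DecidablePred p] [DecidablePred q] {B : ℝ}
    (hB : (((univ : Finset α).filter q).card : ℝ) / Fintype.card α ≤ B) (h : ∀ a, p a → q a) :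
    (((univ : Finset α).filter p).card : ℝ) / Fintype.card α ≤ B := by
  refine (div_le_div_of_nonneg_right (Nat.cast_le.2 (card_le_card fun a ha => ?_)) (Nat.cast_nonneg _)).trans hB
  rw [mem_filter] at ha ⊢
  exact ⟨ha.1, h a ha.2⟩

/-- the law of the sum of the differences -/
theorem fv_law (K : Type) [Field K] [NumberField K] (g r r' m m' : ℕ) (hrm : r + m = 2 * g + 1) (hrm' : r' + m' = 2 * g + 1) (hr : r ≤ g)
    (hr' : r' ≤ g) (hg1 : 1 ≤ g) : ∃ Q₀ : ℕ, 1 ≤ Q₀ ∧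
    (∀ v : HeightOneSpectrum (𝓞 K), Q₀ < Ideal.absNorm v.asIdeal → ringChar (Res v) ≠ 2 ∧
      ∀ P : (Res v)[X], P.Monic → P.natDegree = 2 * g + 1 → 0 < psi r m P ∧ 0 < psi r' m' P) ∧
    ∀ (ρ A : ℝ), 0 < ρ → 0 ≤ A → ∃ X₁ : ℕ, ∀ X : ℕ, X₁ ≤ X →
      (((univ : Finset (Om K (Idx r' m') X)).filter fun u =>
        (((r' : ℝ) - r) ^ 2 / 2 - ((r' : ℝ) - r) * (r' + 1 / 2) + ρ) * Real.log (Real.log X) ≤
          ∑ v : {v : HeightOneSpectrum (𝓞 K) // v ∈ SX K X}, fv Q₀ g r m r' m' v.1 (fpol (u v))).card : ℝ) /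
            Fintype.card (Om K (Idx r' m') X) ≤
        Real.exp (-(A * Real.log (Real.log X))) := by
  obtain ⟨C, hC, s₀, hs₀, h⟩ := xi_law g r r' m m' hrm hrm' hr hr' hg1
  obtain ⟨Q₀, hQ₀, hv⟩ := large_v (K := K) g hg1 s₀
  obtain ⟨C₃, hC₃, h3⟩ := sum_three K
  obtain ⟨C₁, hC₁, h1⟩ := sum_one K
  obtain ⟨c, hc⟩ : ∃ c : ℝ, c = ((r' : ℝ) - r) ^ 2 / 2 - ((r' : ℝ) - r) * (r' + 1 / 2) := ⟨_, rfl⟩
  have hloc : ∀ v : HeightOneSpectrum (𝓞 K), Q₀ < Ideal.absNorm v.asIdeal →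
      (∀ P : (Res v)[X], P.Monic → P.natDegree = 2 * g + 1 → 0 < psi r m P ∧ 0 < psi r' m' P) ∧
      (∀ u : Idx r' m' → Res v, |xi g r m r' m' (fpol u)| ≤ C) ∧
      (∑ u : Idx r' m' → Res v, xi g r m r' m' (fpol u) ^ 2) / (Fintype.card (Idx r' m' → Res v) : ℝ) ≤
        C / (Ideal.absNorm v.asIdeal : ℝ) ^ 2 ∧
      |(∑ u : Idx r' m' → Res v, xi g r m r' m' (fpol u)) / (Fintype.card (Idx r' m' → Res v) : ℝ) - c / (Ideal.absNorm v.asIdeal : ℝ)| ≤
        C / (Real.sqrt (Ideal.absNorm v.asIdeal)) ^ 3 := by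
    intro v hvQ
    obtain ⟨a1, a2, a3⟩ := hv v hvQ
    have h4 := h (Res v) a1 a2 (by rw [res_card]; exact a3)
    have h5 : (Fintype.card (Idx r' m' → Res v) : ℝ) = (Fintype.card (Res v) : ℝ) ^ Fintype.card (Idx r' m') := by
      rw [Fintype.card_fun]
      push_cast
      rfl
    rw [← hc] at h4
    rw [h5, ← res_card v]
    exact h4
  refine ⟨Q₀, hQ₀, fun v hvQ => ⟨(hv v hvQ).1, (hloc v hvQ).1⟩, fun ρ A hρ hA => ?_⟩
  rw [← hc]
  -- the exponent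
  obtain ⟨s, hs⟩ : ∃ s : ℝ, s = (A + 1) / ρ := ⟨_, rfl⟩
  have hs0 : 0 ≤ s := by rw [hs]; positivity
  obtain ⟨M, hM⟩ : ∃ M : ℝ, M = |c| * C₁ + |c| * ((SX K Q₀).card : ℝ) + C * C₃ := ⟨_, rfl⟩
  have hM0 : 0 ≤ M := by rw [hM]; positivity
  obtain ⟨D, hD⟩ : ∃ D : ℝ, D = s ^ 2 * Real.exp (2 * s * C) * (C * C₃) + s * M := ⟨_, rfl⟩
  obtain ⟨X₂, hX₂⟩ := Q69.LJ.loglog_large D
  refine ⟨max 3 X₂, fun X hX => ?_⟩
  rw [max_le_iff] at hX
  have hLD := hX₂ X hX.2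
  obtain ⟨V, hV⟩ : ∃ V : ℝ, V = Real.log (Real.log X) := ⟨_, rfl⟩
  rw [← hV] at hLD ⊢
  have hsum := h1 X hX.1
  rw [← hV] at hsum
  -- local data
  obtain ⟨f, hf⟩ : ∃ f : (v : {v : HeightOneSpectrum (𝓞 K) // v ∈ SX K X}) → (Idx r' m' → Res v.1) → ℝ,
    ∀ v w, f v w = fv Q₀ g r m r' m' v.1 (fpol w) := ⟨fun v w => fv Q₀ g r m r' m' v.1 (fpol w), fun _ _ => rfl⟩
  have hN1 : ∀ v : HeightOneSpectrum (𝓞 K), (1 : ℝ) ≤ Ideal.absNorm v.asIdeal := fun v => by exact_mod_cast Q282.JK.nm_pos v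
  have hf1 : ∀ v u, |f v u| ≤ C := by
    intro v u
    rw [hf]
    unfold fv
    split_ifs with h5
    · exact (hloc v.1 h5).2.1 u
    · rw [abs_zero]
      exact hC
  have hf2 : ∀ v, (∑ u, f v u ^ 2) / (Fintype.card (Idx r' m' → Res v.1) : ℝ) ≤ C / (Real.sqrt (Ideal.absNorm v.1.asIdeal)) ^ 3 := by
    intro v
    rw [sum_congr rfl fun u _ => by rw [hf]]
    unfold fv
    split_ifs with h5
    · refine ((hloc v.1 h5).2.2.1).trans ?_
      refine div_le_div_of_nonneg_left hC (pow_pos (Real.sqrt_pos.2 (by linarith [hN1 v.1])) _) ?_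
      have h6 : 1 ≤ Real.sqrt (Ideal.absNorm v.1.asIdeal) := Real.one_le_sqrt.2 (hN1 v.1)
      calc Real.sqrt (Ideal.absNorm v.1.asIdeal) ^ 3 ≤ Real.sqrt (Ideal.absNorm v.1.asIdeal) ^ 4 := pow_le_pow_right₀ h6 (by norm_num)
        _ = (Ideal.absNorm v.1.asIdeal : ℝ) ^ 2 := by
          rw [show (4 : ℕ) = 2 * 2 from rfl, pow_mul, Real.sq_sqrt (by linarith [hN1 v.1])]
    · have h6 : ∑ u : Idx r' m' → Res v.1, (0 : ℝ) ^ 2 = 0 := by simp
      rw [h6, zero_div]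
      positivity
  have hf3 : ∀ v, (∑ u, f v u) / (Fintype.card (Idx r' m' → Res v.1) : ℝ) ≤ c * (1 / (Ideal.absNorm v.1.asIdeal : ℝ)) +
      C * (1 / (Real.sqrt (Ideal.absNorm v.1.asIdeal)) ^ 3) + |c| * (if Q₀ < Ideal.absNorm v.1.asIdeal then 0 else 1) := by
    intro v
    rw [sum_congr rfl fun u _ => hf v u]
    unfold fv
    by_cases h5 : Q₀ < Ideal.absNorm v.1.asIdeal
    · simp only [if_pos h5]
      have h6 := (abs_le.1 (hloc v.1 h5).2.2.2).2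
      rw [mul_one_div, mul_one_div]
      linarith
    · simp only [if_neg h5]
      rw [sum_const_zero, zero_div, mul_one]
      have h7 : 0 ≤ C * (1 / (Real.sqrt (Ideal.absNorm v.1.asIdeal)) ^ 3) := by positivity
      have h8 : |c * (1 / (Ideal.absNorm v.1.asIdeal : ℝ))| ≤ |c| := by
        rw [abs_mul]
        refine mul_le_of_le_one_right (abs_nonneg _) ?_
        rw [abs_of_nonneg (by positivity), div_le_one (by linarith [hN1 v.1])]
        exact hN1 v.1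
      linarith [(abs_le.1 h8).1]
  have hmean : ∑ v, (∑ u, f v u) / (Fintype.card (Idx r' m' → Res v.1) : ℝ) ≤ c * V + M := by
    refine (sum_le_sum fun v _ => hf3 v).trans ?_
    rw [sum_add_distrib, sum_add_distrib, ← mul_sum, ← mul_sum, ← mul_sum]
    have e1 : ∑ v : {v : HeightOneSpectrum (𝓞 K) // v ∈ SX K X}, 1 / (Ideal.absNorm v.1.asIdeal : ℝ) =
        ∑ v ∈ SX K X, 1 / (Ideal.absNorm v.asIdeal : ℝ) := sum_coe_sort (SX K X) fun v => 1 / (Ideal.absNorm v.asIdeal : ℝ)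
    have e2 : ∑ v : {v : HeightOneSpectrum (𝓞 K) // v ∈ SX K X}, 1 / (Real.sqrt (Ideal.absNorm v.1.asIdeal)) ^ 3 =
        ∑ v ∈ SX K X, 1 / (Real.sqrt (Ideal.absNorm v.asIdeal)) ^ 3 :=
      sum_coe_sort (SX K X) fun v => 1 / (Real.sqrt (Ideal.absNorm v.asIdeal)) ^ 3
    have e3 : ∑ v : {v : HeightOneSpectrum (𝓞 K) // v ∈ SX K X}, (if Q₀ < Ideal.absNorm v.1.asIdeal then (0 : ℝ) else 1) ≤ (SX K Q₀).card := by
      rw [sum_coe_sort (SX K X) fun v => if Q₀ < Ideal.absNorm v.asIdeal then (0 : ℝ) else 1]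
      have h6 : ∑ v ∈ SX K X, (if Q₀ < Ideal.absNorm v.asIdeal then (0 : ℝ) else 1) =
          (((SX K X).filter fun v => ¬ Q₀ < Ideal.absNorm v.asIdeal).card : ℝ) := by
        rw [card_filter]
        push_cast
        refine sum_congr rfl fun v _ => ?_
        by_cases h7 : Q₀ < Ideal.absNorm v.asIdeal
        · rw [if_pos h7, if_neg (not_not.2 h7)]
        · rw [if_neg h7, if_pos h7]
      rw [h6]
      refine Nat.cast_le.2 (card_le_card fun v hv => mem_SX.2 (not_lt.1 (mem_filter.1 hv).2))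
    rw [e1, e2]
    have e4 : c * ∑ v ∈ SX K X, 1 / (Ideal.absNorm v.asIdeal : ℝ) ≤ c * V + |c| * C₁ := by
      have h5 : c * (∑ v ∈ SX K X, 1 / (Ideal.absNorm v.asIdeal : ℝ) - V) ≤ |c| * C₁ := by
        refine (le_abs_self _).trans ?_
        rw [abs_mul]
        exact mul_le_mul_of_nonneg_left hsum (abs_nonneg _)
      linarith
    have e5 := mul_le_mul_of_nonneg_left (h3 X) hC
    have e6 := mul_le_mul_of_nonneg_left e3 (abs_nonneg c)
    rw [hM]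
    linarith
  have hσ : ∑ v : {v : HeightOneSpectrum (𝓞 K) // v ∈ SX K X}, C / (Real.sqrt (Ideal.absNorm v.1.asIdeal)) ^ 3 ≤ C * C₃ := by
    rw [sum_coe_sort (SX K X) fun v => C / (Real.sqrt (Ideal.absNorm v.asIdeal)) ^ 3]
    have h5 := mul_le_mul_of_nonneg_left (h3 X) hC
    rw [mul_sum] at h5
    refine le_trans (le_of_eq ?_) h5
    exact sum_congr rfl fun v _ => by rw [mul_one_div]
  have hch := chernoff f C (fun v => C / (Real.sqrt (Ideal.absNorm v.1.asIdeal)) ^ 3) hf1 hf2 s (ρ * V - M) hs0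
  refine frac_le (hch.trans ?_) fun u hu => ?_
  · refine Real.exp_le_exp.2 ?_
    have h5 : s ^ 2 * Real.exp (2 * s * C) * ∑ v : {v : HeightOneSpectrum (𝓞 K) // v ∈ SX K X}, C / (Real.sqrt (Ideal.absNorm v.1.asIdeal)) ^ 3 ≤
        s ^ 2 * Real.exp (2 * s * C) * (C * C₃) := mul_le_mul_of_nonneg_left hσ (by positivity)
    have h6 : s * (ρ * V) = (A + 1) * V := by
      rw [hs]
      field_simp
    have h7 : s * (ρ * V - M) = (A + 1) * V - s * M := by rw [mul_sub, h6]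
    rw [h7]
    linarith
  · rw [sum_congr rfl fun (v : {v : HeightOneSpectrum (𝓞 K) // v ∈ SX K X}) _ => hf v (u v)]
    have hu' : (c + ρ) * V ≤ ∑ v : {v : HeightOneSpectrum (𝓞 K) // v ∈ SX K X}, fv Q₀ g r m r' m' v.1 (fpol (u v)) := hu
    linarith

end

end Q69.OD
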