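import Pool.Agent.Q69.OD.Two
import Pool.Agent.Q69.OD.Opt

/-!
# The product of the local values is the likelihood ratio
-/

set_option autoImplicit false
set_option linter.unusedSectionVars false

namespace Q69.OD

open Finset NumberField IsDedekindDomain Polynomial
open Q282.GK Q282.NF Q282.JK
open Pool.Agent.H921R2.TatePole (below deg nm nm_eq)

/-- the numerical step -/
lemma ratio_num {a a' Ψ Ψ' A : ℝ} (hA : 0 < A) (hΨ : 0 < Ψ) (hΨ' : 0 < Ψ') (h1 : (1 / 2) * (Ψ' / A) ≤ a') (h2 : a' ≤ 2 * (Ψ' / A))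
    (h3 : (1 / 2) * (Ψ / A) ≤ a) (h4 : a ≤ 2 * (Ψ / A)) : 0 < a' ∧ 0 < a ∧ |Real.log (a' / a) - Real.log (Ψ' / Ψ)| ≤ Real.log 4 := by
  have p1 : 0 < Ψ' / A := div_pos hΨ' hA
  have p2 : 0 < Ψ / A := div_pos hΨ hA
  have ha' : 0 < a' := by linarith
  have ha : 0 < a := by linarith
  refine ⟨ha', ha, ?_⟩
  have e : Real.log (a' / a) - Real.log (Ψ' / Ψ) = (Real.log a' - Real.log (Ψ' / A)) - (Real.log a - Real.log (Ψ / A)) := by
    rw [Real.log_div ha'.ne' ha.ne', Real.log_div hΨ'.ne' hΨ.ne', Real.log_div hΨ'.ne' hA.ne', Real.log_div hΨ.ne' hA.ne']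
    ring
  have l4 : Real.log 4 = Real.log 2 + Real.log 2 := by
    rw [← Real.log_mul (by norm_num) (by norm_num)]
    norm_num
  have key : ∀ x y : ℝ, 0 < y → (1 / 2) * y ≤ x → x ≤ 2 * y → |Real.log x - Real.log y| ≤ Real.log 2 := by
    intro x y hy hx1 hx2
    have hx : 0 < x := by linarith
    rw [abs_le]
    constructor
    · have h5 : Real.log y ≤ Real.log (2 * x) := Real.log_le_log hy (by linarith)
      rw [Real.log_mul (by norm_num) hx.ne'] at h5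
      linarith
    · have h5 : Real.log x ≤ Real.log (2 * y) := Real.log_le_log hx hx2
      rw [Real.log_mul (by norm_num) hy.ne'] at h5
      linarith
  rw [e, l4]
  exact (abs_sub _ _).trans (add_le_add (key _ _ p1 h1 h2) (key _ _ p2 h3 h4))

section

variable {K : Type} [Field K] [NumberField K]

open Classical in
/-- the density of the members with given reductions -/
theorem dens_red (X d : ℕ) (b : Fin d → 𝓞 K) (hb : ∀ x : 𝓞 K, ∃ a : Fin d → ℤ, x = ∑ j, (a j : 𝓞 K) * b j) {r m : ℕ}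
    (N : Idx r m × Fin d → ℤ) (L : Idx r m × Fin d → ℕ) (hL : ∀ k, 2 * (4 : ℝ) ^ X * Fintype.card (Idx r m × Fin d) ≤ L k)
    (hP : 0 < ∏ k, (L k : ℝ)) (f : (𝓞 K)[X]) :
    (1 / 2) * ((∏ v : {v : HeightOneSpectrum (𝓞 K) // v ∈ SX K X}, psi r m (f.map (red v.1))) /
        ∏ v : {v : HeightOneSpectrum (𝓞 K) // v ∈ SX K X}, (Fintype.card (Res v.1) : ℝ) ^ (r + m)) ≤
      (((kbox N L).filter fun n => ∀ v ∈ SX K X, (fpol (comb b n)).map (red v) = f.map (red v)).card : ℝ) / ∏ k, (L k : ℝ) ∧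
    (((kbox N L).filter fun n => ∀ v ∈ SX K X, (fpol (comb b n)).map (red v) = f.map (red v)).card : ℝ) / ∏ k, (L k : ℝ) ≤
      2 * ((∏ v : {v : HeightOneSpectrum (𝓞 K) // v ∈ SX K X}, psi r m (f.map (red v.1))) /
        ∏ v : {v : HeightOneSpectrum (𝓞 K) // v ∈ SX K X}, (Fintype.card (Res v.1) : ℝ) ^ (r + m)) := by
  obtain ⟨P, hPe⟩ : ∃ P : (v : {v : HeightOneSpectrum (𝓞 K) // v ∈ SX K X}) → (Res v.1)[X], ∀ v, P v = f.map (red v.1) :=
    ⟨fun v => f.map (red v.1), fun _ => rfl⟩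
  obtain ⟨E, hE⟩ : ∃ E : Finset (Om K (Idx r m) X), E = (univ : Finset (Om K (Idx r m) X)).filter fun u => DD u = P := ⟨_, rfl⟩
  have hset : (kbox N L).filter (fun n => ∀ v ∈ SX K X, (fpol (comb b n)).map (red v) = f.map (red v)) =
      (kbox N L).filter fun n => resid X (comb b n) ∈ E := by
    refine filter_congr fun n _ => ?_
    rw [hE, mem_filter]
    constructor
    · intro h
      refine ⟨mem_univ _, funext fun v => ?_⟩
      rw [hPe, ← h v.1 v.2, fpol_map]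
      rfl
    · rintro ⟨-, h⟩ v hv
      have h1 := congrFun h ⟨v, hv⟩
      rw [hPe] at h1
      rw [fpol_map]
      exact h1
  have hEc : (E.card : ℝ) / Fintype.card (Om K (Idx r m) X) =
      (∏ v : {v : HeightOneSpectrum (𝓞 K) // v ∈ SX K X}, psi r m (f.map (red v.1))) /
        ∏ v : {v : HeightOneSpectrum (𝓞 K) // v ∈ SX K X}, (Fintype.card (Res v.1) : ℝ) ^ (r + m) := by
    rw [hE, fib_prod]
    have h1 : ((∏ v, (fibS r m (P v)).card : ℕ) : ℝ) =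
        (∏ v : {v : HeightOneSpectrum (𝓞 K) // v ∈ SX K X}, psi r m (f.map (red v.1))) *
          ∏ v : {v : HeightOneSpectrum (𝓞 K) // v ∈ SX K X}, (Fintype.card (Res v.1) : ℝ) ^ r := by
      rw [← prod_mul_distrib]
      push_cast
      refine prod_congr rfl fun v _ => ?_
      unfold psi
      have hq : (0 : ℝ) < Fintype.card (Res v.1) := by exact_mod_cast Fintype.card_pos
      rw [div_mul_cancel₀ _ (pow_pos hq _).ne', hPe]
    have h2 := card_om (F := fun v : {v : HeightOneSpectrum (𝓞 K) // v ∈ SX K X} => Res v.1) (r := r) (m := m)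
    have h3 : (0 : ℝ) < ∏ v : {v : HeightOneSpectrum (𝓞 K) // v ∈ SX K X}, (Fintype.card (Res v.1) : ℝ) ^ r :=
      prod_pos fun v _ => pow_pos (by exact_mod_cast Fintype.card_pos) _
    rw [h1]
    refine (congrArg (fun z => _ / z) h2).trans ?_
    exact mul_div_mul_right _ _ h3.ne'
  obtain ⟨h1, h2⟩ := eq_K X b hb N L hL E
  rw [hset, ← hEc]
  constructor
  · rw [le_div_iff₀ hP]
    refine le_trans (le_of_eq ?_) h1
    ring
  · rw [div_le_iff₀ hP]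
    refine h2.trans (le_of_eq ?_)
    ring

end

open Classical in
/-- the product of the local values is the likelihood ratio of two families -/
theorem ratio_K (K : Type) [Field K] [NumberField K] (g r r' : ℕ) (hg1 : 1 ≤ g) (hrr : r ≤ r') (hr' : r' ≤ g) (s : ℝ) (hs : 0 ≤ s) :
    ∃ C : ℝ, 0 ≤ C ∧ ∃ X₁ : ℕ, 16 ≤ X₁ ∧ ∀ X : ℕ, X₁ ≤ X → ∀ T : ℝ, Real.exp (2 * X) ≤ T →
    ∀ (b b' : Fin (Module.finrank ℚ K) → 𝓞 K), (∀ x : 𝓞 K, ∃ a : Fin (Module.finrank ℚ K) → ℤ, x = ∑ j, (a j : 𝓞 K) * b j) →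
    (∀ x : 𝓞 K, ∃ a : Fin (Module.finrank ℚ K) → ℤ, x = ∑ j, (a j : 𝓞 K) * b' j) →
    ∀ (N : Idx r (2 * g + 1 - r) × Fin (Module.finrank ℚ K) → ℤ) (L : Idx r (2 * g + 1 - r) × Fin (Module.finrank ℚ K) → ℕ),
    (∀ k, T ≤ L k) →
    ∀ (N' : Idx r' (2 * g + 1 - r') × Fin (Module.finrank ℚ K) → ℤ) (L' : Idx r' (2 * g + 1 - r') × Fin (Module.finrank ℚ K) → ℕ),
    (∀ k, T ≤ L' k) → ∀ (A B : (Idx r' (2 * g + 1 - r') × Fin (Module.finrank ℚ K) → ℤ) → ℝ),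
    (∀ n, A n = (((kbox N' L').filter fun n' => ∀ v ∈ SX K X, (fpol (comb b' n')).map (red v) = (fpol (comb b' n)).map (red v)).card : ℝ) /
      ∏ k, (L' k : ℝ)) →
    (∀ n, B n = (((kbox N L).filter fun n' => ∀ v ∈ SX K X, (fpol (comb b n')).map (red v) = (fpol (comb b' n)).map (red v)).card : ℝ) /
      ∏ k, (L k : ℝ)) →
      (∀ n, 0 < A n ∧ 0 < B n) ∧
      ∀ t : ℝ, (((kbox N' L').filter fun n => t ≤ |Real.log (A n / B n) - (((r' : ℝ) - r) * Real.log (product (fpol (comb b' n)) X) -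
          ((r' : ℝ) - r) * (r + r' + 1) / 2 * Real.log (Real.log X))|).card : ℝ) ≤ C * Real.exp (-(s * t)) * ∏ k, (L' k : ℝ) := by
  obtain ⟨m, hm⟩ : ∃ m : ℕ, m = 2 * g + 1 - r := ⟨_, rfl⟩
  obtain ⟨m', hm'⟩ : ∃ m' : ℕ, m' = 2 * g + 1 - r' := ⟨_, rfl⟩
  have hrm : r + m = 2 * g + 1 := by omega
  have hrm' : r' + m' = 2 * g + 1 := by omega
  have hr : r ≤ g := hrr.trans hr'
  obtain ⟨Q₀, hQ₀, hQ, hlaw⟩ := fv_two K g r r' m m' hrm hrm' hr hr' hg1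
  obtain ⟨C, hC, hX⟩ := hlaw s hs
  obtain ⟨D₀, hD₀, hW⟩ := lr_W K g r r' m m' hrm hrm' hrr hr' hg1 Q₀ hQ₀ hQ
  obtain ⟨D₁, hD₁, hW'⟩ := lr_W' K g r r' m m' hrm hrm' hrr hr' hg1 Q₀ hQ₀ hQ
  obtain ⟨X₄, hX₄⟩ := big_T (Fintype.card (Idx r m × Fin (Module.finrank ℚ K)) + Fintype.card (Idx r' m' × Fin (Module.finrank ℚ K)))
  obtain ⟨D, hD⟩ : ∃ D : ℝ, D = D₀ + D₁ + Real.log 4 := ⟨_, rfl⟩
  refine ⟨2 * (C * Real.exp (s * D)), by positivity, max 16 X₄, le_max_left _ _, ?_⟩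
  rw [← hm, ← hm']
  clear hm hm'
  intro X hXX T hT b b' hb hb' N L hL N' L' hL' A B hA hB
  rw [max_le_iff] at hXX
  obtain ⟨hX16, hx4⟩ := hXX
  obtain ⟨hT4, -⟩ := hX₄ X hx4 T hT
  have hcN : ∀ (c c' : ℕ), 2 * (4 : ℝ) ^ X * ((c + c' : ℕ) : ℝ) ≤ T → 2 * (4 : ℝ) ^ X * (c : ℝ) ≤ T ∧ 2 * (4 : ℝ) ^ X * (c' : ℝ) ≤ T := by
    intro c c' h
    push_cast at h
    have h4 : (0 : ℝ) ≤ 4 ^ X := by positivity
    have h5 : (0 : ℝ) ≤ (4 : ℝ) ^ X * c := by positivity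
    have h6 : (0 : ℝ) ≤ (4 : ℝ) ^ X * c' := by positivity
    constructor <;> nlinarith
  obtain ⟨hT5, hT6⟩ := hcN _ _ hT4
  have hT0 : 0 < T := (Real.exp_pos _).trans_le hT
  have hP0 : 0 < ∏ k, (L k : ℝ) := prod_pos fun k _ => hT0.trans_le (hL k)
  have hP0' : 0 < ∏ k, (L' k : ℝ) := prod_pos fun k _ => hT0.trans_le (hL' k)
  obtain ⟨V, hV⟩ : ∃ V : ℝ, V = Real.log (Real.log X) := ⟨_, rfl⟩
  obtain ⟨k, hk⟩ : ∃ k : ℝ, k = (r' : ℝ) - r := ⟨_, rfl⟩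
  obtain ⟨c, hc⟩ : ∃ c : ℝ, c = k ^ 2 / 2 - k * (r' + 1 / 2) := ⟨_, rfl⟩
  have hlaw' := hX X (by omega)
  rw [← hk, ← hc, ← hV] at hlaw'
  rw [← hk, ← hV]
  -- one member
  have hone : ∀ n : Idx r' m' × Fin (Module.finrank ℚ K) → ℤ, 0 < A n ∧ 0 < B n ∧
      |Real.log (A n / B n) - (k * Real.log (product (fpol (comb b' n)) X) - k * (r + r' + 1) / 2 * V)| ≤
        |∑ v : {v : HeightOneSpectrum (𝓞 K) // v ∈ SX K X}, fv Q₀ g r m r' m' v.1 (fpol (resid X (comb b' n) v)) - c * V| + D := by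
    intro n
    obtain ⟨Ψ, hΨe⟩ : ∃ Ψ : ℝ, Ψ = ∏ v : {v : HeightOneSpectrum (𝓞 K) // v ∈ SX K X}, psi r m (fpol (resid X (comb b' n) v)) := ⟨_, rfl⟩
    obtain ⟨Ψ', hΨ'e⟩ : ∃ Ψ' : ℝ, Ψ' = ∏ v : {v : HeightOneSpectrum (𝓞 K) // v ∈ SX K X}, psi r' m' (fpol (resid X (comb b' n) v)) := ⟨_, rfl⟩
    obtain ⟨F, hF⟩ : ∃ F : ℝ, F = ∑ v : {v : HeightOneSpectrum (𝓞 K) // v ∈ SX K X}, fv Q₀ g r m r' m' v.1 (fpol (resid X (comb b' n) v)) :=
      ⟨_, rfl⟩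
    obtain ⟨Λ, hΛ⟩ : ∃ Λ : ℝ, Λ = Real.log (product (fpol (comb b' n)) X) := ⟨_, rfl⟩
    have hΨ0 : 0 < Ψ := by
      rw [hΨe]
      refine prod_pos fun v _ => ?_
      obtain ⟨w, hw⟩ := fib_pos_of_le (F := Res v.1) (r := r) (m := m) (r' := r') (m' := m') hrr (by omega) (by omega) (by omega)
        (resid X (comb b' n) v)
      have h3 : 0 < (fibS r m (fpol (resid X (comb b' n) v))).card := card_pos.2 ⟨w, mem_fibS.2 hw⟩
      have h4 : (0 : ℝ) < Fintype.card (Res v.1) := by exact_mod_cast Fintype.card_pos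
      unfold psi
      exact div_pos (by exact_mod_cast h3) (pow_pos h4 _)
    have hw1 := hW X (resid X (comb b' n))
    have hw2 := hW' X (resid X (comb b' n))
    have hlp := log_prod_locv g r' m' hrm' (by omega) (comb b' n) X
    rw [← hk, ← hΨe, ← hΨ'e, ← hF, ← hlp, ← hΛ] at hw1 hw2
    have hΨ'0 : 0 < Ψ' := lt_of_lt_of_le (mul_pos (Real.exp_pos _) hΨ0) hw2
    have hm1 : ∀ v : {v : HeightOneSpectrum (𝓞 K) // v ∈ SX K X}, (fpol (comb b' n)).map (red v.1) = fpol (resid X (comb b' n) v) := fun v =>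
      fpol_map _ _
    obtain ⟨a1, a2⟩ := dens_red X _ b' hb' N' L' (fun k => hT6.trans (hL' k)) hP0' (fpol (comb b' n))
    obtain ⟨a3, a4⟩ := dens_red X _ b hb N L (fun k => hT5.trans (hL k)) hP0 (fpol (comb b' n))
    rw [← hA n, prod_congr rfl fun (v : {v : HeightOneSpectrum (𝓞 K) // v ∈ SX K X}) _ => by rw [hm1 v], ← hΨ'e, hrm'] at a1 a2
    rw [← hB n, prod_congr rfl fun (v : {v : HeightOneSpectrum (𝓞 K) // v ∈ SX K X}) _ => by rw [hm1 v], ← hΨe, hrm] at a3 a4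
    have hA0 : (0 : ℝ) < ∏ v : {v : HeightOneSpectrum (𝓞 K) // v ∈ SX K X}, (Fintype.card (Res v.1) : ℝ) ^ (2 * g + 1) :=
      prod_pos fun v _ => pow_pos (by exact_mod_cast Fintype.card_pos) _
    obtain ⟨p1, p2, p3⟩ := ratio_num hA0 hΨ0 hΨ'0 a1 a2 a3 a4
    refine ⟨p1, p2, ?_⟩
    have hl : |Real.log (Ψ' / Ψ) - (F + k * Λ)| ≤ D₀ + D₁ := by
      rw [abs_le]
      have h5 : Real.log (Ψ' / Ψ) ≤ D₀ + F + k * Λ := by
        rw [Real.log_le_iff_le_exp (div_pos hΨ'0 hΨ0), div_le_iff₀ hΨ0]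
        exact hw1
      have h6 : -D₁ + F + k * Λ ≤ Real.log (Ψ' / Ψ) := by
        rw [Real.le_log_iff_exp_le (div_pos hΨ'0 hΨ0), le_div_iff₀ hΨ0]
        exact hw2
      constructor <;> linarith
    rw [← hF, ← hΛ]
    have h6 : (r' : ℝ) = r + k := by rw [hk]; ring
    have e : Real.log (A n / B n) - (k * Λ - k * (r + r' + 1) / 2 * V) =
        (Real.log (A n / B n) - Real.log (Ψ' / Ψ)) + (Real.log (Ψ' / Ψ) - (F + k * Λ)) + (F - c * V) := by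
      rw [hc, h6]
      ring
    rw [e, hD]
    refine (abs_add_le _ _).trans ?_
    have h7 := abs_add_le (Real.log (A n / B n) - Real.log (Ψ' / Ψ)) (Real.log (Ψ' / Ψ) - (F + k * Λ))
    linarith
  refine ⟨fun n => ⟨(hone n).1, (hone n).2.1⟩, fun t => ?_⟩
  have h5 := (eq_K X b' hb' N' L' (fun k => hT6.trans (hL' k)) ((univ : Finset (Om K (Idx r' m') X)).filter fun u =>
    t - D ≤ |∑ v : {v : HeightOneSpectrum (𝓞 K) // v ∈ SX K X}, fv Q₀ g r m r' m' v.1 (fpol (u v)) - c * V|)).2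
  have h6 : (((kbox N' L').filter fun n => t ≤ |Real.log (A n / B n) - (k * Real.log (product (fpol (comb b' n)) X) -
      k * (r + r' + 1) / 2 * V)|).card : ℝ) ≤ (((kbox N' L').filter fun n => resid X (comb b' n) ∈
        (univ : Finset (Om K (Idx r' m') X)).filter fun u =>
          t - D ≤ |∑ v : {v : HeightOneSpectrum (𝓞 K) // v ∈ SX K X}, fv Q₀ g r m r' m' v.1 (fpol (u v)) - c * V|).card : ℝ) := by
    refine Nat.cast_le.2 (card_le_card fun n hn => ?_)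
    rw [mem_filter] at hn ⊢
    rw [mem_filter]
    refine ⟨hn.1, mem_univ _, ?_⟩
    have h7 := (hone n).2.2
    linarith [hn.2]
  refine h6.trans (h5.trans ((mul_le_mul_of_nonneg_left (hlaw' (t - D)) (by positivity)).trans (le_of_eq ?_)))
  have h8 : Real.exp (-(s * (t - D))) = Real.exp (s * D) * Real.exp (-(s * t)) := by
    rw [← Real.exp_add]
    congr 1
    ring
  rw [h8]
  ring

end Q69.OD
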