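import Pool.Agent.Q69.OD.Lrk

/-!
# Two-sided bounds for the likelihood ratio
-/

set_option autoImplicit false
set_option linter.unusedSectionVars false

namespace Q69.OD

open Finset NumberField IsDedekindDomain Polynomial
open Q282.GK Q282.NF Q282.JK
open Pool.Agent.H921R2.TatePole (below deg nm nm_eq)

lemma small_lower {F : Type} [Field F] [Fintype F] [DecidableEq F] (g r r' m m' : ℕ) (hrm : r + m = 2 * g + 1)
    (hrm' : r' + m' = 2 * g + 1) (hrr : r ≤ r') (B Q₀ : ℝ) (hQ : (Fintype.card F : ℝ) ≤ Q₀) (u : Idx r' m' → F)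
    (hB : |locv g (fpol u)| ≤ B) :
    Real.exp (((r' : ℝ) - r) * locv g (fpol u)) * psi r m (fpol u) ≤
      (Q₀ ^ (2 * g + 1 + r') * Real.exp (((r' : ℝ) - r) * B)) * psi r' m' (fpol u) := by
  obtain ⟨q, hq⟩ : ∃ q : ℝ, q = Fintype.card F := ⟨_, rfl⟩
  have hq1 : 1 ≤ q := by rw [hq]; exact_mod_cast Fintype.card_pos
  have hq0 : 0 < q := by linarith
  have hk : (0 : ℝ) ≤ (r' : ℝ) - r := by
    have : (r : ℝ) ≤ r' := by exact_mod_cast hrr
    linarith
  have h1 : psi r m (fpol u) ≤ q ^ (2 * g + 1) := by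
    unfold psi
    rw [← hq, div_le_iff₀ (by positivity)]
    have h2 : (fibS r m (fpol u)).card ≤ Fintype.card (Idx r m → F) := card_le_univ _
    have h3 := (Nat.cast_le (α := ℝ)).2 h2
    refine h3.trans (le_of_eq ?_)
    rw [Fintype.card_fun]
    push_cast
    rw [← hq, ← pow_add]
    congr 1
    simp only [Fintype.card_sum, Fintype.card_fin]
    omega
  have h2 : 1 / q ^ r' ≤ psi r' m' (fpol u) := by
    unfold psi
    rw [← hq]
    refine div_le_div_of_nonneg_right ?_ (by positivity)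
    have h3 : 0 < (fibS r' m' (fpol u)).card := card_pos.2 ⟨u, mem_fibS.2 rfl⟩
    exact_mod_cast h3
  have h3 : Real.exp (((r' : ℝ) - r) * locv g (fpol u)) ≤ Real.exp (((r' : ℝ) - r) * B) :=
    Real.exp_le_exp.2 (mul_le_mul_of_nonneg_left (abs_le.1 hB).2 hk)
  have h4 : q ^ (2 * g + 1) ≤ Q₀ ^ (2 * g + 1 + r') * psi r' m' (fpol u) := by
    calc q ^ (2 * g + 1) = q ^ (2 * g + 1 + r') * (1 / q ^ r') := by
          have e : q ^ (2 * g + 1 + r') = q ^ (2 * g + 1) * q ^ r' := pow_add _ _ _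
          have e2 : q ^ r' ≠ 0 := by positivity
          rw [e]
          field_simp
      _ ≤ Q₀ ^ (2 * g + 1 + r') * psi r' m' (fpol u) := by
          refine mul_le_mul (pow_le_pow_left₀ hq0.le (by rw [hq]; exact hQ) _) h2 (by positivity) ?_
          have : 0 ≤ Q₀ := hq0.le.trans (by rw [hq]; exact hQ)
          positivity
  have h5 : 0 ≤ psi r m (fpol u) := by unfold psi; positivity
  calc Real.exp (((r' : ℝ) - r) * locv g (fpol u)) * psi r m (fpol u) ≤ Real.exp (((r' : ℝ) - r) * B) * psi r m (fpol u) :=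
        mul_le_mul_of_nonneg_right h3 h5
    _ ≤ Real.exp (((r' : ℝ) - r) * B) * (Q₀ ^ (2 * g + 1 + r') * psi r' m' (fpol u)) :=
        mul_le_mul_of_nonneg_left (h1.trans h4) (Real.exp_pos _).le
    _ = _ := by ring

/-- the lower bound for the likelihood ratio -/
theorem lr_W' (K : Type) [Field K] [NumberField K] (g r r' m m' : ℕ) (hrm : r + m = 2 * g + 1) (hrm' : r' + m' = 2 * g + 1) (hrr : r ≤ r')
    (hr' : r' ≤ g) (hg1 : 1 ≤ g) (Q₀ : ℕ) (hQ₀ : 1 ≤ Q₀)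
    (hQ : ∀ v : HeightOneSpectrum (𝓞 K), Q₀ < Ideal.absNorm v.asIdeal → ringChar (Res v) ≠ 2 ∧
      ∀ P : (Res v)[X], P.Monic → P.natDegree = 2 * g + 1 → 0 < psi r m P ∧ 0 < psi r' m' P) :
    ∃ D₀ : ℝ, 0 ≤ D₀ ∧ ∀ X : ℕ, ∀ u : Om K (Idx r' m') X,
      Real.exp (-D₀ + ∑ v : {v : HeightOneSpectrum (𝓞 K) // v ∈ SX K X}, fv Q₀ g r m r' m' v.1 (fpol (u v)) +
          ((r' : ℝ) - r) * ∑ v : {v : HeightOneSpectrum (𝓞 K) // v ∈ SX K X}, locv g (fpol (u v))) *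
        ∏ v : {v : HeightOneSpectrum (𝓞 K) // v ∈ SX K X}, psi r m (fpol (u v)) ≤
      ∏ v : {v : HeightOneSpectrum (𝓞 K) // v ∈ SX K X}, psi r' m' (fpol (u v)) := by
  obtain ⟨B, hB, h1⟩ := locJ_mean g r' m' hrm' hr' hg1
  obtain ⟨k, hk⟩ : ∃ k : ℝ, k = (r' : ℝ) - r := ⟨_, rfl⟩
  have hk0 : 0 ≤ k := by
    have : (r : ℝ) ≤ r' := by exact_mod_cast hrr
    rw [hk]
    linarith
  have hQr : (1 : ℝ) ≤ Q₀ := by exact_mod_cast hQ₀
  obtain ⟨a₀, ha₀⟩ : ∃ a₀ : ℝ, a₀ = Real.log ((Q₀ : ℝ) ^ (2 * g + 1 + r') * Real.exp (k * B)) := ⟨_, rfl⟩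
  have hA1 : 1 ≤ (Q₀ : ℝ) ^ (2 * g + 1 + r') * Real.exp (k * B) := by
    have h2 : 1 ≤ (Q₀ : ℝ) ^ (2 * g + 1 + r') := one_le_pow₀ hQr
    have h3 : 1 ≤ Real.exp (k * B) := Real.one_le_exp (by positivity)
    nlinarith
  have ha₀0 : 0 ≤ a₀ := by rw [ha₀]; exact Real.log_nonneg hA1
  have ha₀e : Real.exp a₀ = (Q₀ : ℝ) ^ (2 * g + 1 + r') * Real.exp (k * B) := by rw [ha₀, Real.exp_log (by linarith)]
  refine ⟨(SX K Q₀).card * a₀, by positivity, fun X u => ?_⟩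
  rw [← hk]
  have hloc : ∀ v : {v : HeightOneSpectrum (𝓞 K) // v ∈ SX K X},
      Real.exp (-(if Q₀ < Ideal.absNorm v.1.asIdeal then 0 else a₀) + fv Q₀ g r m r' m' v.1 (fpol (u v)) + k * locv g (fpol (u v))) *
        psi r m (fpol (u v)) ≤ psi r' m' (fpol (u v)) := by
    intro v
    unfold fv
    split_ifs with h2
    · obtain ⟨p1, p2⟩ := (hQ v.1 h2).2 (fpol (u v)) (fpol_monic (by omega) _) (by rw [fpol_natDegree (by omega : r' ≤ m'), hrm'])
      refine le_of_eq ?_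
      have e : -(0 : ℝ) + xi g r m r' m' (fpol (u v)) + k * locv g (fpol (u v)) = Real.log (psi r' m' (fpol (u v)) / psi r m (fpol (u v))) := by
        unfold xi
        rw [hk]
        ring
      rw [e, Real.exp_log (div_pos p2 p1), div_mul_cancel₀ _ p1.ne']
    · have h3 : |locv g (fpol (u v))| ≤ B := by
        rw [locv_locJ]
        refine ((h1 (Res v.1)).1 (u v)).trans ?_
        refine div_le_self hB (Real.one_le_sqrt.2 ?_)
        exact_mod_cast Fintype.card_pos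
      have h4 := small_lower g r r' m m' hrm hrm' hrr B Q₀ (by
        rw [res_card]
        exact_mod_cast not_lt.1 h2) (u v) h3
      rw [← hk, ← ha₀e] at h4
      rw [add_zero, Real.exp_add, Real.exp_neg, inv_mul_eq_div, div_mul_eq_mul_div, div_le_iff₀ (Real.exp_pos _), mul_comm _ (Real.exp a₀)]
      exact h4
  have h2 : ∏ v : {v : HeightOneSpectrum (𝓞 K) // v ∈ SX K X},
        (Real.exp (-(if Q₀ < Ideal.absNorm v.1.asIdeal then 0 else a₀) + fv Q₀ g r m r' m' v.1 (fpol (u v)) + k * locv g (fpol (u v))) *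
          psi r m (fpol (u v))) ≤ ∏ v : {v : HeightOneSpectrum (𝓞 K) // v ∈ SX K X}, psi r' m' (fpol (u v)) := by
    refine prod_le_prod (fun v _ => ?_) fun v _ => hloc v
    unfold psi
    positivity
  rw [prod_mul_distrib, ← Real.exp_sum, sum_add_distrib, sum_add_distrib, ← mul_sum] at h2
  refine le_trans (mul_le_mul_of_nonneg_right (Real.exp_le_exp.2 ?_) (prod_nonneg fun v _ => by unfold psi; positivity)) h2
  have h3 : ∑ v : {v : HeightOneSpectrum (𝓞 K) // v ∈ SX K X}, (if Q₀ < Ideal.absNorm v.1.asIdeal then (0 : ℝ) else a₀) ≤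
      (SX K Q₀).card * a₀ := by
    rw [sum_coe_sort (SX K X) fun v => if Q₀ < Ideal.absNorm v.asIdeal then (0 : ℝ) else a₀]
    have h6 : ∑ v ∈ SX K X, (if Q₀ < Ideal.absNorm v.asIdeal then (0 : ℝ) else a₀) =
        (((SX K X).filter fun v => ¬ Q₀ < Ideal.absNorm v.asIdeal).card : ℝ) * a₀ := by
      rw [← nsmul_eq_mul, ← sum_const, sum_filter]
      refine sum_congr rfl fun v _ => ?_
      by_cases h7 : Q₀ < Ideal.absNorm v.asIdeal
      · rw [if_pos h7, if_neg (not_not.2 h7)]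
      · rw [if_neg h7, if_pos h7]
    rw [h6]
    refine mul_le_mul_of_nonneg_right ?_ ha₀0
    exact Nat.cast_le.2 (card_le_card fun v hv => mem_SX.2 (not_lt.1 (mem_filter.1 hv).2))
  rw [sum_neg_distrib]
  linarith

/-- the law of the sum of the differences, both tails -/
theorem fv_two (K : Type) [Field K] [NumberField K] (g r r' m m' : ℕ) (hrm : r + m = 2 * g + 1) (hrm' : r' + m' = 2 * g + 1) (hr : r ≤ g)
    (hr' : r' ≤ g) (hg1 : 1 ≤ g) : ∃ Q₀ : ℕ, 1 ≤ Q₀ ∧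
    (∀ v : HeightOneSpectrum (𝓞 K), Q₀ < Ideal.absNorm v.asIdeal → ringChar (Res v) ≠ 2 ∧
      ∀ P : (Res v)[X], P.Monic → P.natDegree = 2 * g + 1 → 0 < psi r m P ∧ 0 < psi r' m' P) ∧
    ∀ s : ℝ, 0 ≤ s → ∃ C : ℝ, 0 ≤ C ∧ ∀ X : ℕ, 3 ≤ X → ∀ t : ℝ,
      (((univ : Finset (Om K (Idx r' m') X)).filter fun u =>
          t ≤ |∑ v : {v : HeightOneSpectrum (𝓞 K) // v ∈ SX K X}, fv Q₀ g r m r' m' v.1 (fpol (u v)) -
            (((r' : ℝ) - r) ^ 2 / 2 - ((r' : ℝ) - r) * (r' + 1 / 2)) * Real.log (Real.log X)|).card : ℝ) /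
            Fintype.card (Om K (Idx r' m') X) ≤ C * Real.exp (-(s * t)) := by
  obtain ⟨C, hC, s₀, hs₀, h⟩ := xi_law g r r' m m' hrm hrm' hr hr' hg1
  obtain ⟨Q₀, hQ₀, hv⟩ := large_v (K := K) g hg1 s₀
  obtain ⟨C₃, hC₃, h3⟩ := sum_three K
  obtain ⟨C₁, hC₁, h1⟩ := sum_one K
  obtain ⟨c, hc⟩ : ∃ c : ℝ, c = ((r' : ℝ) - r) ^ 2 / 2 - ((r' : ℝ) - r) * (r' + 1 / 2) := ⟨_, rfl⟩
  have hloc : ∀ v : HeightOneSpectrum (𝓞 K), Q₀ < Ideal.absNorm v.asIdeal →
      (∀ P : (Res v)[X], P.Monic → P.natDegree = 2 * g + 1 → 0 < psi r m P ∧ 0 < psi r' m' P) ∧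
      (∀ u : Idx r' m' → Res v, |xi g r m r' m' (fpol u)| ≤ C) ∧
      (∑ u : Idx r' m' → Res v, xi g r m r' m' (fpol u) ^ 2) / (Fintype.card (Idx r' m' → Res v) : ℝ) ≤
        C / (Ideal.absNorm v.asIdeal : ℝ) ^ 2 ∧
      |(∑ u : Idx r' m' → Res v, xi g r m r' m' (fpol u)) / (Fintype.card (Idx r' m' → Res v) : ℝ) - c / (Ideal.absNorm v.asIdeal : ℝ)| ≤
        C / (Real.sqrt (Ideal.absNorm v.asIdeal)) ^ 3 := by
    intro v hvQ
    obtain ⟨a1, a2, a3⟩ := hv v hvQ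
    have h4 := h (Res v) a1 a2 (by rw [res_card]; exact a3)
    have h5 : (Fintype.card (Idx r' m' → Res v) : ℝ) = (Fintype.card (Res v) : ℝ) ^ Fintype.card (Idx r' m') := by
      rw [Fintype.card_fun]
      push_cast
      rfl
    rw [← hc] at h4
    rw [h5, ← res_card v]
    exact h4
  refine ⟨Q₀, hQ₀, fun v hvQ => ⟨(hv v hvQ).1, (hloc v hvQ).1⟩, fun s hs0 => ?_⟩
  rw [← hc]
  obtain ⟨M, hM⟩ : ∃ M : ℝ, M = |c| * C₁ + |c| * ((SX K Q₀).card : ℝ) + C * C₃ := ⟨_, rfl⟩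
  have hM0 : 0 ≤ M := by rw [hM]; positivity
  obtain ⟨D, hD⟩ : ∃ D : ℝ, D = s ^ 2 * Real.exp (2 * s * C) * (C * C₃) + s * M := ⟨_, rfl⟩
  refine ⟨2 * Real.exp D, by positivity, fun X hX t => ?_⟩
  obtain ⟨V, hV⟩ : ∃ V : ℝ, V = Real.log (Real.log X) := ⟨_, rfl⟩
  rw [← hV]
  have hsum := h1 X hX
  rw [← hV] at hsum
  -- local data
  obtain ⟨f, hf⟩ : ∃ f : (v : {v : HeightOneSpectrum (𝓞 K) // v ∈ SX K X}) → (Idx r' m' → Res v.1) → ℝ,
    ∀ v w, f v w = fv Q₀ g r m r' m' v.1 (fpol w) := ⟨fun v w => fv Q₀ g r m r' m' v.1 (fpol w), fun _ _ => rfl⟩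
  have hN1 : ∀ v : HeightOneSpectrum (𝓞 K), (1 : ℝ) ≤ Ideal.absNorm v.asIdeal := fun v => by exact_mod_cast Q282.JK.nm_pos v
  have hf1 : ∀ v u, |f v u| ≤ C := by
    intro v u
    rw [hf]
    unfold fv
    split_ifs with h5
    · exact (hloc v.1 h5).2.1 u
    · rw [abs_zero]
      exact hC
  have hf2 : ∀ v, (∑ u, f v u ^ 2) / (Fintype.card (Idx r' m' → Res v.1) : ℝ) ≤ C / (Real.sqrt (Ideal.absNorm v.1.asIdeal)) ^ 3 := by
    intro v
    rw [sum_congr rfl fun u _ => by rw [hf]]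
    unfold fv
    split_ifs with h5
    · refine ((hloc v.1 h5).2.2.1).trans ?_
      refine div_le_div_of_nonneg_left hC (pow_pos (Real.sqrt_pos.2 (by linarith [hN1 v.1])) _) ?_
      have h6 : 1 ≤ Real.sqrt (Ideal.absNorm v.1.asIdeal) := Real.one_le_sqrt.2 (hN1 v.1)
      calc Real.sqrt (Ideal.absNorm v.1.asIdeal) ^ 3 ≤ Real.sqrt (Ideal.absNorm v.1.asIdeal) ^ 4 := pow_le_pow_right₀ h6 (by norm_num)
        _ = (Ideal.absNorm v.1.asIdeal : ℝ) ^ 2 := by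
          rw [show (4 : ℕ) = 2 * 2 from rfl, pow_mul, Real.sq_sqrt (by linarith [hN1 v.1])]
    · have h6 : ∑ u : Idx r' m' → Res v.1, (0 : ℝ) ^ 2 = 0 := by simp
      rw [h6, zero_div]
      positivity
  have hf3 : ∀ v, |(∑ u, f v u) / (Fintype.card (Idx r' m' → Res v.1) : ℝ) - c * (1 / (Ideal.absNorm v.1.asIdeal : ℝ))| ≤
      C * (1 / (Real.sqrt (Ideal.absNorm v.1.asIdeal)) ^ 3) + |c| * (if Q₀ < Ideal.absNorm v.1.asIdeal then 0 else 1) := by
    intro v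
    rw [sum_congr rfl fun u _ => hf v u]
    unfold fv
    by_cases h5 : Q₀ < Ideal.absNorm v.1.asIdeal
    · simp only [if_pos h5]
      have h6 := (hloc v.1 h5).2.2.2
      rw [mul_one_div, mul_one_div, mul_zero, add_zero]
      exact h6
    · simp only [if_neg h5]
      rw [sum_const_zero, zero_div, mul_one, zero_sub, abs_neg]
      have h7 : 0 ≤ C * (1 / (Real.sqrt (Ideal.absNorm v.1.asIdeal)) ^ 3) := by positivity
      have h8 : |c * (1 / (Ideal.absNorm v.1.asIdeal : ℝ))| ≤ |c| := by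
        rw [abs_mul]
        refine mul_le_of_le_one_right (abs_nonneg _) ?_
        rw [abs_of_nonneg (by positivity), div_le_one (by linarith [hN1 v.1])]
        exact hN1 v.1
      linarith
  have hmean : |∑ v, (∑ u, f v u) / (Fintype.card (Idx r' m' → Res v.1) : ℝ) - c * V| ≤ M := by
    have e1 : ∑ v : {v : HeightOneSpectrum (𝓞 K) // v ∈ SX K X}, 1 / (Ideal.absNorm v.1.asIdeal : ℝ) =
        ∑ v ∈ SX K X, 1 / (Ideal.absNorm v.asIdeal : ℝ) := sum_coe_sort (SX K X) fun v => 1 / (Ideal.absNorm v.asIdeal : ℝ)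
    have e2 : ∑ v : {v : HeightOneSpectrum (𝓞 K) // v ∈ SX K X}, 1 / (Real.sqrt (Ideal.absNorm v.1.asIdeal)) ^ 3 =
        ∑ v ∈ SX K X, 1 / (Real.sqrt (Ideal.absNorm v.asIdeal)) ^ 3 :=
      sum_coe_sort (SX K X) fun v => 1 / (Real.sqrt (Ideal.absNorm v.asIdeal)) ^ 3
    have e3 : ∑ v : {v : HeightOneSpectrum (𝓞 K) // v ∈ SX K X}, (if Q₀ < Ideal.absNorm v.1.asIdeal then (0 : ℝ) else 1) ≤ (SX K Q₀).card := by
      rw [sum_coe_sort (SX K X) fun v => if Q₀ < Ideal.absNorm v.asIdeal then (0 : ℝ) else 1]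
      have h6 : ∑ v ∈ SX K X, (if Q₀ < Ideal.absNorm v.asIdeal then (0 : ℝ) else 1) =
          (((SX K X).filter fun v => ¬ Q₀ < Ideal.absNorm v.asIdeal).card : ℝ) := by
        rw [card_filter]
        push_cast
        refine sum_congr rfl fun v _ => ?_
        by_cases h7 : Q₀ < Ideal.absNorm v.asIdeal
        · rw [if_pos h7, if_neg (not_not.2 h7)]
        · rw [if_neg h7, if_pos h7]
      rw [h6]
      refine Nat.cast_le.2 (card_le_card fun v hv => mem_SX.2 (not_lt.1 (mem_filter.1 hv).2))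
    have e4 : ∑ v, (∑ u, f v u) / (Fintype.card (Idx r' m' → Res v.1) : ℝ) - c * V =
        ∑ v, ((∑ u, f v u) / (Fintype.card (Idx r' m' → Res v.1) : ℝ) - c * (1 / (Ideal.absNorm v.1.asIdeal : ℝ))) +
          c * (∑ v ∈ SX K X, 1 / (Ideal.absNorm v.asIdeal : ℝ) - V) := by
      rw [sum_sub_distrib, ← mul_sum, e1]
      ring
    rw [e4]
    refine (abs_add_le _ _).trans ?_
    have e5 : |∑ v, ((∑ u, f v u) / (Fintype.card (Idx r' m' → Res v.1) : ℝ) - c * (1 / (Ideal.absNorm v.1.asIdeal : ℝ)))| ≤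
        C * C₃ + |c| * (SX K Q₀).card := by
      refine (abs_sum_le_sum_abs _ _).trans ((sum_le_sum fun v _ => hf3 v).trans ?_)
      rw [sum_add_distrib, ← mul_sum, ← mul_sum, e2]
      exact add_le_add (mul_le_mul_of_nonneg_left (h3 X) hC) (mul_le_mul_of_nonneg_left e3 (abs_nonneg c))
    have e6 : |c * (∑ v ∈ SX K X, 1 / (Ideal.absNorm v.asIdeal : ℝ) - V)| ≤ |c| * C₁ := by
      rw [abs_mul]
      exact mul_le_mul_of_nonneg_left hsum (abs_nonneg _)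
    rw [hM]
    linarith
  have hσ : ∑ v : {v : HeightOneSpectrum (𝓞 K) // v ∈ SX K X}, C / (Real.sqrt (Ideal.absNorm v.1.asIdeal)) ^ 3 ≤ C * C₃ := by
    rw [sum_coe_sort (SX K X) fun v => C / (Real.sqrt (Ideal.absNorm v.asIdeal)) ^ 3]
    have h5 := mul_le_mul_of_nonneg_left (h3 X) hC
    rw [mul_sum] at h5
    refine le_trans (le_of_eq ?_) h5
    exact sum_congr rfl fun v _ => by rw [mul_one_div]
  have hch1 := chernoff f C (fun v => C / (Real.sqrt (Ideal.absNorm v.1.asIdeal)) ^ 3) hf1 hf2 s (t - M) hs0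
  have hch2 := chernoff (fun v w => -f v w) C (fun v => C / (Real.sqrt (Ideal.absNorm v.1.asIdeal)) ^ 3)
    (fun v u => by rw [abs_neg]; exact hf1 v u) (fun v => by
      have e : ∑ u, (-f v u) ^ 2 = ∑ u, f v u ^ 2 := sum_congr rfl fun u _ => by ring
      rw [e]
      exact hf2 v) s (t - M) hs0
  have hexp : Real.exp (s ^ 2 * Real.exp (2 * s * C) * (∑ v : {v : HeightOneSpectrum (𝓞 K) // v ∈ SX K X},
      C / (Real.sqrt (Ideal.absNorm v.1.asIdeal)) ^ 3) - s * (t - M)) ≤ Real.exp D * Real.exp (-(s * t)) := by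
    rw [← Real.exp_add]
    refine Real.exp_le_exp.2 ?_
    have h5 : s ^ 2 * Real.exp (2 * s * C) * ∑ v : {v : HeightOneSpectrum (𝓞 K) // v ∈ SX K X}, C / (Real.sqrt (Ideal.absNorm v.1.asIdeal)) ^ 3 ≤
        s ^ 2 * Real.exp (2 * s * C) * (C * C₃) := mul_le_mul_of_nonneg_left hσ (by positivity)
    rw [hD]
    linarith
  obtain ⟨m1, m2⟩ := abs_le.1 hmean
  have hE0 : (0 : ℝ) < Fintype.card (Om K (Idx r' m') X) := by exact_mod_cast Fintype.card_pos
  -- the two tails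
  have ht1 : (((univ : Finset (Om K (Idx r' m') X)).filter fun u =>
      c * V + t ≤ ∑ v : {v : HeightOneSpectrum (𝓞 K) // v ∈ SX K X}, fv Q₀ g r m r' m' v.1 (fpol (u v))).card : ℝ) /
      Fintype.card (Om K (Idx r' m') X) ≤ Real.exp D * Real.exp (-(s * t)) := by
    refine frac_le (hch1.trans hexp) fun u hu => ?_
    rw [sum_congr rfl fun (v : {v : HeightOneSpectrum (𝓞 K) // v ∈ SX K X}) _ => hf v (u v)]
    linarith
  have ht2 : (((univ : Finset (Om K (Idx r' m') X)).filter fun u =>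
      ∑ v : {v : HeightOneSpectrum (𝓞 K) // v ∈ SX K X}, fv Q₀ g r m r' m' v.1 (fpol (u v)) ≤ c * V - t).card : ℝ) /
      Fintype.card (Om K (Idx r' m') X) ≤ Real.exp D * Real.exp (-(s * t)) := by
    refine frac_le (hch2.trans hexp) fun u hu => ?_
    have e1 : ∑ v, (∑ u, -f v u) / (Fintype.card (Idx r' m' → Res v.1) : ℝ) = -∑ v, (∑ u, f v u) / (Fintype.card (Idx r' m' → Res v.1) : ℝ) := by
      rw [← sum_neg_distrib]
      exact sum_congr rfl fun v _ => by rw [sum_neg_distrib, neg_div]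
    rw [e1, sum_congr rfl fun (v : {v : HeightOneSpectrum (𝓞 K) // v ∈ SX K X}) _ => congrArg Neg.neg (hf v (u v)), sum_neg_distrib]
    linarith
  have hsub : ((univ : Finset (Om K (Idx r' m') X)).filter fun u =>
        t ≤ |∑ v : {v : HeightOneSpectrum (𝓞 K) // v ∈ SX K X}, fv Q₀ g r m r' m' v.1 (fpol (u v)) - c * V|) ⊆
      ((univ : Finset (Om K (Idx r' m') X)).filter fun u =>
        c * V + t ≤ ∑ v : {v : HeightOneSpectrum (𝓞 K) // v ∈ SX K X}, fv Q₀ g r m r' m' v.1 (fpol (u v))) ∪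
      ((univ : Finset (Om K (Idx r' m') X)).filter fun u =>
        ∑ v : {v : HeightOneSpectrum (𝓞 K) // v ∈ SX K X}, fv Q₀ g r m r' m' v.1 (fpol (u v)) ≤ c * V - t) := by
    intro u hu
    rw [mem_union, mem_filter, mem_filter]
    rw [mem_filter] at hu
    rcases le_abs.1 hu.2 with h5 | h5
    · exact Or.inl ⟨hu.1, by linarith⟩
    · exact Or.inr ⟨hu.1, by linarith⟩
  have hcard := (Nat.cast_le (α := ℝ)).2 ((card_le_card hsub).trans (card_union_le _ _))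
  push_cast at hcard
  rw [div_le_iff₀ hE0] at ht1 ht2 ⊢
  linarith

end Q69.OD
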