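import Pool.Agent.Q69.OD.Lam
import Pool.Agent.Q282.JB.Sq

/-!
# The law of the difference between the local likelihood ratio and the local value
-/

set_option autoImplicit false
set_option linter.unusedSectionVars false

namespace Q69.OD

open Polynomial Finset
open Q282.JK
open Pool.Agent.H341R2.Sharp
open Q282.JB (rpow_q locJ_sq)

section

variable {F : Type} [Field F] [Fintype F] [DecidableEq F] {r m r' m' : ℕ}

open Classical in
lemma psi_sum (P : F[X]) : psi r m P = (∑ u : Idx r m → F, if fpol u = P then (1 : ℝ) else 0) / (Fintype.card F : ℝ) ^ r := by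
  unfold psi fibS
  rw [← sum_filter, sum_const, nsmul_eq_mul, mul_one]

open Classical in
/-- the mean of the inverse of the likelihood ratio -/
lemma swap (hs : r + m = r' + m') (hpos : ∀ u : Idx r m → F, 0 < psi r' m' (fpol u)) :
    ∑ u : Idx r' m' → F, psi r m (fpol u) / psi r' m' (fpol u) = (Fintype.card F : ℝ) ^ Fintype.card (Idx r' m') := by
  obtain ⟨q, hq⟩ : ∃ q : ℝ, q = Fintype.card F := ⟨_, rfl⟩
  have hq0 : 0 < q := by rw [hq]; exact_mod_cast Fintype.card_pos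
  rw [← hq]
  have h1 : ∀ u : Idx r' m' → F, psi r m (fpol u) / psi r' m' (fpol u) =
      ∑ w : Idx r m → F, if fpol w = fpol u then 1 / (q ^ r * psi r' m' (fpol w)) else 0 := by
    intro u
    rw [psi_sum, ← hq, div_div, sum_div]
    refine sum_congr rfl fun w _ => ?_
    split_ifs with h
    · rw [h]
    · rw [zero_div]
  rw [sum_congr rfl fun u _ => h1 u, sum_comm]
  have h2 : ∀ w : Idx r m → F, ∑ u : Idx r' m' → F, (if fpol w = fpol u then 1 / (q ^ r * psi r' m' (fpol w)) else 0) = q ^ r' / q ^ r := by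
    intro w
    have h3 : ∑ u : Idx r' m' → F, (if fpol w = fpol u then 1 / (q ^ r * psi r' m' (fpol w)) else 0) =
        (∑ u : Idx r' m' → F, if fpol u = fpol w then (1 : ℝ) else 0) * (1 / (q ^ r * psi r' m' (fpol w))) := by
      rw [sum_mul]
      refine sum_congr rfl fun u _ => ?_
      by_cases h : fpol u = fpol w
      · rw [if_pos h, if_pos h.symm, one_mul]
      · rw [if_neg h, if_neg fun h' => h h'.symm, zero_mul]
    have h4 : (∑ u : Idx r' m' → F, if fpol u = fpol w then (1 : ℝ) else 0) = psi r' m' (fpol w) * q ^ r' := by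
      rw [psi_sum, ← hq, div_mul_cancel₀ _ (by positivity)]
    have h5 := (hpos w).ne'
    rw [h3, h4]
    field_simp
  rw [sum_congr rfl fun w _ => h2 w, sum_const, card_univ, Fintype.card_fun, nsmul_eq_mul]
  push_cast
  rw [← hq]
  have h6 : Fintype.card (Idx r m) + r' = Fintype.card (Idx r' m') + r := by
    simp only [Fintype.card_sum, Fintype.card_fin]
    omega
  rw [mul_div_assoc', ← pow_add, h6, pow_add]
  field_simp

end

lemma exp_three (z : ℝ) (hz : |z| ≤ 1) : |Real.exp z - 1 - z - z ^ 2 / 2| ≤ |z| ^ 3 := by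
  have h := Real.exp_bound hz (n := 3) (by norm_num)
  rw [sum_range_succ, sum_range_succ, sum_range_succ, sum_range_zero] at h
  have e : Real.exp z - (0 + z ^ 0 / (Nat.factorial 0 : ℕ) + z ^ 1 / (Nat.factorial 1 : ℕ) + z ^ 2 / (Nat.factorial 2 : ℕ)) =
      Real.exp z - 1 - z - z ^ 2 / 2 := by
    simp [Nat.factorial]
    ring
  rw [e] at h
  refine h.trans ?_
  have h0 : 0 ≤ |z| ^ 3 := by positivity
  have h1 : ((Nat.succ 3 : ℕ) : ℝ) / ((Nat.factorial 3 : ℕ) * (3 : ℕ)) ≤ 1 := by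
    simp [Nat.factorial]
    norm_num
  calc |z| ^ 3 * (((Nat.succ 3 : ℕ) : ℝ) / ((Nat.factorial 3 : ℕ) * (3 : ℕ))) ≤ |z| ^ 3 * 1 := mul_le_mul_of_nonneg_left h1 h0
    _ = _ := mul_one _

/-- the mean of the logarithm from the mean of the exponential -/
lemma mean_log {Ω : Type} [Fintype Ω] (Q D c s : ℝ) (hQ : Q = Fintype.card Ω) (hQ0 : 0 < Q) (hs : 1 ≤ s) (hD : 0 ≤ D) (hDs : D ≤ s)
    (x G : Ω → ℝ) (hx : ∀ u, |x u| ≤ D / s) (hexp : ∑ u, Real.exp (-x u) = Q) (k : ℝ)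
    (hc : (∑ u, |x u - k * G u|) / Q ≤ c / s ^ 2) (hG : ∀ u, |k * G u| ≤ D / s) :
    |(∑ u, x u) / Q - k ^ 2 * ((∑ u, G u ^ 2) / Q) / 2| ≤ (D ^ 3 + c * D) / s ^ 3 := by
  have hs0 : 0 < s := by linarith
  have h1 : |(∑ u, x u) / Q - ((∑ u, x u ^ 2) / Q) / 2| ≤ D ^ 3 / s ^ 3 := by
    have h2 : ∑ u, (Real.exp (-x u) - 1 - (-x u) - (-x u) ^ 2 / 2) = ∑ u, x u - (∑ u, x u ^ 2) / 2 := by
      have h3 : ∀ u, Real.exp (-x u) - 1 - (-x u) - (-x u) ^ 2 / 2 = (Real.exp (-x u) - 1) + (x u - x u ^ 2 / 2) := fun u => by ring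
      rw [sum_congr rfl fun u _ => h3 u, sum_add_distrib, sum_sub_distrib, sum_sub_distrib, hexp, sum_const, card_univ, nsmul_eq_mul,
        mul_one, ← hQ, sub_self, zero_add, sum_div]
    have h4 : |∑ u, x u - (∑ u, x u ^ 2) / 2| ≤ Q * (D ^ 3 / s ^ 3) := by
      rw [← h2]
      refine (abs_sum_le_sum_abs _ _).trans ?_
      have h5 : ∀ u ∈ (univ : Finset Ω), |Real.exp (-x u) - 1 - (-x u) - (-x u) ^ 2 / 2| ≤ D ^ 3 / s ^ 3 := by
        intro u _
        have h6 : |-x u| ≤ 1 := by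
          rw [abs_neg]
          refine (hx u).trans ?_
          rw [div_le_one hs0]
          exact hDs
        refine (exp_three _ h6).trans ?_
        rw [abs_neg, ← div_pow]
        exact pow_le_pow_left₀ (abs_nonneg _) (hx u) 3
      refine (sum_le_sum h5).trans (le_of_eq ?_)
      rw [sum_const, card_univ, nsmul_eq_mul, hQ]
    have h7 : (∑ u, x u) / Q - ((∑ u, x u ^ 2) / Q) / 2 = (∑ u, x u - (∑ u, x u ^ 2) / 2) / Q := by
      ring
    rw [h7, abs_div, abs_of_pos hQ0, div_le_iff₀ hQ0]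
    linarith
  have h2 : |(∑ u, x u ^ 2) / Q - k ^ 2 * ((∑ u, G u ^ 2) / Q)| ≤ 2 * (c * D) / s ^ 3 := by
    have h3 : (∑ u, x u ^ 2) / Q - k ^ 2 * ((∑ u, G u ^ 2) / Q) = (∑ u, (x u - k * G u) * (x u + k * G u)) / Q := by
      rw [← mul_div_assoc, mul_sum, ← sub_div, ← sum_sub_distrib]
      congr 1
      exact sum_congr rfl fun u _ => by ring
    rw [h3, abs_div, abs_of_pos hQ0]
    have h4 : |∑ u, (x u - k * G u) * (x u + k * G u)| ≤ (∑ u, |x u - k * G u|) * (2 * (D / s)) := by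
      refine (abs_sum_le_sum_abs _ _).trans ?_
      rw [sum_mul]
      refine sum_le_sum fun u _ => ?_
      rw [abs_mul]
      refine mul_le_mul_of_nonneg_left ?_ (abs_nonneg _)
      refine (abs_add_le _ _).trans ?_
      linarith [hx u, hG u]
    have h5 : 0 ≤ 2 * (D / s) := by positivity
    calc |∑ u, (x u - k * G u) * (x u + k * G u)| / Q ≤ (∑ u, |x u - k * G u|) * (2 * (D / s)) / Q := div_le_div_of_nonneg_right h4 hQ0.le
      _ = (∑ u, |x u - k * G u|) / Q * (2 * (D / s)) := by ring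
      _ ≤ c / s ^ 2 * (2 * (D / s)) := mul_le_mul_of_nonneg_right hc h5
      _ = _ := by
        field_simp
  have h3 : (∑ u, x u) / Q - k ^ 2 * ((∑ u, G u ^ 2) / Q) / 2 =
      ((∑ u, x u) / Q - ((∑ u, x u ^ 2) / Q) / 2) + ((∑ u, x u ^ 2) / Q - k ^ 2 * ((∑ u, G u ^ 2) / Q)) / 2 := by ring
  rw [h3]
  refine (abs_add_le _ _).trans ?_
  rw [abs_div, abs_two]
  have h4 : 2 * (c * D) / s ^ 3 = 2 * ((c * D) / s ^ 3) := by ring
  rw [h4] at h2
  rw [add_div]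
  linarith

/-- the difference between the logarithm of the local likelihood ratio and the multiple of the local value -/
noncomputable def xi {F : Type} [Field F] [Fintype F] [DecidableEq F] (g r m r' m' : ℕ) (P : F[X]) : ℝ :=
  Real.log (psi r' m' P / psi r m P) - ((r' : ℝ) - r) * locv g P

/-- the law of the difference -/
theorem xi_law (g r r' m m' : ℕ) (hrm : r + m = 2 * g + 1) (hrm' : r' + m' = 2 * g + 1) (hr : r ≤ g) (hr' : r' ≤ g) (hg1 : 1 ≤ g) :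
    ∃ C : ℝ, 0 ≤ C ∧ ∃ s₀ : ℝ, 1 ≤ s₀ ∧
    ∀ (F : Type) [Field F] [Fintype F] [DecidableEq F], ringChar F ≠ 2 → ((2 * g + 1 : ℕ) : F) ≠ 0 → s₀ ≤ Real.sqrt (Fintype.card F) →
      (∀ P : F[X], P.Monic → P.natDegree = 2 * g + 1 → 0 < psi r m P ∧ 0 < psi r' m' P) ∧
      (∀ u : Idx r' m' → F, |xi g r m r' m' (fpol u)| ≤ C) ∧
      (∑ u : Idx r' m' → F, xi g r m r' m' (fpol u) ^ 2) / (Fintype.card F : ℝ) ^ Fintype.card (Idx r' m') ≤ C / (Fintype.card F : ℝ) ^ 2 ∧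
      |(∑ u : Idx r' m' → F, xi g r m r' m' (fpol u)) / (Fintype.card F : ℝ) ^ Fintype.card (Idx r' m') -
        (((r' : ℝ) - r) ^ 2 / 2 - ((r' : ℝ) - r) * (r' + 1 / 2)) / Fintype.card F| ≤ C / (Real.sqrt (Fintype.card F)) ^ 3 := by
  classical
  obtain ⟨C₁, hC₁, s₁, hs₁, h1⟩ := loc_bounds g r r' m m' hrm hrm' hr hr'
  obtain ⟨B, hB, h2⟩ := locJ_mean g r' m' hrm' hr' hg1
  obtain ⟨B₂, hB₂, h3⟩ := locJ_sq g r' m' hrm' hr' hg1
  obtain ⟨C₃, hC₃⟩ : ∃ C₃ : ℝ, C₃ = r' ^ 2 + r' + g := ⟨_, rfl⟩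
  have hC₃0 : 0 ≤ C₃ := by rw [hC₃]; positivity
  obtain ⟨k, hk⟩ : ∃ k : ℝ, k = (r' : ℝ) - r := ⟨_, rfl⟩
  obtain ⟨D, hD⟩ : ∃ D : ℝ, D = C₁ + |k| * B := ⟨_, rfl⟩
  have hD0 : 0 ≤ D := by rw [hD]; positivity
  obtain ⟨c, hc⟩ : ∃ c : ℝ, c = C₁ + C₁ * C₃ := ⟨_, rfl⟩
  have hc0 : 0 ≤ c := by rw [hc]; positivity
  refine ⟨C₁ + (C₁ ^ 2 + C₁ ^ 2 * C₃) + ((D ^ 3 + c * D) + k ^ 2 * B₂ + |k| * B), by positivity, max s₁ D, hs₁.trans (le_max_left _ _), ?_⟩
  intro F _ _ _ hF hg hs₀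
  obtain ⟨q, hq⟩ : ∃ q : ℝ, q = Fintype.card F := ⟨_, rfl⟩
  obtain ⟨s, hs⟩ : ∃ s : ℝ, s = Real.sqrt q := ⟨_, rfl⟩
  have hs1 : 1 ≤ s := by
    rw [hs, hq]
    exact hs₁.trans ((le_max_left _ _).trans hs₀)
  have hDs : D ≤ s := by
    rw [hs, hq]
    exact (le_max_right _ _).trans hs₀
  have hs0 : 0 < s := by linarith
  have hq0 : 0 < q := by rw [hq]; exact_mod_cast Fintype.card_pos
  have hsq : s ^ 2 = q := by
    rw [hs]
    exact Real.sq_sqrt hq0.le
  have hq1 : 1 ≤ q := by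
    rw [← hsq]
    exact one_le_pow₀ hs1
  obtain ⟨Q, hQ⟩ : ∃ Q : ℝ, Q = q ^ Fintype.card (Idx r' m') := ⟨_, rfl⟩
  have hQ0 : 0 < Q := by rw [hQ]; positivity
  have hQc : Q = Fintype.card (Idx r' m' → F) := by
    rw [hQ, hq, Fintype.card_fun]
    push_cast
    rfl
  have hmon : ∀ u : Idx r' m' → F, (fpol u).Monic := fun u => fpol_monic (by omega) u
  have hdeg : ∀ u : Idx r' m' → F, (fpol u).natDegree = 2 * g + 1 := fun u => by rw [fpol_natDegree (by omega : r' ≤ m') u, hrm']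
  have hb := h1 F hF hg ((le_max_left _ _).trans hs₀)
  have hbad := bad_card (F := F) hrm' hr'
  rw [← hC₃, ← hq, ← hQ] at hbad
  have m1 := (h2 F).1
  have m2 := (h2 F).2 hF
  have m3 := h3 F hF
  rw [← hq, ← hQ, rpow_q hq0.le, ← hs] at m2 m3
  obtain ⟨x, hx⟩ : ∃ x : (Idx r' m' → F) → ℝ, x = fun u => Real.log (psi r' m' (fpol u) / psi r m (fpol u)) := ⟨_, rfl⟩
  obtain ⟨G, hG⟩ : ∃ G : (Idx r' m' → F) → ℝ, G = fun u => locJ g u := ⟨_, rfl⟩
  have hxi : ∀ u : Idx r' m' → F, xi g r m r' m' (fpol u) = x u - k * G u := by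
    intro u
    unfold xi
    rw [locv_locJ, hx, hG, hk]
  have hxi' : (fun u : Idx r' m' → F => xi g r m r' m' (fpol u)) = fun u => x u - k * G u := funext hxi
  have hGe : ∀ u : Idx r' m' → F, locJ g u = G u := fun u => by rw [hG]
  have n1 : ∀ u, |G u| ≤ B / s := by
    intro u
    rw [← hGe, hs, hq]
    exact m1 u
  have hxg : ∀ u, |x u - k * G u| ≤ C₁ / s := by
    intro u
    have h4 := (hb (fpol u) (hmon u) (hdeg u)).2.2.1
    rw [← hxi, hs, hq]
    exact h4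
  have hxs : ∀ u, Squarefree (fpol u) → |x u - k * G u| ≤ C₁ / q := by
    intro u hu
    have h4 := (hb (fpol u) (hmon u) (hdeg u)).2.2.2.1 hu
    rw [← hxi, hq]
    exact h4
  have hkG : ∀ u, |k * G u| ≤ |k| * B / s := by
    intro u
    rw [abs_mul, mul_div_assoc]
    exact mul_le_mul_of_nonneg_left (n1 u) (abs_nonneg _)
  have hkG' : ∀ u, |k * G u| ≤ D / s := by
    intro u
    refine (hkG u).trans (div_le_div_of_nonneg_right ?_ hs0.le)
    rw [hD]
    linarith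
  have hxx : ∀ u, |x u| ≤ D / s := by
    intro u
    have e : x u = (x u - k * G u) + k * G u := by ring
    rw [e, hD, add_div]
    exact (abs_add_le _ _).trans (add_le_add (hxg u) (hkG u))
  -- sums over the bad and the good ones
  have hsplit : ∀ (f : (Idx r' m' → F) → ℝ) (a b : ℝ), 0 ≤ a → (∀ u, Squarefree (fpol u) → f u ≤ a) → (∀ u, f u ≤ b) → 0 ≤ b →
      (∑ u, f u) / Q ≤ a + b * C₃ / q := by
    intro f a b ha h4 h5 hb0
    have h6 : ∑ u, f u ≤ ∑ u : Idx r' m' → F, (a + if ¬ Squarefree (fpol u) then b else 0) := by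
      refine sum_le_sum fun u _ => ?_
      by_cases hu : Squarefree (fpol u)
      · rw [if_neg (not_not.2 hu), add_zero]
        exact h4 u hu
      · rw [if_pos hu]
        linarith [h5 u]
    rw [sum_add_distrib, sum_const, card_univ, nsmul_eq_mul, ← hQc, ← sum_filter, sum_const, nsmul_eq_mul] at h6
    rw [div_le_iff₀ hQ0]
    refine h6.trans ?_
    have h7 : (((univ : Finset (Idx r' m' → F)).filter fun u => ¬ Squarefree (fpol u)).card : ℝ) ≤ C₃ * Q / q := by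
      rw [le_div_iff₀ hq0]
      exact hbad
    have h8 := mul_le_mul_of_nonneg_right h7 hb0
    calc Q * a + (((univ : Finset (Idx r' m' → F)).filter fun u => ¬ Squarefree (fpol u)).card : ℝ) * b ≤ Q * a + C₃ * Q / q * b := by
          linarith
      _ = _ := by ring
  have hc1 : (∑ u, |x u - k * G u|) / Q ≤ c / s ^ 2 := by
    have h4 := hsplit (fun u => |x u - k * G u|) (C₁ / q) C₁ (by positivity) hxs
      (fun u => (hxg u).trans (div_le_self hC₁ hs1)) hC₁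
    refine h4.trans (le_of_eq ?_)
    rw [hc, hsq]
    ring
  have hexp : ∑ u, Real.exp (-x u) = Q := by
    have h4 := swap (F := F) (r := r) (m := m) (r' := r') (m' := m') (by omega) fun u =>
      (hb (fpol u) (fpol_monic (by omega) u) (by rw [fpol_natDegree (by omega : r ≤ m) u, hrm])).2.1
    rw [← hq, ← hQ] at h4
    rw [← h4]
    refine sum_congr rfl fun u _ => ?_
    obtain ⟨p1, p2, -⟩ := hb (fpol u) (hmon u) (hdeg u)
    rw [hx]
    show Real.exp (-Real.log (psi r' m' (fpol u) / psi r m (fpol u))) = _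
    rw [← Real.log_inv, inv_div, Real.exp_log (div_pos p1 p2)]
  have hml := mean_log Q D c s hQc hQ0 hs1 hD0 hDs x G hxx hexp k hc1 hkG'
  have hs3 : 0 < s ^ 3 := by positivity
  refine ⟨fun P hP hd => ⟨(hb P hP hd).1, (hb P hP hd).2.1⟩, fun u => ?_, ?_, ?_⟩
  · rw [hxi]
    refine (hxg u).trans ((div_le_self hC₁ hs1).trans ?_)
    have : 0 ≤ (C₁ ^ 2 + C₁ ^ 2 * C₃) + ((D ^ 3 + c * D) + k ^ 2 * B₂ + |k| * B) := by positivity
    linarith
  · rw [← hq, ← hQ]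
    rw [sum_congr rfl fun u _ => by rw [hxi u]]
    have h4 := hsplit (fun u => (x u - k * G u) ^ 2) (C₁ ^ 2 / q ^ 2) (C₁ ^ 2 / q) (by positivity) (fun u hu => by
        rw [← sq_abs, ← div_pow]
        exact pow_le_pow_left₀ (abs_nonneg _) (hxs u hu) 2) (fun u => by
        rw [← sq_abs]
        refine (pow_le_pow_left₀ (abs_nonneg _) (hxg u) 2).trans (le_of_eq ?_)
        rw [div_pow, hsq]) (by positivity)
    refine h4.trans ?_
    have h5 : C₁ ^ 2 / q ^ 2 + C₁ ^ 2 / q * C₃ / q = (C₁ ^ 2 + C₁ ^ 2 * C₃) / q ^ 2 := by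
      field_simp
    rw [h5]
    refine div_le_div_of_nonneg_right ?_ (by positivity)
    have : 0 ≤ C₁ + ((D ^ 3 + c * D) + k ^ 2 * B₂ + |k| * B) := by positivity
    linarith
  · rw [← hq, ← hQ, ← hs, ← hk]
    rw [sum_congr rfl fun u _ => hxi u]
    have e1 : (∑ u, (x u - k * G u)) / Q - (k ^ 2 / 2 - k * (r' + 1 / 2)) / q =
        ((∑ u, x u) / Q - k ^ 2 * ((∑ u, G u ^ 2) / Q) / 2) + k ^ 2 / 2 * ((∑ u, G u ^ 2) / Q - 1 / q) -
          k * ((∑ u, G u) / Q - (r' + 1 / 2) / q) := by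
      rw [sum_sub_distrib, ← mul_sum]
      ring
    have e2 : ∑ u, G u ^ 2 = ∑ u : Idx r' m' → F, locJ g u ^ 2 := by rw [hG]
    have e3 : ∑ u, G u = ∑ u : Idx r' m' → F, locJ g u := by rw [hG]
    rw [← e2] at m3
    rw [← e3] at m2
    rw [e1]
    refine (abs_sub _ _).trans ?_
    have h4 := abs_add_le ((∑ u, x u) / Q - k ^ 2 * ((∑ u, G u ^ 2) / Q) / 2) (k ^ 2 / 2 * ((∑ u, G u ^ 2) / Q - 1 / q))
    have h5 : |k ^ 2 / 2 * ((∑ u, G u ^ 2) / Q - 1 / q)| ≤ k ^ 2 * B₂ / s ^ 3 := by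
      rw [abs_mul, abs_of_nonneg (by positivity : 0 ≤ k ^ 2 / 2)]
      have h6 := mul_le_mul_of_nonneg_left m3 (by positivity : 0 ≤ k ^ 2 / 2)
      refine h6.trans ?_
      have h7 : 0 ≤ k ^ 2 * B₂ / s ^ 3 := by positivity
      have h8 : k ^ 2 / 2 * (B₂ / s ^ 3) = k ^ 2 * B₂ / s ^ 3 / 2 := by ring
      rw [h8]
      linarith
    have h6 : |k * ((∑ u, G u) / Q - (r' + 1 / 2) / q)| ≤ |k| * B / s ^ 3 := by
      rw [abs_mul, mul_div_assoc]
      exact mul_le_mul_of_nonneg_left m2 (abs_nonneg _)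
    have h7 : (C₁ + (C₁ ^ 2 + C₁ ^ 2 * C₃) + ((D ^ 3 + c * D) + k ^ 2 * B₂ + |k| * B)) / s ^ 3 =
        (C₁ + (C₁ ^ 2 + C₁ ^ 2 * C₃)) / s ^ 3 + ((D ^ 3 + c * D) / s ^ 3 + k ^ 2 * B₂ / s ^ 3 + |k| * B / s ^ 3) := by
      ring
    have h8 : 0 ≤ (C₁ + (C₁ ^ 2 + C₁ ^ 2 * C₃)) / s ^ 3 := by positivity
    rw [h7]
    linarith

end Q69.OD
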